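import Pool.Agent.N860.EU.Stm

set_option autoImplicit false

namespace Pool.Agent.N860.EU

theorem big : S_BIG := by
  intro α β τ a ha haα hαa hβ hβ7 hτ h1 h2
  have ha' : (40 : ℝ) ≤ a := by exact_mod_cast ha
  set s : ℝ := α + β with hs
  have hs40 : 40 ≤ s := by linarith
  have hs0 : 0 < s := by linarith
  obtain ⟨u, hu⟩ : ∃ u : ℝ, u = 1 / τ := ⟨_, rfl⟩
  have hu0 : 0 < u := by rw [hu]; positivity
  have hτu : τ * u = 1 := by rw [hu]; field_simp
  have e01 : NN α β τ 0 1 = (τ + u) / s := by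
    unfold NN
    rw [hu, ← hs]
    push_cast
    congr 1
    ring
  have e10 : NN α β τ 1 0 = (τ * α ^ 2 + β ^ 2 * u) / s := by
    unfold NN
    rw [hu, ← hs]
    push_cast
    congr 1
    ring
  have e1a : NN α β τ 1 a = (τ * (α - a) ^ 2 + (β + a) ^ 2 * u) / s := by
    unfold NN
    rw [hu, ← hs]
    push_cast
    congr 1
    ring
  rw [e01, e10, div_le_div_iff_of_pos_right hs0] at h1
  rw [e01, e1a, div_le_div_iff_of_pos_right hs0] at h2
  rw [e01]
  have hβ2 : β ^ 2 ≤ 9 / 49 := by nlinarith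
  have hαa0 : 0 ≤ α - a := by linarith
  have hαa2 : (α - a) ^ 2 ≤ 9 / 49 := by nlinarith
  -- u ≤ 1.107 s
  have hA : u * u ≤ 49 / 40 * (s * s) := by
    have k1 : u * (1 - β ^ 2) ≤ τ * (α ^ 2 - 1) := by nlinarith
    have k2 : u * (40 / 49) ≤ τ * (s * s) := by
      have k3 : u * (40 / 49) ≤ u * (1 - β ^ 2) := mul_le_mul_of_nonneg_left (by linarith) hu0.le
      have k4 : τ * (α ^ 2 - 1) ≤ τ * (s * s) := by
        apply mul_le_mul_of_nonneg_left _ hτ.le
        nlinarith
      linarith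
    have k5 := mul_le_mul_of_nonneg_right k2 hu0.le
    have k6 : τ * (s * s) * u = s * s := by
      calc τ * (s * s) * u = (τ * u) * (s * s) := by ring
        _ = s * s := by rw [hτu, one_mul]
    rw [k6] at k5
    nlinarith
  have hB : τ * τ ≤ 49 / 40 * (s * s) := by
    have k1 : τ * (1 - (α - a) ^ 2) ≤ u * ((β + a) ^ 2 - 1) := by nlinarith
    have k2 : τ * (40 / 49) ≤ u * (s * s) := by
      have k3 : τ * (40 / 49) ≤ τ * (1 - (α - a) ^ 2) :=
        mul_le_mul_of_nonneg_left (by linarith) hτ.le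
      have k4 : u * ((β + a) ^ 2 - 1) ≤ u * (s * s) := by
        apply mul_le_mul_of_nonneg_left _ hu0.le
        nlinarith
      linarith
    have k5 := mul_le_mul_of_nonneg_right k2 hτ.le
    have k6 : u * (s * s) * τ = s * s := by
      calc u * (s * s) * τ = (τ * u) * (s * s) := by ring
        _ = s * s := by rw [hτu, one_mul]
    rw [k6] at k5
    nlinarith
  have hu1 : u ≤ 1107 / 1000 * s := by
    apply le_of_sq_le_sq _ (by positivity)
    nlinarith [mul_pos hs0 hs0]
  have hτ1 : τ ≤ 1107 / 1000 * s := by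
    apply le_of_sq_le_sq _ (by positivity)
    nlinarith [mul_pos hs0 hs0]
  have hsum : τ + u ≤ 1107 / 1000 * s + 1 := by
    rcases le_total 1 τ with h | h
    · have : u ≤ 1 := by
        nlinarith
      linarith
    · linarith
  have hR : (1154 : ℝ) / 1000 ≤ R := by
    unfold R
    have h3 : Real.sqrt 3 ≤ 17321 / 10000 := by
      rw [Real.sqrt_le_left (by norm_num)]
      norm_num
    have h30 : 0 < Real.sqrt 3 := Real.sqrt_pos.2 (by norm_num)
    rw [le_div_iff₀ h30]
    nlinarith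
  have hW : (τ + u) / s ≤ 1132 / 1000 := by
    rw [div_le_iff₀ hs0]
    nlinarith
  linarith

end Pool.Agent.N860.EU
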