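import Pool.Agent.N860.EU.Stm

/-!
DIA: Dirichlet improvability.
-/

set_option autoImplicit false

namespace Pool.Agent.N860.EU

open Finset

theorem dia_bet (b : ℕ → ℕ) (hb : ∀ n, 1 ≤ b n) : ∀ n, 0 ≤ bet b n ∧ bet b n ≤ 1 := by
  intro n
  induction n with
  | zero => simp [bet]
  | succ n ih =>
    have h1 : (1 : ℝ) ≤ b n := by exact_mod_cast hb n
    have h2 : (1 : ℝ) ≤ (b n : ℝ) + bet b n := by linarith [ih.1]
    constructor
    · show 0 ≤ 1 / ((b n : ℝ) + bet b n)
      positivity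
    · show 1 / ((b n : ℝ) + bet b n) ≤ 1
      rw [div_le_one (by linarith)]
      exact h2

theorem dia_step (y : ℝ) (h0 : 0 ≤ y) (h1 : y ≤ 1) :
    1 / 3 ≤ 1 / (2 + y) ∧ 1 / (2 + 1 / (2 + y)) ≤ 3 / 7 := by
  have h2 : (1 : ℝ) / 3 ≤ 1 / (2 + y) := one_div_le_one_div_of_le (by linarith) (by linarith)
  refine ⟨h2, ?_⟩
  rw [div_le_iff₀ (by linarith)]
  linarith

theorem dia (hL : S_LAT) (hH : S_HEX) (hB : S_BIG) (hM : S_MARG) : S_DIA := by
  intro V hV M ε b n₀ hM2 hε hb hS hM0
  obtain ⟨ε', hε', hmarg⟩ := hM V hV M ε hM2 hε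
  obtain ⟨δ, hδ, hhex⟩ := hH ε' ((M : ℝ) + 1) hε' (by positivity)
  obtain ⟨t₁, ht₁⟩ := hL V hV b hb (n₀ + 4)
  have hR : 0 < R := by unfold R; positivity
  set δ₁ : ℝ := min (min δ (1 / 100)) (R / 2) with hδ₁
  have hd0 : 0 < δ₁ := lt_min (lt_min hδ (by norm_num)) (by linarith)
  have hd1 : δ₁ ≤ δ := (min_le_left _ _).trans (min_le_left _ _)
  have hd2 : δ₁ ≤ 1 / 100 := (min_le_left _ _).trans (min_le_right _ _)
  have hd3 : δ₁ ≤ R / 2 := min_le_right _ _
  have hq0 : 0 < (R - δ₁) / R := div_pos (by linarith) hR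
  have hq1 : (R - δ₁) / R < 1 := by rw [div_lt_one hR]; linarith
  -- the norm bound
  have key : ∀ n : ℕ, n₀ + 4 ≤ n → ∀ τ : ℝ, 0 < τ →
      (∀ k l : ℤ, (k, l) ≠ (0, 0) → NN (alp V b n) (bet b n) τ 0 1 ≤ NN (alp V b n) (bet b n) τ k l) →
      NN (alp V b n) (bet b n) τ 0 1 ≤ R - δ₁ := by
    intro n hn τ hτ hmin
    have hβ := dia_bet b hb n
    have hVn := hV.pos (fun m => b (n + 1 + m)) (fun m => hb _)
    have hbn : (1 : ℝ) ≤ b n := by exact_mod_cast hb n
    have hα : alp V b n = (b n : ℝ) + V (fun m => b (n + 1 + m)) := rfl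
    by_cases hle : b n ≤ M
    · have hbM : (b n : ℝ) ≤ M := by exact_mod_cast hle
      have h := hhex (alp V b n) (bet b n) τ (by rw [hα]; linarith [hVn.1]) (by rw [hα]; linarith [hVn.2])
        hβ.1 hβ.2 hτ (hmarg b n₀ hb hS hM0 n hn hle) hmin
      linarith
    · rcases hS n (by omega) with h | ⟨h40, h2, h1, hp1, hp2⟩
      · exact absurd h hle
      · have hV1 : V (fun m => b (n + 1 + m)) =
            1 / ((b (n + 1) : ℝ) + V (fun m => b (n + 2 + m))) := by
          have := hV.step (fun m => b (n + 1 + m)) (fun m => hb _)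
          simp only [Nat.add_zero] at this
          rw [this]
          have e : (fun m => b (n + 1 + (m + 1))) = fun m => b (n + 2 + m) := by
            funext m
            congr 1
            omega
          rw [e]
        have hV2 : V (fun m => b (n + 2 + m)) =
            1 / ((b (n + 2) : ℝ) + V (fun m => b (n + 3 + m))) := by
          have := hV.step (fun m => b (n + 2 + m)) (fun m => hb _)
          simp only [Nat.add_zero] at this
          rw [this]
          have e : (fun m => b (n + 2 + (m + 1))) = fun m => b (n + 3 + m) := by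
            funext m
            congr 1
            omega
          rw [e]
        have hV3 := hV.pos (fun m => b (n + 3 + m)) (fun m => hb _)
        have hVle : V (fun m => b (n + 1 + m)) ≤ 3 / 7 := by
          rw [hV1, hV2, hp1, hp2]
          exact (dia_step _ hV3.1.le hV3.2.le).2
        obtain ⟨m, rfl⟩ : ∃ m, n = m + 2 := ⟨n - 2, by omega⟩
        have e1 : m + 2 - 2 = m := by omega
        have e2 : m + 2 - 1 = m + 1 := by omega
        rw [e1] at h2
        rw [e2] at h1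
        have hβ2 := dia_bet b hb m
        have hβle : bet b (m + 2) ≤ 3 / 7 := by
          have e3 : bet b (m + 2) = 1 / ((b (m + 1) : ℝ) + 1 / ((b m : ℝ) + bet b m)) := rfl
          rw [e3, h1, h2]
          exact (dia_step _ hβ2.1 hβ2.2).2
        have h := hB (alp V b (m + 2)) (bet b (m + 2)) τ (b (m + 2)) h40 (by rw [hα]; linarith [hVn.1])
          (by rw [hα]; linarith) hβ.1 hβle hτ (hmin 1 0 (by simp)) (by
            have := hmin 1 (b (m + 2)) (by simp)
            exact_mod_cast this)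
        linarith
  refine ⟨Real.sqrt ((R - δ₁) / R), Real.sqrt_pos.2 hq0, ?_, t₁, fun t ht => ?_⟩
  · rw [Real.sqrt_lt' one_pos]
    simpa using hq1
  · obtain ⟨n, hn, τ, hτ, ⟨p, q, hpq, heq⟩, hmin⟩ := ht₁ t ht
    refine ⟨p, q, hpq, ?_⟩
    have h1 := key n hn τ hτ hmin
    rw [← heq] at h1
    rw [div_pow, Real.sq_sqrt hq0.le]
    have hA : 0 ≤ (t * ((p : ℝ) + q * V b)) ^ 2 := sq_nonneg _
    have hB' : 0 ≤ ((q : ℝ) / t) ^ 2 := sq_nonneg _
    have h2 : ((q : ℝ) / t) ^ 2 ≤ ((q : ℝ) / t) ^ 2 / ((R - δ₁) / R) := by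
      rw [le_div_iff₀ hq0]
      nlinarith
    have h3 : (t * ((p : ℝ) + q * V b)) ^ 2 / ((R - δ₁) / R) + ((q : ℝ) / t) ^ 2 / ((R - δ₁) / R) ≤ R := by
      rw [← add_div, div_le_iff₀ hq0]
      have e : R * ((R - δ₁) / R) = R - δ₁ := by field_simp
      rw [e]
      exact h1
    linarith

end Pool.Agent.N860.EU
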