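import Pool.Agent.N860.EU.Stm

/-!
# GAP: different words give distant numbers (helper711)
-/

set_option autoImplicit false

namespace Pool.Agent.N860.EU

namespace Gap

theorem V_ph {V : (ℕ → ℕ) → ℝ} (hV : IsV V) : ∀ (Q : List ℕ) (b : ℕ → ℕ), (∀ n, 1 ≤ b n) →
    (∀ i < Q.length, b i = Q.getD i 0) → V b = ph Q (V (fun n => b (Q.length + n))) := by
  intro Q
  induction Q with
  | nil =>
    intro b _ _
    have e : (fun n => b (([] : List ℕ).length + n)) = b := by
      funext n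
      congr 1
      simp
    rw [e]
    rfl
  | cons a Q ih =>
    intro b hb h
    have h0 : b 0 = a := by
      have := h 0 (by simp)
      simpa using this
    have e : (fun n => b ((a :: Q).length + n)) = fun n => b (Q.length + n + 1) := by
      funext n
      congr 1
      rw [List.length_cons]
      omega
    rw [e, hV.step b hb, ih (fun n => b (n + 1)) (fun n => hb (n + 1)) (fun i hi => by
      have := h (i + 1) (by simpa using hi)
      simpa using this), h0]
    rfl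

theorem split : ∀ w w' : List ℕ, w.length = w'.length → w ≠ w' →
    ∃ (u : List ℕ) (a a' : ℕ) (v v' : List ℕ), w = u ++ a :: v ∧ w' = u ++ a' :: v' ∧ a ≠ a' := by
  intro w
  induction w with
  | nil =>
    intro w' h hne
    exact absurd (List.length_eq_zero_iff.1 h.symm).symm hne
  | cons x w ih =>
    intro w' h hne
    cases w' with
    | nil => simp at h
    | cons y w' =>
      by_cases hxy : x = y
      · subst hxy
        obtain ⟨u, a, a', v, v', h1, h2, h3⟩ := ih w' (by simpa using h) (fun e => hne (by rw [e]))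
        exact ⟨x :: u, a, a', v, v', by rw [h1]; rfl, by rw [h2]; rfl, h3⟩
      · exact ⟨[], x, y, w, w', rfl, rfl, hxy⟩

theorem V_lo {V : (ℕ → ℕ) → ℝ} (hV : IsV V) {M : ℕ} {c : ℕ → ℕ} (hc : ∀ n, 1 ≤ c n)
    (h0 : c 0 ≤ M) : 1 / ((M : ℝ) + 1) ≤ V c := by
  rw [hV.step c hc]
  obtain ⟨h1, h2⟩ := hV.pos (fun n => c (n + 1)) (fun n => hc _)
  have h3 : (c 0 : ℝ) ≤ M := by exact_mod_cast h0
  have h4 : (1 : ℝ) ≤ c 0 := by exact_mod_cast hc 0
  exact one_div_le_one_div_of_le (by linarith) (by linarith)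

theorem V_hi {V : (ℕ → ℕ) → ℝ} (hV : IsV V) {M : ℕ} {c : ℕ → ℕ} (hc : ∀ n, 1 ≤ c n)
    (h1 : c 1 ≤ M) : V c ≤ 1 - 1 / ((M : ℝ) + 2) := by
  rw [hV.step c hc]
  have h2 := V_lo hV (M := M) (c := fun n => c (n + 1)) (fun n => hc _) h1
  have h4 : (1 : ℝ) ≤ c 0 := by exact_mod_cast hc 0
  have hM : (0 : ℝ) ≤ M := Nat.cast_nonneg _
  have e : (1 : ℝ) - 1 / ((M : ℝ) + 2) = 1 / (1 + 1 / ((M : ℝ) + 1)) := by
    field_simp
    ring
  rw [e]
  exact one_div_le_one_div_of_le (by positivity) (by linarith)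

theorem dist {V : (ℕ → ℕ) → ℝ} (hV : IsV V) {M : ℕ} {c c' : ℕ → ℕ} (hc : ∀ n, 1 ≤ c n)
    (hc' : ∀ n, 1 ≤ c' n) (hne : c 0 ≠ c' 0) (h0 : c 0 ≤ M) (h1 : c 1 ≤ M) (h2 : c 2 ≤ M)
    (h0' : c' 0 ≤ M) (h1' : c' 1 ≤ M) (h2' : c' 2 ≤ M) :
    1 / (((M : ℝ) + 1) ^ 2 * ((M : ℝ) + 2)) ≤ |V c - V c'| := by
  have z1 := V_lo hV (M := M) (c := fun n => c (n + 1)) (fun n => hc _) h1
  have z2 := V_hi hV (M := M) (c := fun n => c (n + 1)) (fun n => hc _) h2
  have z1' := V_lo hV (M := M) (c := fun n => c' (n + 1)) (fun n => hc' _) h1'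
  have z2' := V_hi hV (M := M) (c := fun n => c' (n + 1)) (fun n => hc' _) h2'
  rw [hV.step c hc, hV.step c' hc']
  generalize V (fun n => c (n + 1)) = z at *
  generalize V (fun n => c' (n + 1)) = z' at *
  have hM : (0 : ℝ) ≤ M := Nat.cast_nonneg _
  have p1 : 0 < 1 / ((M : ℝ) + 1) := by positivity
  have p2 : 0 < 1 / ((M : ℝ) + 2) := by positivity
  have h3 : (c 0 : ℝ) ≤ M := by exact_mod_cast h0
  have h4 : (1 : ℝ) ≤ c 0 := by exact_mod_cast hc 0
  have h3' : (c' 0 : ℝ) ≤ M := by exact_mod_cast h0'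
  have h4' : (1 : ℝ) ≤ c' 0 := by exact_mod_cast hc' 0
  have key : 1 / ((M : ℝ) + 2) ≤ |((c' 0 : ℝ) + z') - (c 0 + z)| := by
    rcases lt_or_gt_of_ne hne with h | h
    · have h5 : (c 0 : ℝ) + 1 ≤ c' 0 := by exact_mod_cast h
      rw [le_abs]
      left
      linarith
    · have h5 : (c' 0 : ℝ) + 1 ≤ c 0 := by exact_mod_cast h
      rw [le_abs]
      right
      linarith
  have q1 : 0 < (c 0 : ℝ) + z := by linarith
  have q2 : 0 < (c' 0 : ℝ) + z' := by linarith
  have e : 1 / ((c 0 : ℝ) + z) - 1 / ((c' 0 : ℝ) + z') =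
      (((c' 0 : ℝ) + z') - (c 0 + z)) / (((c 0 : ℝ) + z) * ((c' 0 : ℝ) + z')) := by
    field_simp
  have e2 : 1 / (((M : ℝ) + 1) ^ 2 * ((M : ℝ) + 2)) =
      (1 / ((M : ℝ) + 2)) / (((M : ℝ) + 1) * ((M : ℝ) + 1)) := by
    field_simp
  rw [e, abs_div, abs_of_pos (mul_pos q1 q2), e2]
  exact div_le_div₀ (abs_nonneg _) key (mul_pos q1 q2)
    (mul_le_mul (by linarith) (by linarith) q2.le (by linarith))

end Gap

theorem gap (hK : S_KF) : S_GAP := by
  obtain ⟨K1, K2, -, -, K5, -, K7⟩ := hK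
  intro M L hM
  refine ⟨1 / (((M : ℝ) + 1) ^ 2 * ((M : ℝ) + 2)) / (16 * ((M : ℝ) + 1) ^ (2 * L)), by positivity,
    ?_⟩
  intro V hV P w w' b b' hP hw hw' hne hb hb' hbP hbP' hbw hbw' hb2 hb2'
  rw [mem_words] at hw hw'
  obtain ⟨u, a, a', v, v', e1, e2, haa⟩ := Gap.split w w' (hw.1.trans hw'.1.symm) hne
  have hL : u.length + (v.length + 1) = L := by
    rw [← hw.1, e1, List.length_append, List.length_cons]
  have hL' : u.length + (v'.length + 1) = L := by
    rw [← hw'.1, e2, List.length_append, List.length_cons]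
  have hu : ∀ x ∈ u, 1 ≤ x ∧ x ≤ M := fun x hx => hw.2 x (by
    rw [e1]
    exact List.mem_append_left _ hx)
  have hPu : ∀ x ∈ P ++ u, 1 ≤ x := by
    intro x hx
    rcases List.mem_append.1 hx with h | h
    · exact hP x h
    · exact (hu x h).1
  have hlen : (P ++ u).length = P.length + u.length := List.length_append
  -- the digits of the prefix
  have dig : ∀ (c : ℕ → ℕ) (y : List ℕ) (x : ℕ) (t : List ℕ), y = u ++ x :: t →
      (∀ i < P.length, c i = P.getD i 0) → (∀ i < L, c (P.length + i) = y.getD i 0) →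
      (∀ i < (P ++ u).length, c i = (P ++ u).getD i 0) ∧ c ((P ++ u).length + 0) = x := by
    intro c y x t hy hcP hcy
    constructor
    · intro i hi
      rw [hlen] at hi
      by_cases h : i < P.length
      · rw [hcP i h, List.getD_append _ _ _ _ h]
      · have h2 : i - P.length < u.length := by omega
        have h3 := hcy (i - P.length) (by omega)
        rw [show P.length + (i - P.length) = i by omega] at h3
        rw [h3, hy, List.getD_append _ _ _ _ h2, List.getD_append_right _ _ _ _ (by omega)]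
    · have h3 := hcy u.length (by omega)
      rw [hlen, add_zero, h3, hy, List.getD_append_right _ _ _ _ le_rfl, Nat.sub_self]
      rfl
  have bd : ∀ (c : ℕ → ℕ) (y : List ℕ), (y.length = L ∧ ∀ a ∈ y, 1 ≤ a ∧ a ≤ M) →
      (∀ i < L, c (P.length + i) = y.getD i 0) → (∀ i < 2, c (P.length + L + i) = 2) →
      ∀ j < 3, c ((P ++ u).length + j) ≤ M := by
    intro c y hy hcy hc2 j hj
    rw [hlen]
    by_cases h : u.length + j < L
    · rw [add_assoc, hcy _ h]
      have h3 : u.length + j < y.length := by rw [hy.1]; exact h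
      rw [List.getD_eq_getElem _ _ h3]
      exact (hy.2 _ (List.getElem_mem h3)).2
    · have h3 := hc2 (u.length + j - L) (by omega)
      rw [show P.length + L + (u.length + j - L) = P.length + u.length + j by omega] at h3
      rw [h3]
      exact hM
  obtain ⟨d1, d2⟩ := dig b w a v e1 hbP hbw
  obtain ⟨d1', d2'⟩ := dig b' w' a' v' e2 hbP' hbw'
  have m1 := bd b w hw hbw hb2
  have m1' := bd b' w' hw' hbw' hb2'
  rw [Gap.V_ph hV (P ++ u) b hb d1, Gap.V_ph hV (P ++ u) b' hb' d1']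
  have D := Gap.dist hV (M := M) (c := fun n => b ((P ++ u).length + n))
    (c' := fun n => b' ((P ++ u).length + n)) (fun n => hb _) (fun n => hb' _)
    (by
      change b ((P ++ u).length + 0) ≠ b' ((P ++ u).length + 0)
      rw [d2, d2']
      exact haa)
    (m1 0 (by norm_num)) (m1 1 (by norm_num)) (m1 2 (by norm_num)) (m1' 0 (by norm_num))
    (m1' 1 (by norm_num)) (m1' 2 (by norm_num))
  obtain ⟨s1, s2⟩ := hV.pos (fun n => b ((P ++ u).length + n)) (fun n => hb _)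
  obtain ⟨t1, t2⟩ := hV.pos (fun n => b' ((P ++ u).length + n)) (fun n => hb' _)
  refine le_trans ?_ (K7 (P ++ u) _ _ hPu s1.le s2.le t1.le t2.le).1
  have k1 : (1 : ℝ) ≤ K (P ++ u) := by exact_mod_cast K1 _ hPu
  have k2 : (1 : ℝ) ≤ K P := by exact_mod_cast K1 _ hP
  have k3 : (K (P ++ u) : ℝ) ≤ 2 * K P * K u := by
    exact_mod_cast (K2 P u hP fun x hx => (hu x hx).1).2
  have k4 : (K u : ℝ) ≤ ((M : ℝ) + 1) ^ u.length := by exact_mod_cast K5 u M hu
  have k5 : ((M : ℝ) + 1) ^ u.length ≤ ((M : ℝ) + 1) ^ L :=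
    pow_le_pow_right₀ (by
      have : (0 : ℝ) ≤ M := Nat.cast_nonneg _
      linarith) (by omega)
  have k6 : (K (P ++ u) : ℝ) ≤ 2 * K P * ((M : ℝ) + 1) ^ L :=
    k3.trans (mul_le_mul_of_nonneg_left (k4.trans k5) (by linarith))
  have k7 : (K (P ++ u) : ℝ) ^ 2 ≤ (2 * K P * ((M : ℝ) + 1) ^ L) ^ 2 :=
    pow_le_pow_left₀ (by linarith) k6 2
  rw [div_div]
  refine div_le_div₀ (abs_nonneg _) D (by positivity) ?_
  calc 4 * (K (P ++ u) : ℝ) ^ 2 ≤ 4 * (2 * K P * ((M : ℝ) + 1) ^ L) ^ 2 := by linarith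
    _ = 16 * ((M : ℝ) + 1) ^ (2 * L) * (K P : ℝ) ^ 2 := by
        rw [mul_comm 2 L, pow_mul]
        ring

end Pool.Agent.N860.EU
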