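import Pool.Agent.N860.EU.Stm

/-!
# Project EU, leaf GSUM (helper803): good words
-/

set_option autoImplicit false

namespace Pool.Agent.N860.EU

open Finset

namespace Gs

theorem th_mem : 0 ≤ th ∧ th ≤ 1 := by
  unfold th
  have h1 : (1 : ℝ) ≤ Real.sqrt 2 := by
    rw [show (1 : ℝ) = Real.sqrt 1 from Real.sqrt_one.symm]
    exact Real.sqrt_le_sqrt (by norm_num)
  have h2 : Real.sqrt 2 ≤ 2 := by
    rw [Real.sqrt_le_left (by norm_num)]
    norm_num
  constructor <;> linarith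

theorem ph_mem (w : List ℕ) (hw : ∀ a ∈ w, 1 ≤ a) : 0 ≤ ph w th ∧ ph w th ≤ 1 := by
  induction w with
  | nil => exact th_mem
  | cons a w ih =>
    have h1 := ih (fun x hx => hw x (List.mem_cons_of_mem _ hx))
    have h2 : (1 : ℝ) ≤ a := by exact_mod_cast hw a List.mem_cons_self
    have h3 : ph (a :: w) th = 1 / ((a : ℝ) + ph w th) := rfl
    rw [h3]
    have h4 : (1 : ℝ) ≤ (a : ℝ) + ph w th := by linarith [h1.1]
    exact ⟨by positivity, (div_le_one (by linarith)).2 h4⟩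

/-- the sum over the words on one side -/
theorem side (hI : S_INT) (F : Finset (List ℕ)) (k : ℕ) (B ε : ℝ) (hB : 1 / 2 ≤ B) (hε : 0 ≤ ε)
    (h : ∀ v ∈ F, v.length = k ∧ (∀ a ∈ v, 1 ≤ a) ∧ |(ph v th + 1 / 2) * B - 3 / 4| < 2 * ε) :
    ∑ v ∈ F, 1 / (K v : ℝ) ^ 2 ≤ 16 * ε + 16 / 2 ^ k := by
  have hB0 : 0 < B := by linarith
  have h1 := (hI k F (3 / (4 * B) - 1 / 2 - 4 * ε) (3 / (4 * B) - 1 / 2 + 4 * ε) (by linarith) (by
    intro v hv
    obtain ⟨a1, a2, a3⟩ := h v hv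
    have e1 : (ph v th + 1 / 2) * B - 3 / 4 = (ph v th - (3 / (4 * B) - 1 / 2)) * B := by
      field_simp
      ring
    rw [e1, abs_mul, abs_of_pos hB0] at a3
    have h2 : |ph v th - (3 / (4 * B) - 1 / 2)| * (1 / 2) ≤
        |ph v th - (3 / (4 * B) - 1 / 2)| * B := mul_le_mul_of_nonneg_left hB (abs_nonneg _)
    have h3 : |ph v th - (3 / (4 * B) - 1 / 2)| ≤ 4 * ε := by linarith
    have h4 := abs_le.1 h3
    exact ⟨a1, a2, by linarith [h4.1], by linarith [h4.2]⟩)).1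
  refine h1.trans (le_of_eq ?_)
  ring

theorem row (hI : S_INT) (k M : ℕ) : ∑ v ∈ words k M, 1 / (K v : ℝ) ^ 2 ≤ 2 := by
  refine (hI k (words k M) 0 1 zero_le_one ?_).2
  intro v hv
  rw [mem_words] at hv
  have h1 : ∀ a ∈ v, 1 ≤ a := fun a ha => (hv.2 a ha).1
  exact ⟨hv.1, h1, (ph_mem v h1).1, (ph_mem v h1).2⟩

theorem K_split (hK : S_KF) (p v : List ℕ) (hp : ∀ a ∈ p, 1 ≤ a) (hv : ∀ a ∈ v, 1 ≤ a) :
    1 / (K (p ++ 1 :: v) : ℝ) ^ 2 ≤ 1 / (K p : ℝ) ^ 2 * (1 / (K v : ℝ) ^ 2) := by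
  obtain ⟨k1, k2, -⟩ := hK
  have hv1 : ∀ a ∈ (1 :: v), 1 ≤ a := by
    intro a ha
    rcases List.mem_cons.1 ha with rfl | ha
    · exact le_rfl
    · exact hv a ha
  have h1 := (k2 p (1 :: v) hp hv1).1
  have h2 := (k2 [1] v (by simp) hv).1
  have h3 : K [1] = 1 := rfl
  rw [h3, one_mul] at h2
  have h2' : K v ≤ K (1 :: v) := h2
  have h4 : K p * K v ≤ K (p ++ 1 :: v) := (Nat.mul_le_mul_left _ h2').trans h1
  have h5 : ((K p : ℝ) * K v) ≤ (K (p ++ 1 :: v) : ℝ) := by exact_mod_cast h4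
  have hp0 : (0 : ℝ) < K p := by exact_mod_cast k1 p hp
  have hv0 : (0 : ℝ) < K v := by exact_mod_cast k1 v hv
  rw [one_div_mul_one_div, ← mul_pow]
  exact one_div_le_one_div_of_le (by positivity) (pow_le_pow_left₀ (by positivity) h5 2)

/-- the condition of a bad position -/
def bad (ε : ℝ) (p v : List ℕ) : Prop :=
  |(ph v th + 1 / 2) * (ph p.reverse th + 1 / 2) - 3 / 4| < 2 * ε

open scoped Classical in
/-- the bad words with a given bad position -/
theorem position (hK : S_KF) (hI : S_INT) (ε : ℝ) (hε : 0 ≤ ε) (L M i : ℕ) (hi : i < L) :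
    ∑ q ∈ (words i M ×ˢ words (L - 1 - i) M).filter (fun q => bad ε q.1 q.2),
      1 / (K (q.1 ++ 1 :: q.2) : ℝ) ^ 2 ≤ 2 * (16 * ε + 16 / 2 ^ ((L - 1) / 2)) := by
  have hδ : 0 ≤ 16 * ε + 16 / 2 ^ ((L - 1) / 2) := by positivity
  have hpow : ∀ k : ℕ, (L - 1) / 2 ≤ k →
      16 * ε + 16 / 2 ^ k ≤ 16 * ε + 16 / 2 ^ ((L - 1) / 2) := by
    intro k hk
    have h1 : (2 : ℝ) ^ ((L - 1) / 2) ≤ 2 ^ k := pow_le_pow_right₀ (by norm_num) hk
    have h2 : (16 : ℝ) / 2 ^ k ≤ 16 / 2 ^ ((L - 1) / 2) :=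
      div_le_div_of_nonneg_left (by norm_num) (by positivity) h1
    linarith
  have h1 : ∑ q ∈ (words i M ×ˢ words (L - 1 - i) M).filter (fun q => bad ε q.1 q.2),
      1 / (K (q.1 ++ 1 :: q.2) : ℝ) ^ 2 ≤
      ∑ q ∈ (words i M ×ˢ words (L - 1 - i) M).filter (fun q => bad ε q.1 q.2),
        1 / (K q.1 : ℝ) ^ 2 * (1 / (K q.2 : ℝ) ^ 2) := by
    refine sum_le_sum fun q hq => ?_
    rw [mem_filter, mem_product, mem_words, mem_words] at hq
    exact K_split hK q.1 q.2 (fun a ha => (hq.1.1.2 a ha).1) (fun a ha => (hq.1.2.2 a ha).1)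
  refine h1.trans ?_
  rw [sum_filter]
  rcases Nat.lt_or_ge (L - 1 - i) i with hc | hc
  · -- the left word is long
    rw [sum_product_right]
    calc ∑ v ∈ words (L - 1 - i) M, ∑ p ∈ words i M,
          (if bad ε p v then 1 / (K p : ℝ) ^ 2 * (1 / (K v : ℝ) ^ 2) else 0)
        ≤ ∑ v ∈ words (L - 1 - i) M, 1 / (K v : ℝ) ^ 2 * (16 * ε + 16 / 2 ^ ((L - 1) / 2)) := by
          refine sum_le_sum fun v hv => ?_
          rw [mem_words] at hv
          have hv1 : ∀ a ∈ v, 1 ≤ a := fun a ha => (hv.2 a ha).1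
          rw [← sum_filter, ← sum_mul, mul_comm]
          refine mul_le_mul_of_nonneg_left ?_ (by positivity)
          refine le_trans ?_ (hpow i (by omega))
          have h2 : ∑ p ∈ (words i M).filter (fun p => bad ε p v), 1 / (K p : ℝ) ^ 2 =
              ∑ p ∈ ((words i M).filter (fun p => bad ε p v)).image List.reverse,
                1 / (K p : ℝ) ^ 2 := by
            rw [sum_image (fun _ _ _ _ e => List.reverse_injective e)]
            refine sum_congr rfl fun p _ => ?_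
            rw [hK.2.2.1]
          rw [h2]
          refine side hI _ i (ph v th + 1 / 2) ε (by linarith [(ph_mem v hv1).1]) hε ?_
          intro p hp
          obtain ⟨p', hp', rfl⟩ := mem_image.1 hp
          rw [mem_filter, mem_words] at hp'
          obtain ⟨⟨b1, b2⟩, b3⟩ := hp'
          refine ⟨by rw [List.length_reverse, b1], fun a ha => (b2 a (List.mem_reverse.1 ha)).1, ?_⟩
          rw [mul_comm]
          exact b3
      _ = (∑ v ∈ words (L - 1 - i) M, 1 / (K v : ℝ) ^ 2) * (16 * ε + 16 / 2 ^ ((L - 1) / 2)) := by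
          rw [sum_mul]
      _ ≤ _ := mul_le_mul_of_nonneg_right (row hI _ _) hδ
  · rw [sum_product]
    calc ∑ p ∈ words i M, ∑ v ∈ words (L - 1 - i) M,
          (if bad ε p v then 1 / (K p : ℝ) ^ 2 * (1 / (K v : ℝ) ^ 2) else 0)
        ≤ ∑ p ∈ words i M, 1 / (K p : ℝ) ^ 2 * (16 * ε + 16 / 2 ^ ((L - 1) / 2)) := by
          refine sum_le_sum fun p hp => ?_
          rw [mem_words] at hp
          have hp1 : ∀ a ∈ p.reverse, 1 ≤ a := fun a ha => (hp.2 a (List.mem_reverse.1 ha)).1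
          rw [← sum_filter, ← mul_sum]
          refine mul_le_mul_of_nonneg_left ?_ (by positivity)
          refine le_trans ?_ (hpow (L - 1 - i) (by omega))
          refine side hI _ (L - 1 - i) (ph p.reverse th + 1 / 2) ε
            (by linarith [(ph_mem p.reverse hp1).1]) hε ?_
          intro v hv
          rw [mem_filter, mem_words] at hv
          obtain ⟨⟨b1, b2⟩, b3⟩ := hv
          exact ⟨b1, fun a ha => (b2 a ha).1, b3⟩
      _ = (∑ p ∈ words i M, 1 / (K p : ℝ) ^ 2) * (16 * ε + 16 / 2 ^ ((L - 1) / 2)) := by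
          rw [sum_mul]
      _ ≤ _ := mul_le_mul_of_nonneg_right (row hI _ _) hδ

theorem two_pow_big (j : ℕ) (hj : 20 ≤ j) : 2560 * (j + 1) ≤ 2 ^ j := by
  induction j, hj using Nat.le_induction with
  | base => norm_num
  | succ j hj ih =>
    rw [pow_succ]
    omega

open scoped Classical in
/-- the sum over the words which are not good -/
theorem not_good (hK : S_KF) (hI : S_INT) (ε : ℝ) (hε : 0 ≤ ε) (L M : ℕ) :
    ∑ w ∈ (words L M).filter (fun w => ¬ Gd ε w), 1 / (K w : ℝ) ^ 2 ≤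
      L * (2 * (16 * ε + 16 / 2 ^ ((L - 1) / 2))) := by
  obtain ⟨T, hT⟩ : ∃ T : ℕ → Finset (List ℕ × List ℕ), T = fun i =>
    (words i M ×ˢ words (L - 1 - i) M).filter (fun q => bad ε q.1 q.2) := ⟨_, rfl⟩
  have hsub : (words L M).filter (fun w => ¬ Gd ε w) ⊆
      ((range L).sigma T).image (fun s => s.2.1 ++ 1 :: s.2.2) := by
    intro w hw
    rw [mem_filter, mem_words] at hw
    obtain ⟨⟨hw1, hw2⟩, hw3⟩ := hw
    unfold Gd at hw3
    push Not at hw3
    obtain ⟨p, v, hpv, hb⟩ := hw3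
    rw [mem_image]
    refine ⟨⟨p.length, (p, v)⟩, ?_, hpv.symm⟩
    rw [hpv, List.length_append, List.length_cons] at hw1
    rw [mem_sigma, mem_range, hT]
    refine ⟨by simp only; omega, ?_⟩
    simp only
    rw [mem_filter, mem_product, mem_words, mem_words]
    refine ⟨⟨⟨rfl, fun a ha => hw2 a ?_⟩, ⟨by simp only; omega, fun a ha => hw2 a ?_⟩⟩, hb⟩
    · rw [hpv]
      exact List.mem_append_left _ ha
    · rw [hpv]
      exact List.mem_append_right _ (List.mem_cons_of_mem _ ha)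
  calc ∑ w ∈ (words L M).filter (fun w => ¬ Gd ε w), 1 / (K w : ℝ) ^ 2
      ≤ ∑ w ∈ ((range L).sigma T).image (fun s => s.2.1 ++ 1 :: s.2.2), 1 / (K w : ℝ) ^ 2 :=
        sum_le_sum_of_subset_of_nonneg hsub fun _ _ _ => by positivity
    _ ≤ ∑ s ∈ (range L).sigma T, 1 / (K (s.2.1 ++ 1 :: s.2.2) : ℝ) ^ 2 :=
        sum_image_le_of_nonneg (g := fun s : (_ : ℕ) × (List ℕ × List ℕ) => s.2.1 ++ 1 :: s.2.2)
          (f := fun w : List ℕ => 1 / (K w : ℝ) ^ 2) fun _ _ => by positivity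
    _ = ∑ i ∈ range L, ∑ q ∈ T i, 1 / (K (q.1 ++ 1 :: q.2) : ℝ) ^ 2 := by
        rw [sum_sigma]
    _ ≤ ∑ _i ∈ range L, (2 * (16 * ε + 16 / 2 ^ ((L - 1) / 2))) := by
        refine sum_le_sum fun i hi => ?_
        rw [hT]
        exact position hK hI ε hε L M i (mem_range.1 hi)
    _ = _ := by
        rw [sum_const, card_range, nsmul_eq_mul]

end Gs

theorem gsum (hK : S_KF) (hI : S_INT) (hL : S_LOW) : S_GSUM := by
  classical
  refine ⟨41, fun L hL41 => ?_⟩
  have hL0 : (41 : ℝ) ≤ L := by exact_mod_cast hL41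
  have h1 := hL L (16 * L) (by omega)
  have h2 := Gs.not_good hK hI (1 / (200 * (L : ℝ))) (by positivity) L (16 * L)
  have h3 := sum_filter_add_sum_filter_not (words L (16 * L)) (Gd (1 / (200 * (L : ℝ))))
    (fun w => 1 / (K w : ℝ) ^ 2)
  have h4 : 2 * (L : ℝ) / (((16 * L : ℕ) : ℝ) + 1) ≤ 1 / 8 := by
    rw [div_le_div_iff₀ (by positivity) (by norm_num)]
    push_cast
    linarith
  have h5 : (L : ℝ) * (2 * (16 * (1 / (200 * (L : ℝ))) + 16 / 2 ^ ((L - 1) / 2))) ≤ 3 / 8 := by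
    obtain ⟨j, hj⟩ : ∃ j : ℕ, j = (L - 1) / 2 := ⟨_, rfl⟩
    rw [← hj]
    have hj20 : 20 ≤ j := by omega
    have h6 := Gs.two_pow_big j hj20
    have h7 : 1280 * L ≤ 2 ^ j := by omega
    have h8 : 1280 * (L : ℝ) ≤ 2 ^ j := by exact_mod_cast h7
    have h9 : (L : ℝ) * (2 * (16 * (1 / (200 * (L : ℝ))) + 16 / 2 ^ j)) =
        32 / 200 + 32 * L / 2 ^ j := by
      have : (L : ℝ) ≠ 0 := by linarith
      field_simp
      try ring
    rw [h9]
    have h10 : 32 * (L : ℝ) / 2 ^ j ≤ 1 / 40 := by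
      rw [div_le_div_iff₀ (by positivity) (by norm_num)]
      linarith
    linarith
  have h6 := h2.trans h5
  linarith

end Pool.Agent.N860.EU
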