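import Pool.Agent.N860.EU.Stm

/-!
# Project EU (helper860), leaf HEX: near the hexagonal lattice
-/

set_option autoImplicit false

namespace Pool.Agent.N860.EU

namespace Hex

lemma R_sq : R ^ 2 = 4 / 3 := by
  rw [R, div_pow, Real.sq_sqrt (by norm_num)]
  norm_num

lemma R_pos : 0 < R := by
  rw [R]
  positivity

lemma R_lt : R < 29 / 25 := by
  have h := R_sq
  have h0 := R_pos
  nlinarith

lemma lt_R : 23 / 20 < R := by
  have h := R_sq
  have h0 := R_pos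
  nlinarith

/-- the algebra -/
lemma alg (a b τ ν s P P' : ℝ) (hs : a + b = s) (hP : s * P = τ * ((a + 1 / 2) ^ 2 - 1) +
    ν * ((b - 1 / 2) ^ 2 - 1)) (hP' : s * P' = τ * ((a - 1 / 2) ^ 2 - 1) +
    ν * ((b + 1 / 2) ^ 2 - 1)) :
    ν * (s * (a * b - 3 / 4)) = a * (s * ((P + P') / 2)) - s * ((P - P') / 2) * (a ^ 2 - 3 / 4) := by
  have h1 : s * ((P + P') / 2) = τ * (a ^ 2 - 3 / 4) + ν * (b ^ 2 - 3 / 4) := by
    linear_combination (hP + hP') / 2
  have h2 : s * ((P - P') / 2) = τ * a - ν * b := by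
    linear_combination (hP - hP') / 2
  rw [h1, h2, ← hs]
  ring

/-- the final estimate -/
lemma fin (a b τ ν s P P' η W : ℝ) (hs : a + b = s) (hs0 : 0 < s) (hτ : 0 < τ) (hν : 0 < ν)
    (hτν : τ * ν = 1) (hW : s * W = τ + ν) (hW1 : W ≤ 5 / 4) (hη : η ≤ 1)
    (hP : s * P = τ * ((a + 1 / 2) ^ 2 - 1) + ν * ((b - 1 / 2) ^ 2 - 1))
    (hP' : s * P' = τ * ((a - 1 / 2) ^ 2 - 1) + ν * ((b + 1 / 2) ^ 2 - 1))
    (h1 : |P| ≤ η) (h2 : |P'| ≤ η) : |a * b - 3 / 4| ≤ 8 * s * η := by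
  have hη0 : 0 ≤ η := (abs_nonneg _).trans h1
  have h3 := alg a b τ ν s P P' hs hP hP'
  -- multiply with `τ`
  have h4 : s * (a * b - 3 / 4) = τ * (a * (s * ((P + P') / 2)) -
      s * ((P - P') / 2) * (a ^ 2 - 3 / 4)) := by
    rw [← h3, ← mul_assoc, hτν, one_mul]
  have h5 : a * b - 3 / 4 = τ * (a * ((P + P') / 2) - ((P - P') / 2) * (a ^ 2 - 3 / 4)) := by
    apply mul_left_cancel₀ hs0.ne'
    rw [h4]
    ring
  have hS : |(P + P') / 2| ≤ η := by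
    rw [abs_le] at h1 h2 ⊢
    constructor <;> linarith [h1.1, h1.2, h2.1, h2.2]
  have hD : |(P - P') / 2| ≤ η := by
    rw [abs_le] at h1 h2 ⊢
    constructor <;> linarith [h1.1, h1.2, h2.1, h2.2]
  have h6 : |a * ((P + P') / 2) - ((P - P') / 2) * (a ^ 2 - 3 / 4)| ≤ η * (2 * a ^ 2 + 2) := by
    have h7 : |a * ((P + P') / 2)| ≤ |a| * η := by
      rw [abs_mul]
      exact mul_le_mul_of_nonneg_left hS (abs_nonneg _)
    have h8 : |((P - P') / 2) * (a ^ 2 - 3 / 4)| ≤ η * (a ^ 2 + 1) := by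
      rw [abs_mul]
      apply mul_le_mul hD _ (abs_nonneg _) hη0
      rw [abs_le]
      constructor <;> nlinarith [sq_nonneg a]
    have h9 : |a| ≤ 1 + a ^ 2 := by
      rw [abs_le]
      constructor <;> nlinarith [sq_nonneg (a - 1), sq_nonneg (a + 1), sq_nonneg a]
    calc |a * ((P + P') / 2) - ((P - P') / 2) * (a ^ 2 - 3 / 4)|
        ≤ |a * ((P + P') / 2)| + |((P - P') / 2) * (a ^ 2 - 3 / 4)| := abs_sub _ _
      _ ≤ |a| * η + η * (a ^ 2 + 1) := add_le_add h7 h8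
      _ ≤ (1 + a ^ 2) * η + η * (a ^ 2 + 1) := by
          have := mul_le_mul_of_nonneg_right h9 hη0
          linarith
      _ = η * (2 * a ^ 2 + 2) := by ring
  have h10 : τ * a ^ 2 ≤ 2 * s := by
    have e1 : s * ((P + P') / 2) = τ * (a ^ 2 - 3 / 4) + ν * (b ^ 2 - 3 / 4) := by
      linear_combination (hP + hP') / 2
    have e2 : 0 ≤ ν * b ^ 2 := by positivity
    have e3 : s * ((P + P') / 2) ≤ s * 1 :=
      mul_le_mul_of_nonneg_left ((le_abs_self _).trans (hS.trans hη)) hs0.le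
    have e4 : s * W ≤ s * (5 / 4) := mul_le_mul_of_nonneg_left hW1 hs0.le
    nlinarith
  have h11 : τ ≤ 2 * s := by
    have e4 : s * W ≤ s * (5 / 4) := mul_le_mul_of_nonneg_left hW1 hs0.le
    linarith
  rw [h5, abs_mul, abs_of_pos hτ]
  calc τ * |a * ((P + P') / 2) - ((P - P') / 2) * (a ^ 2 - 3 / 4)|
      ≤ τ * (η * (2 * a ^ 2 + 2)) := mul_le_mul_of_nonneg_left h6 hτ.le
    _ = η * (2 * (τ * a ^ 2) + 2 * τ) := by ring
    _ ≤ η * (2 * (2 * s) + 2 * (2 * s)) := mul_le_mul_of_nonneg_left (by linarith) hη0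
    _ = 8 * s * η := by ring

/-- the estimates for the parameters of the shortest vectors -/
lemma par (W G δ : ℝ) (hδ0 : 0 < δ) (hδ : δ ≤ 1 / 100) (hW : R - δ < W) (hG0 : G ≤ 0) (hG1 : -W < G)
    (h1 : W ^ 2 ≤ 1 + G ^ 2) (h2 : W ^ 2 ≤ 1 + (G + W) ^ 2) :
    1 ≤ W ∧ W ≤ 5 / 4 ∧ |1 + G ^ 2 - W ^ 2| ≤ 7 * δ ∧ |1 + (G + W) ^ 2 - W ^ 2| ≤ 7 * δ := by
  have hR1 := R_lt
  have hR2 := lt_R
  have hR3 := R_sq
  have hW1 : 1 ≤ W := by linarith
  obtain ⟨e, he⟩ : ∃ e, e = G + W / 2 := ⟨_, rfl⟩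
  have hG : G = e - W / 2 := by linarith
  obtain ⟨d, hd⟩ : ∃ d, d = 1 - 3 * W ^ 2 / 4 := ⟨_, rfl⟩
  have he1 : e ≤ W / 2 := by linarith
  have he2 : -(W / 2) ≤ e := by linarith
  have k1 : e * (W - e) ≤ d := by
    rw [hG] at h1
    rw [hd]
    nlinarith
  have k2 : -e * (W + e) ≤ d := by
    rw [hG] at h2
    rw [hd]
    nlinarith
  have k3 : |e| * (W / 2) ≤ d := by
    rcases le_total 0 e with h | h
    · rw [abs_of_nonneg h]
      have := mul_le_mul_of_nonneg_left (show W / 2 ≤ W - e by linarith) h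
      linarith
    · rw [abs_of_nonpos h]
      have := mul_le_mul_of_nonneg_left (show W / 2 ≤ W + e by linarith) (show 0 ≤ -e by linarith)
      linarith
  have hd0 : 0 ≤ d := le_trans (by positivity) k3
  have hWR : W ≤ R := by
    have : W ^ 2 ≤ R ^ 2 := by rw [hR3]; linarith
    exact (pow_le_pow_iff_left₀ (by linarith) (by linarith) two_ne_zero).1 this
  have hW2 : W ≤ 5 / 4 := by linarith
  have hd1 : d ≤ 2 * δ := by
    have e1 : d = 3 / 4 * ((R - W) * (R + W)) := by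
      rw [hd]
      linear_combination (3 / 4) * (- hR3)
    have e2 : (R - W) * (R + W) ≤ δ * (58 / 25) :=
      mul_le_mul (by linarith) (by linarith) (by linarith) hδ0.le
    rw [e1]
    linarith
  have he3 : |e| ≤ 4 * δ := by
    have : |e| * (1 / 2) ≤ |e| * (W / 2) :=
      mul_le_mul_of_nonneg_left (by linarith) (abs_nonneg _)
    linarith
  have he4 : e ^ 2 ≤ δ / 5 := by
    have h5 : |e| ^ 2 ≤ (4 * δ) ^ 2 := pow_le_pow_left₀ (abs_nonneg _) he3 2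
    rw [sq_abs] at h5
    nlinarith
  have he5 : |e * W| ≤ 4 * δ * (29 / 25) := by
    rw [abs_mul, abs_of_nonneg (by linarith : 0 ≤ W)]
    exact mul_le_mul he3 (by linarith) (by linarith) (by linarith)
  obtain ⟨f1, f2⟩ := abs_le.1 he5
  have he6 : 0 ≤ e ^ 2 := sq_nonneg e
  refine ⟨hW1, hW2, ?_, ?_⟩
  · have e1 : 1 + G ^ 2 - W ^ 2 = d + e ^ 2 - e * W := by
      rw [hG, hd]
      ring
    rw [e1, abs_le]
    constructor <;> linarith
  · have e1 : 1 + (G + W) ^ 2 - W ^ 2 = d + e ^ 2 + e * W := by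
      rw [hG, hd]
      ring
    rw [e1, abs_le]
    constructor <;> linarith

end Hex

open Hex in
/-- HEX: near the hexagonal lattice -/
theorem hex : S_HEX := by
  intro ε S₀ hε hS
  have hδpos : 0 < min (1 / 100) (ε / (100 * (S₀ + 1))) := by
    apply lt_min (by norm_num)
    positivity
  refine ⟨min (1 / 100) (ε / (100 * (S₀ + 1))), hδpos, ?_⟩
  obtain ⟨δ, hδ⟩ : ∃ δ, δ = min (1 / 100) (ε / (100 * (S₀ + 1))) := ⟨_, rfl⟩
  rw [← hδ] at hδpos ⊢
  have hδ1 : δ ≤ 1 / 100 := by rw [hδ]; exact min_le_left _ _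
  have hδ2 : δ * (100 * (S₀ + 1)) ≤ ε := by
    rw [← le_div_iff₀ (by positivity), hδ]
    exact min_le_right _ _
  intro α β τ hα1 hαS hβ0 hβ1 hτ hj hmin
  by_contra hcon
  push Not at hcon
  obtain ⟨ν, hν⟩ : ∃ ν, ν = 1 / τ := ⟨_, rfl⟩
  have hτν : τ * ν = 1 := by rw [hν]; field_simp
  have hν0 : 0 < ν := by rw [hν]; positivity
  obtain ⟨s, hs⟩ : ∃ s, s = α + β := ⟨_, rfl⟩
  have hs0 : 0 < s := by rw [hs]; linarith
  have hs2 : s ≤ S₀ + 1 := by rw [hs]; linarith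
  have hNN : ∀ k l : ℤ, s * NN α β τ k l = τ * (k * α - l) ^ 2 + ν * (k * β + l) ^ 2 := by
    intro k l
    rw [NN, ← hs, hν]
    field_simp
  obtain ⟨W, hW⟩ : ∃ W, W = NN α β τ 0 1 := ⟨_, rfl⟩
  rw [← hW] at hcon
  have hsW : s * W = τ + ν := by
    rw [hW, hNN]
    push_cast
    ring
  have hW0 : 0 < W := by
    have : 0 < s * W := by rw [hsW]; positivity
    exact pos_of_mul_pos_right this hs0.le
  obtain ⟨g0, hg0⟩ : ∃ g0, s * g0 = -τ * α + ν * β := ⟨(-τ * α + ν * β) / s, by field_simp⟩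
  obtain ⟨j, hj1, hj2⟩ : ∃ j : ℤ, (j : ℝ) * W ≤ -g0 ∧ -g0 < (j + 1) * W := by
    refine ⟨⌊-g0 / W⌋, ?_, ?_⟩
    · have := Int.floor_le (-g0 / W)
      rwa [le_div_iff₀ hW0] at this
    · have := Int.lt_floor_add_one (-g0 / W)
      rwa [div_lt_iff₀ hW0] at this
  obtain ⟨G, hG⟩ : ∃ G, G = g0 + j * W := ⟨_, rfl⟩
  have hG0 : G ≤ 0 := by rw [hG]; linarith
  have hG1 : -W < G := by rw [hG]; linarith
  have hsG : s * G = -τ * (α - j) + ν * (β + j) := by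
    rw [hG]
    linear_combination hg0 + j * hsW
  obtain ⟨A, hA⟩ : ∃ A, A = NN α β τ 1 j := ⟨_, rfl⟩
  obtain ⟨B, hB⟩ : ∃ B, B = NN α β τ 1 (j + 1) := ⟨_, rfl⟩
  have hsA : s * A = τ * (α - j) ^ 2 + ν * (β + j) ^ 2 := by
    rw [hA, hNN]
    push_cast
    ring
  have hsB : s * B = τ * (α - j - 1) ^ 2 + ν * (β + j + 1) ^ 2 := by
    rw [hB, hNN]
    push_cast
    ring
  have hWA : W ≤ A := by
    rw [hW, hA]
    exact hmin 1 j (by simp)
  have hWB : W ≤ B := by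
    rw [hW, hB]
    exact hmin 1 (j + 1) (by simp)
  have hAW : A * W = 1 + G ^ 2 := by
    have h1 : s ^ 2 * (A * W) = s ^ 2 * (1 + G ^ 2) := by
      calc s ^ 2 * (A * W) = (s * A) * (s * W) := by ring
        _ = (s * G) ^ 2 + (τ * ν) * s ^ 2 := by
            rw [hsA, hsW, hsG, hs]
            ring
        _ = s ^ 2 * (1 + G ^ 2) := by rw [hτν]; ring
    exact mul_left_cancel₀ (pow_ne_zero 2 hs0.ne') h1
  have hBA : B = A + 2 * G + W := by
    apply mul_left_cancel₀ hs0.ne'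
    rw [hsB]
    linear_combination -hsA - 2 * hsG - hsW
  have hBW : B * W = 1 + (G + W) ^ 2 := by
    rw [hBA]
    linear_combination hAW
  have h1 : W ^ 2 ≤ 1 + G ^ 2 := by
    rw [← hAW, pow_two]
    exact mul_le_mul_of_nonneg_right hWA hW0.le
  have h2 : W ^ 2 ≤ 1 + (G + W) ^ 2 := by
    rw [← hBW, pow_two]
    exact mul_le_mul_of_nonneg_right hWB hW0.le
  obtain ⟨w1, w2, w3, w4⟩ := par W G δ hδpos hδ1 hcon hG0 hG1 h1 h2
  have hP1 : |A - W| ≤ 7 * δ := by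
    have e1 : (A - W) * W = 1 + G ^ 2 - W ^ 2 := by rw [← hAW]; ring
    rw [← e1, abs_mul, abs_of_pos hW0] at w3
    have := mul_le_mul_of_nonneg_left w1 (abs_nonneg (A - W))
    linarith
  have hP2 : |B - W| ≤ 7 * δ := by
    have e1 : (B - W) * W = 1 + (G + W) ^ 2 - W ^ 2 := by rw [← hBW]; ring
    rw [← e1, abs_mul, abs_of_pos hW0] at w4
    have := mul_le_mul_of_nonneg_left w1 (abs_nonneg (B - W))
    linarith
  have h3 := fin (α - j - 1 / 2) (β + j + 1 / 2) τ ν s (A - W) (B - W) (7 * δ) W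
    (by rw [hs]; ring) hs0 hτ hν0 hτν hsW w2 (by linarith)
    (by rw [mul_sub, hsA, hsW]; ring) (by rw [mul_sub, hsB, hsW]; ring) hP1 hP2
  have h4 := hj j
  have h5 : 8 * s * (7 * δ) < ε := by
    have e1 : s * δ ≤ (S₀ + 1) * δ := mul_le_mul_of_nonneg_right hs2 hδpos.le
    have e2 : 0 < (S₀ + 1) * δ := by positivity
    nlinarith
  linarith

end Pool.Agent.N860.EU
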