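import Mathlib

/-!
# Project EU: `MP_613544_nt` (Euclidean Dirichlet improvable, not badly approximable: dimension one)

A real number is given by its sequence `b 0, b 1, ...` of partial quotients, `x = [0; b 0, b 1, ...]`.
-/

set_option autoImplicit false

namespace Pool.Agent.N860.EU

open Finset

/-- the square of the critical radius, `2 / √3` -/
noncomputable def R : ℝ := 2 / Real.sqrt 3

/-- Euclidean Dirichlet improvable -/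
def DI2 : Set ℝ := {x : ℝ | ∃ c : ℝ, 0 < c ∧ c < 1 ∧ ∃ t₀ : ℝ, ∀ t : ℝ, t₀ ≤ t →
  ∃ p q : ℤ, (p, q) ≠ (0, 0) ∧ (t * (p + q * x) / c) ^ 2 + (q / t) ^ 2 ≤ R}

/-- badly approximable -/
def BA : Set ℝ := {x : ℝ | ∃ c : ℝ, 0 < c ∧ ∀ p q : ℤ, q ≠ 0 → c ≤ |q * x - p| * |(q : ℝ)|}

/-- `V b = [0; b 0, b 1, ...]` -/
structure IsV (V : (ℕ → ℕ) → ℝ) : Prop where
  pos : ∀ b : ℕ → ℕ, (∀ n, 1 ≤ b n) → 0 < V b ∧ V b < 1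
  step : ∀ b : ℕ → ℕ, (∀ n, 1 ≤ b n) → V b = 1 / ((b 0 : ℝ) + V (fun n => b (n + 1)))

/-- `ph [a₁, ..., aₙ] t = 1 / (a₁ + 1 / (a₂ + ... + 1 / (aₙ + t)))` -/
noncomputable def ph (w : List ℕ) (t : ℝ) : ℝ := w.foldr (fun a s => 1 / ((a : ℝ) + s)) t

/-- continuants: the denominator of `[0; a₁, ..., aₙ]` -/
def K : List ℕ → ℕ
  | [] => 1
  | [a] => a
  | a :: b :: l => a * K (b :: l) + K l

/-- `[0; 2, 2, 2, ...]` -/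
noncomputable def th : ℝ := Real.sqrt 2 - 1

/-- `bet b n = [0; b (n - 1), ..., b 0] = q (n - 1) / q n` -/
noncomputable def bet (b : ℕ → ℕ) : ℕ → ℝ
  | 0 => 0
  | (n + 1) => 1 / ((b n : ℝ) + bet b n)

/-- `alp V b n = [b n; b (n + 1), ...]` -/
noncomputable def alp (V : (ℕ → ℕ) → ℝ) (b : ℕ → ℕ) (n : ℕ) : ℝ :=
  (b n : ℝ) + V (fun m => b (n + 1 + m))

/-- the square of the norm of `k u + l w` -/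
noncomputable def NN (α β τ : ℝ) (k l : ℤ) : ℝ := (τ * (k * α - l) ^ 2 + (k * β + l) ^ 2 / τ) / (α + β)

/-- lists of length `L` with entries `1, ..., M` -/
def words : ℕ → ℕ → Finset (List ℕ)
  | 0, _ => {[]}
  | (L + 1), M => ((Icc 1 M) ×ˢ (words L M)).image (fun p => p.1 :: p.2)

theorem mem_words (L M : ℕ) (w : List ℕ) :
    w ∈ words L M ↔ w.length = L ∧ ∀ a ∈ w, 1 ≤ a ∧ a ≤ M := by
  induction L generalizing w with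
  | zero =>
    simp only [words, mem_singleton]
    constructor
    · rintro rfl; simp
    · exact fun h => List.length_eq_zero_iff.1 h.1
  | succ L ih =>
    simp only [words, mem_image, mem_product, mem_Icc, Prod.exists]
    constructor
    · rintro ⟨a, v, ⟨h1, h2⟩, rfl⟩
      rw [ih] at h2
      refine ⟨by simp [h2.1], ?_⟩
      intro x hx
      rcases List.mem_cons.1 hx with rfl | hx
      · exact h1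
      · exact h2.2 x hx
    · rintro ⟨h1, h2⟩
      cases w with
      | nil => simp at h1
      | cons a v =>
        refine ⟨a, v, ⟨h2 a (by simp), ?_⟩, rfl⟩
        rw [ih]
        exact ⟨by simpa using h1, fun x hx => h2 x (by simp [hx])⟩

/-! ## continued fractions -/

/-- VEX -/
def S_VEX : Prop := ∃ V : (ℕ → ℕ) → ℝ, IsV V

/-- KF: continuants -/
def S_KF : Prop :=
  (∀ w : List ℕ, (∀ a ∈ w, 1 ≤ a) → 1 ≤ K w) ∧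
  (∀ p v : List ℕ, (∀ a ∈ p, 1 ≤ a) → (∀ a ∈ v, 1 ≤ a) → K p * K v ≤ K (p ++ v) ∧ K (p ++ v) ≤ 2 * K p * K v) ∧
  (∀ w : List ℕ, K w.reverse = K w) ∧
  (∀ w : List ℕ, (∀ a ∈ w, 1 ≤ a) → 2 ^ w.length ≤ 2 * K w ^ 2) ∧
  (∀ (w : List ℕ) (M : ℕ), (∀ a ∈ w, 1 ≤ a ∧ a ≤ M) → K w ≤ (M + 1) ^ w.length) ∧
  (∀ r : ℕ, 2 ^ r ≤ K (List.replicate r 2) ∧ K (List.replicate r 2) ≤ 3 ^ r) ∧
  (∀ (w : List ℕ) (s t : ℝ), (∀ a ∈ w, 1 ≤ a) → 0 ≤ s → s ≤ 1 → 0 ≤ t → t ≤ 1 →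
    |s - t| / (4 * (K w : ℝ) ^ 2) ≤ |ph w s - ph w t| ∧ |ph w s - ph w t| ≤ |s - t| / (K w : ℝ) ^ 2)

/-! ## Part I: Dirichlet improvability -/

/-- LAT: a shortest vector of the lattice comes from a convergent -/
def S_LAT : Prop := ∀ V : (ℕ → ℕ) → ℝ, IsV V → ∀ b : ℕ → ℕ, (∀ n, 1 ≤ b n) → ∀ n₀ : ℕ,
  ∃ t₀ : ℝ, ∀ t : ℝ, t₀ ≤ t → ∃ n : ℕ, n₀ ≤ n ∧ ∃ τ : ℝ, 0 < τ ∧
    (∃ p q : ℤ, (p, q) ≠ (0, 0) ∧ (t * (p + q * V b)) ^ 2 + (q / t) ^ 2 = NN (alp V b n) (bet b n) τ 0 1) ∧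
    ∀ k l : ℤ, (k, l) ≠ (0, 0) → NN (alp V b n) (bet b n) τ 0 1 ≤ NN (alp V b n) (bet b n) τ k l

/-- HEX: near the hexagonal lattice -/
def S_HEX : Prop := ∀ ε S₀ : ℝ, 0 < ε → 0 < S₀ → ∃ δ : ℝ, 0 < δ ∧ ∀ α β τ : ℝ, 1 ≤ α → α ≤ S₀ →
  0 ≤ β → β ≤ 1 → 0 < τ → (∀ j : ℤ, ε ≤ |(α - j - 1 / 2) * (β + j + 1 / 2) - 3 / 4|) →
  (∀ k l : ℤ, (k, l) ≠ (0, 0) → NN α β τ 0 1 ≤ NN α β τ k l) → NN α β τ 0 1 ≤ R - δ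

/-- BIG: at a large partial quotient -/
def S_BIG : Prop := ∀ (α β τ : ℝ) (a : ℕ), 40 ≤ a → (a : ℝ) ≤ α → α - a ≤ 3 / 7 → 0 ≤ β → β ≤ 3 / 7 →
  0 < τ → NN α β τ 0 1 ≤ NN α β τ 1 0 → NN α β τ 0 1 ≤ NN α β τ 1 a → NN α β τ 0 1 ≤ R - 1 / 100

/-- the digits: at most `M`, or at least `40` and isolated between `2, 2` and `2, 2` -/
def Struct (M : ℕ) (b : ℕ → ℕ) : Prop := ∀ n : ℕ, 2 ≤ n → b n ≤ M ∨
  (40 ≤ b n ∧ b (n - 2) = 2 ∧ b (n - 1) = 2 ∧ b (n + 1) = 2 ∧ b (n + 2) = 2)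

/-- the margin at the digits `1` from `n₀` on -/
def M0 (V : (ℕ → ℕ) → ℝ) (ε : ℝ) (b : ℕ → ℕ) (n₀ : ℕ) : Prop := ∀ n : ℕ, n₀ ≤ n → b n = 1 →
  ε ≤ |(alp V b n - 1 / 2) * (bet b n + 1 / 2) - 3 / 4|

/-- MARG: the margins for all `j` -/
def S_MARG : Prop := ∀ V : (ℕ → ℕ) → ℝ, IsV V → ∀ (M : ℕ) (ε : ℝ), 2 ≤ M → 0 < ε → ∃ ε' : ℝ, 0 < ε' ∧
  ∀ (b : ℕ → ℕ) (n₀ : ℕ), (∀ n, 1 ≤ b n) → Struct M b → M0 V ε b n₀ → ∀ n : ℕ, n₀ + 4 ≤ n → b n ≤ M →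
    ∀ j : ℤ, ε' ≤ |(alp V b n - j - 1 / 2) * (bet b n + j + 1 / 2) - 3 / 4|

/-- DIA -/
def S_DIA : Prop := ∀ V : (ℕ → ℕ) → ℝ, IsV V → ∀ (M : ℕ) (ε : ℝ) (b : ℕ → ℕ) (n₀ : ℕ), 2 ≤ M → 0 < ε →
  (∀ n, 1 ≤ b n) → Struct M b → M0 V ε b n₀ → V b ∈ DI2

/-- NBA -/
def S_NBA : Prop := ∀ V : (ℕ → ℕ) → ℝ, IsV V → ∀ b : ℕ → ℕ, (∀ n, 1 ≤ b n) → (∀ m : ℕ, ∃ n, m ≤ b n) →
  V b ∉ BA

/-! ## Part II: many good words -/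

/-- `w` is good: margin `2 ε` at all digits `1`, if `w` is continued by `2, 2, 2, ...` on both sides -/
def Gd (ε : ℝ) (w : List ℕ) : Prop := ∀ p v : List ℕ, w = p ++ 1 :: v →
  2 * ε ≤ |(ph v th + 1 / 2) * (ph p.reverse th + 1 / 2) - 3 / 4|

/-- STAB -/
def S_STAB : Prop := ∀ V : (ℕ → ℕ) → ℝ, IsV V → ∀ (ε : ℝ) (r L : ℕ) (w : List ℕ), 0 < ε → 3 / 4 ^ r ≤ ε →
  w.length = L → (∀ a ∈ w, 1 ≤ a) → Gd ε w → ∀ (b : ℕ → ℕ) (m : ℕ), (∀ n, 1 ≤ b n) → r ≤ m →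
  (∀ i < r, b (m - 1 - i) = 2) → (∀ i < L, b (m + i) = w.getD i 0) → (∀ i < r, b (m + L + i) = 2) →
  ∀ n : ℕ, m ≤ n → n < m + L → b n = 1 → ε ≤ |(alp V b n - 1 / 2) * (bet b n + 1 / 2) - 3 / 4|

/-- INT: words whose value lies in an interval -/
def S_INT : Prop := ∀ (k : ℕ) (F : Finset (List ℕ)) (c d : ℝ), c ≤ d →
  (∀ v ∈ F, v.length = k ∧ (∀ a ∈ v, 1 ≤ a) ∧ c ≤ ph v th ∧ ph v th ≤ d) →
  ∑ v ∈ F, 1 / (K v : ℝ) ^ 2 ≤ 2 * (d - c) + 16 / 2 ^ k ∧ ∑ v ∈ F, 1 / (K v : ℝ) ^ 2 ≤ 2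

/-- LOW: all words -/
def S_LOW : Prop := ∀ L M : ℕ, 1 ≤ M → 1 - 2 * (L : ℝ) / (M + 1) ≤ ∑ w ∈ words L M, 1 / (K w : ℝ) ^ 2

open scoped Classical in
/-- GSUM: good words -/
def S_GSUM : Prop := ∃ L₀ : ℕ, ∀ L : ℕ, L₀ ≤ L →
  1 / 2 ≤ ∑ w ∈ (words L (16 * L)).filter (Gd (1 / (200 * (L : ℝ)))), 1 / (K w : ℝ) ^ 2

/-- SEL: many good words of nearly the same size -/
def S_SEL : Prop := ∀ s : ℝ, 0 < s → s < 1 → ∃ (L M r : ℕ) (ε : ℝ), 1 ≤ L ∧ 2 ≤ M ∧ 2 ≤ r ∧ 0 < ε ∧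
  3 / 4 ^ r ≤ ε ∧ ∃ (B : ℕ) (G : Fin B → List ℕ), 2 ≤ B ∧ Function.Injective G ∧
    (∀ i, G i ∈ words L M) ∧ (∀ i, Gd ε (G i)) ∧
    ∀ i, 2 * (16 * (K (List.replicate r 2) : ℝ) ^ 2 * (K (G i) : ℝ) ^ 2) ^ s ≤ B

/-! ## Part III: the Cantor set -/

/-- the block number `k` -/
def blk (r : ℕ) (N : ℕ → ℕ) {B : ℕ} (G : Fin B → List ℕ) (c : ℕ → Fin B) (k : ℕ) : List ℕ :=
  G (c k) ++ (List.replicate r 2 ++ (if N k = 0 then [] else N k :: List.replicate r 2))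

/-- the digits before the block number `k` -/
def Pk (r : ℕ) (N : ℕ → ℕ) {B : ℕ} (G : Fin B → List ℕ) (c : ℕ → Fin B) : ℕ → List ℕ
  | 0 => List.replicate r 2
  | (k + 1) => Pk r N G c k ++ blk r N G c k

/-- the sequence of digits -/
def sq (r : ℕ) (N : ℕ → ℕ) {B : ℕ} (G : Fin B → List ℕ) (c : ℕ → Fin B) (n : ℕ) : ℕ :=
  (Pk r N G c (n + 1)).getD n 1

/-- SEQ: the structure of the sequence -/
def S_SEQ : Prop := ∀ (r L M : ℕ) (N : ℕ → ℕ) (B : ℕ) (G : Fin B → List ℕ), 2 ≤ r → 1 ≤ L → 2 ≤ M →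
  (∀ k, N k = 0 ∨ 40 ≤ N k) → (∀ m, ∃ k, m ≤ N k) → (∀ i, G i ∈ words L M) → ∀ c : ℕ → Fin B,
  (∀ n, 1 ≤ sq r N G c n) ∧ Struct M (sq r N G c) ∧
  (∀ n, sq r N G c n = 1 → ∃ k m : ℕ, m ≤ n ∧ n < m + L ∧ r ≤ m ∧ (∀ i < r, sq r N G c (m - 1 - i) = 2) ∧
    (∀ i < L, sq r N G c (m + i) = (G (c k)).getD i 0) ∧ (∀ i < r, sq r N G c (m + L + i) = 2)) ∧
  (∀ m, ∃ n, m ≤ sq r N G c n) ∧
  (∀ k, (∀ i < (Pk r N G c k).length, sq r N G c i = (Pk r N G c k).getD i 0) ∧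
    (∀ i < L, sq r N G c ((Pk r N G c k).length + i) = (G (c k)).getD i 0) ∧
    (∀ i < r, sq r N G c ((Pk r N G c k).length + L + i) = 2)) ∧
  (∀ (c' : ℕ → Fin B) (k : ℕ), (∀ i < k, c i = c' i) → Pk r N G c k = Pk r N G c' k) ∧
  (∀ k, ∀ a ∈ Pk r N G c k, 1 ≤ a)

/-- KPK: the size of the prefix -/
def S_KPK : Prop := ∀ (r L M : ℕ) (N : ℕ → ℕ) (B : ℕ) (G : Fin B → List ℕ), (∀ i, G i ∈ words L M) →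
  ∀ (c : ℕ → Fin B) (k : ℕ), (K (Pk r N G c k) : ℝ) ^ 2 ≤ (K (List.replicate r 2) : ℝ) ^ 2 *
    ∏ i ∈ range k, ((16 * (K (List.replicate r 2) : ℝ) ^ 2 * (K (G (c i)) : ℝ) ^ 2) *
      (if N i = 0 then 1 else 16 * (K (List.replicate r 2) : ℝ) ^ 2 * (N i : ℝ) ^ 2))

/-- GAP: different words give distant numbers -/
def S_GAP : Prop := ∀ M L : ℕ, 2 ≤ M → ∃ κ : ℝ, 0 < κ ∧ ∀ V : (ℕ → ℕ) → ℝ, IsV V →
  ∀ (P w w' : List ℕ) (b b' : ℕ → ℕ), (∀ a ∈ P, 1 ≤ a) → w ∈ words L M → w' ∈ words L M → w ≠ w' →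
  (∀ n, 1 ≤ b n) → (∀ n, 1 ≤ b' n) →
  (∀ i < P.length, b i = P.getD i 0) → (∀ i < P.length, b' i = P.getD i 0) →
  (∀ i < L, b (P.length + i) = w.getD i 0) → (∀ i < L, b' (P.length + i) = w'.getD i 0) →
  (∀ i < 2, b (P.length + L + i) = 2) → (∀ i < 2, b' (P.length + L + i) = 2) →
  κ / (K P : ℝ) ^ 2 ≤ |V b - V b'|

/-- INS: sparse insertions -/
def S_INS : Prop := ∀ D : ℝ, 1 ≤ D → ∃ N : ℕ → ℕ, (∀ k, N k = 0 ∨ 40 ≤ N k) ∧ (∀ m, ∃ k, m ≤ N k) ∧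
  ∃ C : ℝ, 1 ≤ C ∧ ∀ k : ℕ, ∏ i ∈ range k, (if N i = 0 then 1 else D * (N i : ℝ) ^ 2) ≤ C * 2 ^ k

/-- HOL: a lower bound of the Hausdorff dimension -/
def S_HOL : Prop := ∀ (B : ℕ) (s C : ℝ) (x : (ℕ → Fin B) → ℝ), 2 ≤ B → 0 < s → s ≤ 1 → 0 < C →
  (∀ (c c' : ℕ → Fin B) (k : ℕ), (∀ i < k, c i = c' i) → c k ≠ c' k →
    1 / (B : ℝ) ^ k ≤ C * |x c - x c'| ^ s) → ENNReal.ofReal s ≤ dimH (Set.range x)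

/-- FIN -/
def S_FIN : Prop := dimH (DI2 \ BA) = 1

end Pool.Agent.N860.EU
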