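import Mathlib
import Pool.Agent.N860.EU.Stm

/-!
# Project EU: a lower bound of the Hausdorff dimension (`S_HOL`)
-/

set_option autoImplicit false

namespace Pool.Agent.N860.EU

open scoped ENNReal NNReal

/-- the first place where two different sequences differ -/
lemma exists_first {α : Type*} {c c' : ℕ → α} (h : c ≠ c') :
    ∃ k : ℕ, (∀ i < k, c i = c' i) ∧ c k ≠ c' k := by
  classical
  have h1 : ∃ k, c k ≠ c' k := by
    by_contra hcon
    push Not at hcon
    exact h (funext hcon)
  refine ⟨Nat.find h1, fun i hi => ?_, Nat.find_spec h1⟩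
  by_contra hne
  exact Nat.find_min h1 hi hne

theorem hol : S_HOL := by
  intro B s C x hB hs0 hs1 hC hx
  have hBz : NeZero B := ⟨by omega⟩
  have hB0 : (0 : ℝ) < B := by
    have : 0 < B := by omega
    exact_mod_cast this
  have hinj : Function.Injective x := by
    intro c c' hcc
    by_contra hne
    obtain ⟨k, hk1, hk2⟩ := exists_first hne
    have h1 := hx c c' k hk1 hk2
    rw [hcc, sub_self, abs_zero, Real.zero_rpow hs0.ne', mul_zero] at h1
    have h2 : (0 : ℝ) < 1 / (B : ℝ) ^ k := by positivity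
    linarith
  -- the distance of the numbers with given digits
  have hdist : ∀ c c' : ℕ → Fin B, |Real.ofDigits c - Real.ofDigits c'| ≤ C * |x c - x c'| ^ s := by
    intro c c'
    by_cases hne : c = c'
    · subst hne
      rw [sub_self, abs_zero]
      positivity
    · obtain ⟨k, hk1, hk2⟩ := exists_first hne
      refine le_trans ?_ (hx c c' k hk1 hk2)
      have h3 := Real.abs_ofDigits_sub_ofDigits_le (x := c) (y := c') (n := k) hk1
      rw [one_div]
      exact h3
  have hne : Nonempty (ℕ → Fin B) := ⟨fun _ => 0⟩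
  set f : ℝ → ℝ := fun t => Real.ofDigits (Function.invFun x t) with hf
  have hfx : ∀ c, f (x c) = Real.ofDigits c := by
    intro c
    simp only [hf]
    rw [Function.leftInverse_invFun hinj c]
  have hH : HolderOnWith C.toNNReal s.toNNReal f (Set.range x) := by
    rintro _ ⟨c, rfl⟩ _ ⟨c', rfl⟩
    rw [hfx, hfx, edist_dist, edist_dist, Real.dist_eq, Real.dist_eq,
      Real.coe_toNNReal s hs0.le, ENNReal.ofReal_rpow_of_nonneg (abs_nonneg _) hs0.le]
    show _ ≤ ENNReal.ofReal C * _
    rw [← ENNReal.ofReal_mul hC.le]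
    exact ENNReal.ofReal_le_ofReal (hdist c c')
  have hsN : 0 < s.toNNReal := Real.toNNReal_pos.2 hs0
  have h1 := hH.dimH_image_le hsN
  have h2 : Set.Icc (0 : ℝ) 1 ⊆ f '' Set.range x := by
    intro t ht
    obtain ⟨c, -, hc⟩ := Real.ofDigits_SurjOn (b := B) (by omega) ht
    exact ⟨x c, ⟨c, rfl⟩, by rw [hfx, hc]⟩
  have h3 : dimH (Set.Icc (0 : ℝ) 1) = 1 := by
    have h := Real.dimH_of_nonempty_interior (s := Set.Icc (0 : ℝ) 1)
      (by rw [interior_Icc]; exact ⟨1 / 2, by norm_num, by norm_num⟩)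
    simpa using h
  have h4 : (1 : ℝ≥0∞) ≤ dimH (Set.range x) / (s.toNNReal : ℝ≥0∞) := by
    calc (1 : ℝ≥0∞) = dimH (Set.Icc (0 : ℝ) 1) := h3.symm
      _ ≤ dimH (f '' Set.range x) := dimH_mono h2
      _ ≤ _ := h1
  rw [ENNReal.le_div_iff_mul_le (Or.inl (by exact_mod_cast hsN.ne')) (Or.inl ENNReal.coe_ne_top),
    one_mul] at h4
  exact h4

end Pool.Agent.N860.EU
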