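import Pool.Agent.N860.EU.Stm

/-!
Project EU (helper860): sparse insertions (helper954).
-/

set_option autoImplicit false

namespace Pool.Agent.N860.EU

open Finset Filter Asymptotics

/-- the exponential beats the square -/
theorem ins_large (D : ℝ) (hD : 1 ≤ D) : ∃ j₀ : ℕ, 1 ≤ j₀ ∧ ∀ m : ℕ, j₀ ≤ m →
    2 * (D * ((40 + m : ℕ) : ℝ) ^ 2) ≤ 4 ^ m := by
  have h1 : (fun n : ℕ => ((n : ℝ)) ^ 2) =o[atTop] (fun n : ℕ => (4 : ℝ) ^ n) :=
    isLittleO_pow_const_const_pow_of_one_lt 2 (by norm_num)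
  have hc : (0 : ℝ) < 1 / (2 * D * 4 ^ 40) := by positivity
  have h2 := (isLittleO_iff.1 h1) hc
  obtain ⟨n₀, hn₀⟩ := eventually_atTop.1 h2
  refine ⟨n₀ + 1, by omega, fun m hm => ?_⟩
  have h3 := hn₀ (40 + m) (by omega)
  rw [Real.norm_eq_abs, Real.norm_eq_abs, abs_of_nonneg (by positivity),
    abs_of_nonneg (by positivity), pow_add] at h3
  have hD0 : (0 : ℝ) < 2 * D := by linarith
  have h4 := mul_le_mul_of_nonneg_left h3 hD0.le
  have h5 : 2 * D * (1 / (2 * D * 4 ^ 40) * ((4 : ℝ) ^ 40 * 4 ^ m)) = 4 ^ m := by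
    field_simp
  rw [h5] at h4
  linarith

theorem ins : S_INS := by
  intro D hD
  obtain ⟨j₀, hj₀, hlarge⟩ := ins_large D hD
  refine ⟨fun k => if Nat.sqrt k * Nat.sqrt k = k ∧ j₀ ≤ Nat.sqrt k then 40 + Nat.sqrt k else 0,
    ?_, ?_, 1, le_rfl, ?_⟩
  · intro k
    dsimp only
    split_ifs
    · exact Or.inr (by omega)
    · exact Or.inl rfl
  · intro m
    refine ⟨(m + j₀) * (m + j₀), ?_⟩
    have h1 : Nat.sqrt ((m + j₀) * (m + j₀)) = m + j₀ := Nat.sqrt_eq _
    dsimp only
    rw [h1, if_pos ⟨rfl, by omega⟩]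
    omega
  · -- the stronger bound
    have key : ∀ k : ℕ, ∏ i ∈ range k, (if (if Nat.sqrt i * Nat.sqrt i = i ∧ j₀ ≤ Nat.sqrt i then
        40 + Nat.sqrt i else 0) = 0 then (1 : ℝ) else D * (((if Nat.sqrt i * Nat.sqrt i = i ∧
        j₀ ≤ Nat.sqrt i then 40 + Nat.sqrt i else 0 : ℕ)) : ℝ) ^ 2) ≤
        2 ^ (if k = 0 then 0 else Nat.sqrt (k - 1) * Nat.sqrt (k - 1)) := by
      intro k
      induction k with
      | zero => simp
      | succ k ih =>
        rw [prod_range_succ]
        have hE : (if k + 1 = 0 then 0 else Nat.sqrt (k + 1 - 1) * Nat.sqrt (k + 1 - 1)) =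
            Nat.sqrt k * Nat.sqrt k := by simp
        rw [hE]
        by_cases hs : Nat.sqrt k * Nat.sqrt k = k ∧ j₀ ≤ Nat.sqrt k
        · rw [if_pos hs, if_neg (by omega)]
          obtain ⟨h1, h2⟩ := hs
          set m := Nat.sqrt k with hm
          have hm1 : 1 ≤ m := hj₀.trans h2
          have hk0 : k ≠ 0 := by
            rintro rfl
            simp at hm
            omega
          rw [if_neg hk0] at ih
          have h3 : Nat.sqrt (k - 1) ≤ m - 1 := by
            rw [Nat.le_iff_lt_add_one, Nat.sqrt_lt, Nat.sub_add_cancel hm1, h1]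
            omega
          have h4 : Nat.sqrt (k - 1) * Nat.sqrt (k - 1) ≤ (m - 1) * (m - 1) :=
            Nat.mul_le_mul h3 h3
          have h5 := ih.trans (pow_le_pow_right₀ (by norm_num : (1 : ℝ) ≤ 2) h4)
          have h6 := hlarge m h2
          have h7 : (0 : ℝ) ≤ D * ((40 + m : ℕ) : ℝ) ^ 2 := by positivity
          have h8 : D * ((40 + m : ℕ) : ℝ) ^ 2 ≤ 2 ^ (2 * m - 1) := by
            have e : (4 : ℝ) ^ m = 2 * 2 ^ (2 * m - 1) := by
              rw [← pow_succ', Nat.sub_add_cancel (by omega), pow_mul]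
              norm_num
            rw [e] at h6
            linarith
          refine (mul_le_mul h5 h8 h7 (by positivity)).trans ?_
          rw [← pow_add]
          apply le_of_eq
          congr 1
          obtain ⟨j, hj⟩ : ∃ j, m = j + 1 := ⟨m - 1, by omega⟩
          have h10 : m - 1 = j := by omega
          have h9 : 2 * m - 1 = 2 * j + 1 := by omega
          rw [h9, h10, hj]
          ring
        · rw [if_neg hs, if_pos rfl, mul_one]
          refine ih.trans (pow_le_pow_right₀ (by norm_num) ?_)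
          split_ifs with hk
          · exact Nat.zero_le _
          · have h3 : Nat.sqrt (k - 1) ≤ Nat.sqrt k := Nat.sqrt_le_sqrt (by omega)
            exact Nat.mul_le_mul h3 h3
    intro k
    refine (key k).trans ?_
    rw [one_mul]
    refine pow_le_pow_right₀ (by norm_num) ?_
    split_ifs with hk
    · exact Nat.zero_le _
    · exact (Nat.sqrt_le (k - 1)).trans (by omega)

end Pool.Agent.N860.EU
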