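import Mathlib
import Pool.Agent.N860.EU.Stm

/-!
# Project EU, part INT (helper218): words with value in an interval
-/

set_option autoImplicit false

namespace Pool.Agent.N860.EU

namespace IntAux

open Finset MeasureTheory

/-- the entries of the matrix of a word -/
def T : List ℕ → (ℕ × ℕ) × (ℕ × ℕ)
  | [] => ((0, 1), (1, 0))
  | a :: v => ((T v).2, (a * (T v).2.1 + (T v).1.1, a * (T v).2.2 + (T v).1.2))

theorem T_K : ∀ v : List ℕ, (T v).2.1 = K v
  | [] => rfl
  | [a] => by simp [T, K]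
  | a :: b :: l => by
    have h1 := T_K (b :: l)
    have h2 := T_K l
    show a * (T (b :: l)).2.1 + (T l).2.1 = a * K (b :: l) + K l
    rw [h1, h2]

theorem T_pos : ∀ v : List ℕ, (∀ a ∈ v, 1 ≤ a) → 1 ≤ (T v).2.1 ∧ (T v).2.2 ≤ (T v).2.1 ∧
    (T v).1.2 + (T v).2.2 ≤ (T v).1.1 + (T v).2.1 := by
  intro v
  induction v with
  | nil => intro _; simp [T]
  | cons a v ih =>
    intro h
    obtain ⟨h1, h2, h3⟩ := ih fun x hx => h x (List.mem_cons_of_mem a hx)
    have ha : 1 ≤ a := h a (by simp)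
    obtain ⟨c, rfl⟩ := Nat.exists_eq_add_of_le ha
    have h4 : c * (T v).2.2 ≤ c * (T v).2.1 := Nat.mul_le_mul_left c h2
    simp only [T]
    refine ⟨?_, ?_, ?_⟩ <;> nlinarith

/-- the endpoints of the interval of a word -/
noncomputable def J : List ℕ → ℝ × ℝ
  | [] => (0, 1)
  | a :: v => (1 / ((a : ℝ) + (J v).2), 1 / ((a : ℝ) + (J v).1))

theorem J_bd : ∀ v : List ℕ, (∀ a ∈ v, 1 ≤ a) → 0 ≤ (J v).1 ∧ (J v).1 < (J v).2 ∧ (J v).2 ≤ 1 := by
  intro v
  induction v with
  | nil => intro _; simp [J]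
  | cons a v ih =>
    intro h
    obtain ⟨h1, h2, h3⟩ := ih fun x hx => h x (List.mem_cons_of_mem a hx)
    have ha : (1 : ℝ) ≤ a := by exact_mod_cast h a (by simp)
    simp only [J]
    refine ⟨?_, ?_, ?_⟩
    · exact div_nonneg zero_le_one (by linarith)
    · exact one_div_lt_one_div_of_lt (by linarith) (by linarith)
    · rw [div_le_one (by linarith)]
      linarith

theorem th_bd : 0 < th ∧ th < 1 := by
  have h1 : (1 : ℝ) < Real.sqrt 2 := by
    rw [Real.lt_sqrt (by norm_num)]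
    norm_num
  have h2 : Real.sqrt 2 < 2 := by
    rw [Real.sqrt_lt' (by norm_num)]
    norm_num
  unfold th
  constructor <;> linarith

theorem J_mem : ∀ v : List ℕ, (∀ a ∈ v, 1 ≤ a) → (J v).1 < ph v th ∧ ph v th < (J v).2 := by
  intro v
  induction v with
  | nil => intro _; exact th_bd
  | cons a v ih =>
    intro h
    have h' : ∀ x ∈ v, 1 ≤ x := fun x hx => h x (List.mem_cons_of_mem a hx)
    obtain ⟨h1, h2⟩ := ih h'
    obtain ⟨h3, h4, h5⟩ := J_bd v h'
    have ha : (1 : ℝ) ≤ a := by exact_mod_cast h a (by simp)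
    show 1 / ((a : ℝ) + (J v).2) < 1 / ((a : ℝ) + ph v th) ∧
      1 / ((a : ℝ) + ph v th) < 1 / ((a : ℝ) + (J v).1)
    exact ⟨one_div_lt_one_div_of_lt (by linarith) (by linarith),
      one_div_lt_one_div_of_lt (by linarith) (by linarith)⟩

theorem J_inj : ∀ v w : List ℕ, (∀ a ∈ v, 1 ≤ a) → (∀ a ∈ w, 1 ≤ a) → v.length = w.length →
    ∀ x : ℝ, (J v).1 < x → x < (J v).2 → (J w).1 < x → x < (J w).2 → v = w := by
  intro v
  induction v with
  | nil =>
    intro w _ _ hl x _ _ _ _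
    exact (List.length_eq_zero_iff.1 hl.symm).symm
  | cons a v ih =>
    intro w hv hw hl x h1 h2 h3 h4
    cases w with
    | nil => simp at hl
    | cons b w =>
      have hv' : ∀ x ∈ v, 1 ≤ x := fun x hx => hv x (List.mem_cons_of_mem a hx)
      have hw' : ∀ x ∈ w, 1 ≤ x := fun x hx => hw x (List.mem_cons_of_mem b hx)
      have hl' : v.length = w.length := by simpa using hl
      obtain ⟨v1, v2, v3⟩ := J_bd v hv'
      obtain ⟨w1, w2, w3⟩ := J_bd w hw'
      have ha : (1 : ℝ) ≤ a := by exact_mod_cast hv a (by simp)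
      have hb : (1 : ℝ) ≤ b := by exact_mod_cast hw b (by simp)
      simp only [J] at h1 h2 h3 h4
      have hx : 0 < x := lt_trans (one_div_pos.2 (by linarith)) h1
      have e1 : 1 / x < (a : ℝ) + (J v).2 := by
        rw [div_lt_iff₀ hx]
        rw [div_lt_iff₀ (by linarith)] at h1
        linarith
      have e2 : (a : ℝ) + (J v).1 < 1 / x := by
        rw [lt_div_iff₀ hx]
        rw [lt_div_iff₀ (by linarith)] at h2
        linarith
      have e3 : 1 / x < (b : ℝ) + (J w).2 := by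
        rw [div_lt_iff₀ hx]
        rw [div_lt_iff₀ (by linarith)] at h3
        linarith
      have e4 : (b : ℝ) + (J w).1 < 1 / x := by
        rw [lt_div_iff₀ hx]
        rw [lt_div_iff₀ (by linarith)] at h4
        linarith
      have f1 : (a : ℝ) < b + 1 := by linarith
      have f2 : (b : ℝ) < a + 1 := by linarith
      have f3 : a < b + 1 := by exact_mod_cast f1
      have f4 : b < a + 1 := by exact_mod_cast f2
      have hab : a = b := by omega
      subst hab
      rw [ih w hv' hw' hl' (1 / x - a) (by linarith) (by linarith) (by linarith) (by linarith)]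

theorem J_eq : ∀ v : List ℕ, (∀ a ∈ v, 1 ≤ a) →
    (((J v).1 = ((T v).1.1 : ℝ) / (T v).2.1 ∧
      (J v).2 = (((T v).1.1 : ℝ) + (T v).1.2) / ((T v).2.1 + (T v).2.2)) ∨
    ((J v).2 = ((T v).1.1 : ℝ) / (T v).2.1 ∧
      (J v).1 = (((T v).1.1 : ℝ) + (T v).1.2) / ((T v).2.1 + (T v).2.2))) ∧
    (J v).2 - (J v).1 = 1 / ((T v).2.1 * (((T v).2.1 : ℝ) + (T v).2.2)) := by
  intro v
  induction v with
  | nil => intro _; simp [J, T]
  | cons a v ih =>
    intro h
    have h' : ∀ x ∈ v, 1 ≤ x := fun x hx => h x (List.mem_cons_of_mem a hx)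
    obtain ⟨h1, h2⟩ := ih h'
    obtain ⟨b1, b2, b3⟩ := J_bd v h'
    obtain ⟨t1, t2, t3⟩ := T_pos v h'
    have ha : (1 : ℝ) ≤ a := by exact_mod_cast h a (by simp)
    simp only [J, T]
    set lo := (J v).1
    set hi := (J v).2
    set p := (T v).1.1
    set p' := (T v).1.2
    set q := (T v).2.1
    set q' := (T v).2.2
    have hq : (1 : ℝ) ≤ q := by exact_mod_cast t1
    have hq' : (0 : ℝ) ≤ q' := Nat.cast_nonneg _
    have hp : (0 : ℝ) ≤ p := Nat.cast_nonneg _
    have hp' : (0 : ℝ) ≤ p' := Nat.cast_nonneg _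
    have hN : (0 : ℝ) < a * q + p := by positivity
    have hN' : (0 : ℝ) ≤ a * q' + p' := by positivity
    push_cast
    have k1 : (a : ℝ) + (p : ℝ) / q = (a * q + p) / q := by field_simp
    have k2 : (a : ℝ) + ((p : ℝ) + p') / (q + q') = (a * q + p + (a * q' + p')) / (q + q') := by
      field_simp
      ring
    have hd : 1 / ((a : ℝ) + lo) - 1 / ((a : ℝ) + hi) = (hi - lo) / (((a : ℝ) + lo) * (a + hi)) := by
      have : (a : ℝ) + lo ≠ 0 := by linarith
      have : (a : ℝ) + hi ≠ 0 := by linarith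
      field_simp
      ring
    have hprod : ((a : ℝ) + lo) * (a + hi) =
        ((a * q + p) * (a * q + p + (a * q' + p'))) / (q * (q + q')) := by
      rcases h1 with ⟨e1, e2⟩ | ⟨e1, e2⟩
      · rw [e1, e2, k1, k2]
        field_simp
      · rw [e1, e2, k1, k2]
        field_simp
    refine ⟨?_, ?_⟩
    · rcases h1 with ⟨e1, e2⟩ | ⟨e1, e2⟩
      · right
        rw [e1, e2, k1, k2, one_div_div, one_div_div]
        exact ⟨rfl, rfl⟩
      · left
        rw [e1, e2, k1, k2, one_div_div, one_div_div]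
        exact ⟨rfl, rfl⟩
    · rw [hd, h2, hprod]
      field_simp

theorem J_len (v : List ℕ) (h : ∀ a ∈ v, 1 ≤ a) :
    1 / (K v : ℝ) ^ 2 ≤ 2 * ((J v).2 - (J v).1) ∧ (J v).2 - (J v).1 ≤ 1 / (K v : ℝ) ^ 2 := by
  obtain ⟨t1, t2, t3⟩ := T_pos v h
  rw [(J_eq v h).2, ← T_K]
  have hq : (1 : ℝ) ≤ (T v).2.1 := by exact_mod_cast t1
  have hq' : (0 : ℝ) ≤ (T v).2.2 := Nat.cast_nonneg _
  have hq2 : ((T v).2.2 : ℝ) ≤ (T v).2.1 := by exact_mod_cast t2
  set q : ℝ := ((T v).2.1 : ℝ)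
  set q' : ℝ := ((T v).2.2 : ℝ)
  constructor
  · rw [mul_one_div, div_le_div_iff₀ (by positivity) (by positivity)]
    nlinarith
  · exact one_div_le_one_div_of_le (by positivity) (by nlinarith)

theorem K_mono (b : ℕ) (l : List ℕ) (hb : 1 ≤ b) : K l ≤ K (b :: l) := by
  cases l with
  | nil => simpa [K] using hb
  | cons c l =>
    show K (c :: l) ≤ b * K (c :: l) + K l
    nlinarith [Nat.zero_le (K (c :: l)), Nat.zero_le (K l), Nat.mul_le_mul_right (K (c :: l)) hb]

theorem K_big : ∀ v : List ℕ, (∀ a ∈ v, 1 ≤ a) → 2 ^ v.length ≤ 2 * K v ^ 2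
  | [], _ => by simp [K]
  | [a], h => by
    have ha : 1 ≤ a := h a (by simp)
    simp only [List.length_cons, List.length_nil, K]
    have : 1 ≤ a ^ 2 := Nat.one_le_pow _ _ ha
    norm_num
    omega
  | a :: b :: l, h => by
    have ha : 1 ≤ a := h a (by simp)
    have hb : 1 ≤ b := h b (by simp)
    have ih := K_big l fun x hx => h x (List.mem_cons_of_mem a (List.mem_cons_of_mem b hx))
    have h1 := K_mono b l hb
    have h2 : 2 * K l ≤ K (a :: b :: l) := by
      show 2 * K l ≤ a * K (b :: l) + K l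
      nlinarith [Nat.mul_le_mul_right (K (b :: l)) ha]
    have h3 : (2 * K l) ^ 2 ≤ K (a :: b :: l) ^ 2 := Nat.pow_le_pow_left h2 2
    simp only [List.length_cons, pow_succ] at ih h3 ⊢
    nlinarith

/-- disjoint intervals in an interval -/
theorem sum_len (k : ℕ) (F : Finset (List ℕ)) (A B : ℝ) (hAB : A ≤ B)
    (hF : ∀ v ∈ F, v.length = k ∧ (∀ a ∈ v, 1 ≤ a) ∧ A ≤ (J v).1 ∧ (J v).2 ≤ B) :
    ∑ v ∈ F, ((J v).2 - (J v).1) ≤ B - A := by
  have hdisj : (F : Set (List ℕ)).PairwiseDisjoint fun v => Set.Ioo (J v).1 (J v).2 := by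
    intro v hv w hw hvw
    refine Set.disjoint_left.2 fun x hx hx' => hvw ?_
    obtain ⟨l1, p1, -, -⟩ := hF v hv
    obtain ⟨l2, p2, -, -⟩ := hF w hw
    exact J_inj v w p1 p2 (l1.trans l2.symm) x hx.1 hx.2 hx'.1 hx'.2
  have h1 : volume (⋃ v ∈ F, Set.Ioo (J v).1 (J v).2) =
      ∑ v ∈ F, volume (Set.Ioo (J v).1 (J v).2) :=
    measure_biUnion_finset hdisj fun v _ => measurableSet_Ioo
  have h2 : volume (⋃ v ∈ F, Set.Ioo (J v).1 (J v).2) ≤ volume (Set.Icc A B) := by
    refine measure_mono (Set.iUnion₂_subset fun v hv x hx => ?_)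
    obtain ⟨-, -, a1, a2⟩ := hF v hv
    exact ⟨a1.trans hx.1.le, hx.2.le.trans a2⟩
  rw [h1, Real.volume_Icc] at h2
  have h3 : ∑ v ∈ F, volume (Set.Ioo (J v).1 (J v).2) =
      ENNReal.ofReal (∑ v ∈ F, ((J v).2 - (J v).1)) := by
    rw [ENNReal.ofReal_sum_of_nonneg]
    · refine Finset.sum_congr rfl fun v _ => ?_
      rw [Real.volume_Ioo]
    · intro v hv
      obtain ⟨-, p1, -, -⟩ := hF v hv
      linarith [(J_bd v p1).2.1]
  rw [h3] at h2
  exact (ENNReal.ofReal_le_ofReal_iff (by linarith)).1 h2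

end IntAux

open IntAux Finset

theorem int : S_INT := by
  intro k F c d hcd hF
  constructor
  · set h : ℝ := 2 / 2 ^ k with hh
    have hh0 : 0 < h := by positivity
    have hlen : ∀ v ∈ F, (J v).2 - (J v).1 ≤ h := by
      intro v hv
      obtain ⟨l1, p1, -, -⟩ := hF v hv
      refine (J_len v p1).2.trans ?_
      have h1 : ((2 : ℝ)) ^ k ≤ 2 * (K v : ℝ) ^ 2 := by
        have := K_big v p1
        rw [l1] at this
        exact_mod_cast this
      have h2 : (0 : ℝ) < 2 ^ k := by positivity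
      have h3 : (0 : ℝ) < (K v : ℝ) ^ 2 := by linarith
      rw [hh, div_le_div_iff₀ h3 h2]
      linarith
    have h1 := sum_len k F (c - h) (d + h) (by linarith) (by
      intro v hv
      obtain ⟨l1, p1, c1, d1⟩ := hF v hv
      have := J_mem v p1
      have := hlen v hv
      exact ⟨l1, p1, by linarith, by linarith⟩)
    have h2 : ∑ v ∈ F, 1 / (K v : ℝ) ^ 2 ≤ ∑ v ∈ F, 2 * ((J v).2 - (J v).1) :=
      Finset.sum_le_sum fun v hv => (J_len v (hF v hv).2.1).1
    rw [← Finset.mul_sum] at h2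
    have h3 : 16 / (2 : ℝ) ^ k = 8 * h := by rw [hh]; ring
    rw [h3]
    linarith
  · have h1 := sum_len k F 0 1 zero_le_one (by
      intro v hv
      obtain ⟨l1, p1, -, -⟩ := hF v hv
      have := J_bd v p1
      exact ⟨l1, p1, this.1, this.2.2⟩)
    have h2 : ∑ v ∈ F, 1 / (K v : ℝ) ^ 2 ≤ ∑ v ∈ F, 2 * ((J v).2 - (J v).1) :=
      Finset.sum_le_sum fun v hv => (J_len v (hF v hv).2.1).1
    rw [← Finset.mul_sum] at h2
    linarith

end Pool.Agent.N860.EU
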