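import Pool.Agent.N860.EU.Stm

/-!
# EU/KPK: the size of the prefix
-/

set_option autoImplicit false

namespace Pool.Agent.N860.EU

open Finset

theorem kpk_two (r : ℕ) : ∀ a ∈ List.replicate r 2, 1 ≤ a := fun a ha => by
  rw [List.eq_of_mem_replicate ha]; norm_num

theorem kpk_blk (r : ℕ) (N : ℕ → ℕ) {B : ℕ} (G : Fin B → List ℕ) (hw : ∀ i, ∀ a ∈ G i, 1 ≤ a)
    (c : ℕ → Fin B) (k : ℕ) : ∀ a ∈ blk r N G c k, 1 ≤ a := by
  intro a ha
  unfold blk at ha
  rw [List.mem_append, List.mem_append] at ha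
  rcases ha with ha | ha | ha
  · exact hw _ a ha
  · exact kpk_two r a ha
  · split_ifs at ha with h
    · simp at ha
    · rcases List.mem_cons.1 ha with rfl | ha
      · omega
      · exact kpk_two r a ha

theorem kpk_pre (r : ℕ) (N : ℕ → ℕ) {B : ℕ} (G : Fin B → List ℕ) (hw : ∀ i, ∀ a ∈ G i, 1 ≤ a)
    (c : ℕ → Fin B) (k : ℕ) : ∀ a ∈ Pk r N G c k, 1 ≤ a := by
  induction k with
  | zero => exact kpk_two r
  | succ k ih =>
    intro a ha
    rw [Pk, List.mem_append] at ha
    rcases ha with ha | ha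
    · exact ih a ha
    · exact kpk_blk r N G hw c k a ha

theorem kpk_K (hK : S_KF) (r : ℕ) (N : ℕ → ℕ) {B : ℕ} (G : Fin B → List ℕ)
    (hw : ∀ i, ∀ a ∈ G i, 1 ≤ a) (c : ℕ → Fin B) (k : ℕ) :
    K (blk r N G c k) ≤ 2 * K (G (c k)) * K (List.replicate r 2) *
      (if N k = 0 then 1 else 4 * N k * K (List.replicate r 2)) := by
  have h2 := kpk_two r
  unfold blk
  by_cases h : N k = 0
  · simp only [h, if_true, List.append_nil, mul_one]
    exact (hK.2.1 (G (c k)) (List.replicate r 2) (hw _) h2).2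
  · simp only [h, if_false]
    have h3 : ∀ a ∈ [N k], 1 ≤ a := by
      intro a ha
      rw [List.mem_singleton] at ha
      omega
    have h4 : ∀ a ∈ [N k] ++ List.replicate r 2, 1 ≤ a := by
      intro a ha
      rcases List.mem_append.1 ha with ha | ha
      · exact h3 a ha
      · exact h2 a ha
    have e1 := (hK.2.1 [N k] (List.replicate r 2) h3 h2).2
    have e2 := (hK.2.1 (List.replicate r 2) ([N k] ++ List.replicate r 2) h2 h4).2
    have h5 : ∀ a ∈ List.replicate r 2 ++ ([N k] ++ List.replicate r 2), 1 ≤ a := by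
      intro a ha
      rcases List.mem_append.1 ha with ha | ha
      · exact h2 a ha
      · exact h4 a ha
    have e3 := (hK.2.1 (G (c k)) (List.replicate r 2 ++ ([N k] ++ List.replicate r 2)) (hw _) h5).2
    have e4 : K [N k] = N k := rfl
    rw [e4] at e1
    have e5 : (N k :: List.replicate r 2) = [N k] ++ List.replicate r 2 := rfl
    rw [e5]
    calc K (G (c k) ++ (List.replicate r 2 ++ ([N k] ++ List.replicate r 2)))
        ≤ 2 * K (G (c k)) * K (List.replicate r 2 ++ ([N k] ++ List.replicate r 2)) := e3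
      _ ≤ 2 * K (G (c k)) * (2 * K (List.replicate r 2) * (2 * N k * K (List.replicate r 2))) :=
          Nat.mul_le_mul_left _ (e2.trans (Nat.mul_le_mul_left _ e1))
      _ = 2 * K (G (c k)) * K (List.replicate r 2) * (4 * N k * K (List.replicate r 2)) := by ring

/-- KPK: the size of the prefix -/
theorem kpk (hK : S_KF) : S_KPK := by
  intro r L M N B G hG c k
  have hw : ∀ i, ∀ a ∈ G i, 1 ≤ a := fun i a ha => (((mem_words L M (G i)).1 (hG i)).2 a ha).1
  induction k with
  | zero => simp [Pk]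
  | succ k ih =>
    rw [prod_range_succ, ← mul_assoc]
    have e1 : K (Pk r N G c (k + 1)) ≤ 2 * K (Pk r N G c k) * K (blk r N G c k) :=
      (hK.2.1 _ _ (kpk_pre r N G hw c k) (kpk_blk r N G hw c k)).2
    have e2 := e1.trans (Nat.mul_le_mul_left (2 * K (Pk r N G c k)) (kpk_K hK r N G hw c k))
    have e3 : (K (Pk r N G c (k + 1)) : ℝ) ≤ 2 * K (Pk r N G c k) *
        (2 * K (G (c k)) * K (List.replicate r 2) *
          (if N k = 0 then 1 else 4 * (N k : ℝ) * (K (List.replicate r 2) : ℝ))) := by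
      have := (Nat.cast_le (α := ℝ)).2 e2
      push_cast at this
      exact this
    have e4 : (K (Pk r N G c (k + 1)) : ℝ) ^ 2 ≤ (2 * K (Pk r N G c k) *
        (2 * K (G (c k)) * K (List.replicate r 2) *
          (if N k = 0 then 1 else 4 * (N k : ℝ) * (K (List.replicate r 2) : ℝ)))) ^ 2 :=
      pow_le_pow_left₀ (Nat.cast_nonneg _) e3 2
    refine e4.trans ?_
    have e5 : (2 * (K (Pk r N G c k) : ℝ) * (2 * K (G (c k)) * K (List.replicate r 2) *
          (if N k = 0 then 1 else 4 * (N k : ℝ) * (K (List.replicate r 2) : ℝ)))) ^ 2 =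
        (K (Pk r N G c k) : ℝ) ^ 2 * ((16 * (K (List.replicate r 2) : ℝ) ^ 2 * (K (G (c k)) : ℝ) ^ 2) *
          (if N k = 0 then 1 else 16 * (K (List.replicate r 2) : ℝ) ^ 2 * (N k : ℝ) ^ 2)) := by
      split_ifs <;> ring
    rw [e5]
    refine mul_le_mul_of_nonneg_right ih ?_
    split_ifs <;> positivity

end Pool.Agent.N860.EU

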