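import Pool.Agent.N860.EU.Stm

/-!
# Project EU, part LAT: a shortest vector of the lattice comes from a convergent
-/

set_option autoImplicit false

namespace Pool.Agent.N860.EU

open Finset

namespace LatAux

/-- `(q n, q (n - 1))` -/
def Qf (b : ℕ → ℕ) : ℕ → ℤ × ℤ
  | 0 => (1, 0)
  | (n + 1) => ((b n : ℤ) * (Qf b n).1 + (Qf b n).2, (Qf b n).1)

/-- `(p n, p (n - 1))` -/
def Pf (b : ℕ → ℕ) : ℕ → ℤ × ℤ
  | 0 => (0, 1)
  | (n + 1) => ((b n : ℤ) * (Pf b n).1 + (Pf b n).2, (Pf b n).1)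

variable {b : ℕ → ℕ}

lemma det (b : ℕ → ℕ) (n : ℕ) :
    (Pf b n).2 * (Qf b n).1 - (Pf b n).1 * (Qf b n).2 = (-1) ^ n := by
  induction n with
  | zero => simp [Pf, Qf]
  | succ n ih =>
    simp only [Pf, Qf]
    rw [pow_succ, ← ih]
    ring

lemma q_pos (hb : ∀ n, 1 ≤ b n) (n : ℕ) : 1 ≤ (Qf b n).1 ∧ 0 ≤ (Qf b n).2 := by
  induction n with
  | zero => simp [Qf]
  | succ n ih =>
    simp only [Qf]
    have : (1 : ℤ) ≤ b n := by exact_mod_cast hb n
    constructor
    · nlinarith [ih.1, ih.2]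
    · linarith [ih.1]

lemma q_mono (hb : ∀ n, 1 ≤ b n) (n : ℕ) : (Qf b n).1 ≤ (Qf b (n + 1)).1 := by
  have h := q_pos hb n
  have : (1 : ℤ) ≤ b n := by exact_mod_cast hb n
  simp only [Qf]
  nlinarith [h.1, h.2]

lemma q_mono' (hb : ∀ n, 1 ≤ b n) {m n : ℕ} (h : m ≤ n) : (Qf b m).1 ≤ (Qf b n).1 :=
  monotone_nat_of_le_succ (f := fun n => (Qf b n).1) (q_mono hb) h

lemma q_growth (hb : ∀ n, 1 ≤ b n) (n : ℕ) : (n : ℤ) ≤ (Qf b n).1 := by
  have h : ∀ n : ℕ, ((n + 1 : ℕ) : ℤ) ≤ (Qf b (n + 1)).1 := by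
    intro n
    induction n with
    | zero =>
      have := (q_pos hb 1).1
      simpa using this
    | succ n ih =>
      have h1 : (Qf b (n + 1 + 1)).1 = (b (n + 1) : ℤ) * (Qf b (n + 1)).1 + (Qf b n).1 := rfl
      rw [h1]
      have h2 := (q_pos hb (n + 1)).1
      have h3 := (q_pos hb n).1
      have h4 : (1 : ℤ) ≤ b (n + 1) := by exact_mod_cast hb (n + 1)
      push_cast at ih ⊢
      nlinarith
  rcases n with _ | n
  · simp [Qf]
  · exact h n

lemma exists_between (hb : ∀ n, 1 ≤ b n) {y : ℝ} (hy : 1 ≤ y) :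
    ∃ m : ℕ, ((Qf b m).1 : ℝ) ≤ y ∧ y < ((Qf b (m + 1)).1 : ℝ) := by
  classical
  have hex : ∃ m : ℕ, y < ((Qf b m).1 : ℝ) := by
    obtain ⟨n, hn⟩ := exists_nat_gt y
    refine ⟨n, hn.trans_le ?_⟩
    exact_mod_cast q_growth hb n
  have h1 := Nat.find_spec hex
  have h2 : Nat.find hex ≠ 0 := by
    intro h
    rw [h] at h1
    simp only [Qf, Int.cast_one] at h1
    linarith
  obtain ⟨m, hm⟩ := Nat.exists_eq_succ_of_ne_zero h2
  refine ⟨m, ?_, ?_⟩
  · have := Nat.find_min hex (m := m) (by omega)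
    exact not_lt.1 this
  · rw [hm] at h1
    exact h1

variable {V : (ℕ → ℕ) → ℝ}

/-- the remainders -/
def T (V : (ℕ → ℕ) → ℝ) (b : ℕ → ℕ) (n : ℕ) : ℝ := V (fun m => b (n + m))

lemma T_pos (hV : IsV V) (hb : ∀ n, 1 ≤ b n) (n : ℕ) : 0 < T V b n ∧ T V b n < 1 :=
  hV.pos _ fun m => hb (n + m)

lemma T_step (hV : IsV V) (hb : ∀ n, 1 ≤ b n) (n : ℕ) : T V b n = 1 / ((b n : ℝ) + T V b (n + 1)) := by
  have h := hV.step (fun m => b (n + m)) fun m => hb (n + m)
  have e : (fun m => b (n + 1 + m)) = fun m => b (n + (m + 1)) := by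
    funext m
    congr 1
    omega
  unfold T
  rw [e]
  exact h

lemma T_zero (V : (ℕ → ℕ) → ℝ) (b : ℕ → ℕ) : T V b 0 = V b := by
  unfold T
  congr 1
  funext m
  rw [Nat.zero_add]

lemma alp_eq (V : (ℕ → ℕ) → ℝ) (b : ℕ → ℕ) (n : ℕ) : alp V b n = (b n : ℝ) + T V b (n + 1) := rfl

lemma alp_T (hV : IsV V) (hb : ∀ n, 1 ≤ b n) (n : ℕ) : alp V b n * T V b n = 1 := by
  have h := T_pos hV hb (n + 1)
  have h2 : (1 : ℝ) ≤ b n := by exact_mod_cast hb n
  have hne : (b n : ℝ) + T V b (n + 1) ≠ 0 := ne_of_gt (by linarith [h.1])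
  rw [alp_eq, T_step hV hb n, mul_one_div, div_self hne]

/-- `q n x - p n` -/
def e (V : (ℕ → ℕ) → ℝ) (b : ℕ → ℕ) (n : ℕ) : ℝ := (Qf b n).1 * V b - (Pf b n).1

/-- `q (n - 1) x - p (n - 1)` -/
def e' (V : (ℕ → ℕ) → ℝ) (b : ℕ → ℕ) (n : ℕ) : ℝ := (Qf b n).2 * V b - (Pf b n).2

lemma e_rec (V : (ℕ → ℕ) → ℝ) (b : ℕ → ℕ) (n : ℕ) : e V b (n + 1) = b n * e V b n + e' V b n := by
  unfold e e'
  simp only [Qf, Pf]
  push_cast
  ring

lemma e_rel (hV : IsV V) (hb : ∀ n, 1 ≤ b n) (n : ℕ) : e' V b n = -(alp V b n * e V b n) := by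
  induction n with
  | zero =>
    have h := alp_T hV hb 0
    rw [T_zero] at h
    unfold e e'
    simp only [Qf, Pf, Int.cast_zero, Int.cast_one, zero_mul, one_mul, sub_zero]
    linarith
  | succ n ih =>
    have h1 : e' V b (n + 1) = e V b n := rfl
    have h2 := e_rec V b n
    have h3 := alp_T hV hb (n + 1)
    have h4 := alp_eq V b n
    have h5 : e V b (n + 1) = -(T V b (n + 1) * e V b n) := by
      rw [h2, ih, h4]
      ring
    rw [h1, h5]
    calc e V b n = (alp V b (n + 1) * T V b (n + 1)) * e V b n := by rw [h3, one_mul]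
      _ = _ := by ring

lemma e_succ (hV : IsV V) (hb : ∀ n, 1 ≤ b n) (n : ℕ) : e V b (n + 1) = -(T V b (n + 1) * e V b n) := by
  rw [e_rec, e_rel hV hb n, alp_eq]
  ring

lemma key1 (hV : IsV V) (hb : ∀ n, 1 ≤ b n) (n : ℕ) :
    e V b n * ((Qf b n).1 * alp V b n + (Qf b n).2) = (-1) ^ n := by
  have h1 : e' V b n * (Qf b n).1 - e V b n * (Qf b n).2 =
      -(((Pf b n).2 : ℝ) * (Qf b n).1 - (Pf b n).1 * (Qf b n).2) := by
    unfold e e'
    ring
  have h2 : ((Pf b n).2 : ℝ) * (Qf b n).1 - (Pf b n).1 * (Qf b n).2 = (-1) ^ n := by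
    exact_mod_cast det b n
  rw [h2, e_rel hV hb n] at h1
  linarith

lemma den_eq (V : (ℕ → ℕ) → ℝ) (b : ℕ → ℕ) (n : ℕ) : ((Qf b n).1 : ℝ) * alp V b n + (Qf b n).2 =
    (Qf b (n + 1)).1 + (Qf b n).1 * T V b (n + 1) := by
  rw [alp_eq]
  simp only [Qf]
  push_cast
  ring

lemma qr_pos (hb : ∀ n, 1 ≤ b n) (n : ℕ) : (1 : ℝ) ≤ (Qf b n).1 ∧ (0 : ℝ) ≤ (Qf b n).2 := by
  have := q_pos hb n
  exact ⟨by exact_mod_cast this.1, by exact_mod_cast this.2⟩

lemma abs_key (hV : IsV V) (hb : ∀ n, 1 ≤ b n) (n : ℕ) :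
    |e V b n| * ((Qf b n).1 * alp V b n + (Qf b n).2) = 1 := by
  have h1 := congrArg abs (key1 hV hb n)
  rw [abs_mul, abs_pow, abs_neg, abs_one, one_pow] at h1
  have h2 : 0 ≤ ((Qf b n).1 : ℝ) * alp V b n + (Qf b n).2 := by
    rw [den_eq]
    have h3 := (qr_pos hb (n + 1)).1
    have h4 := (qr_pos hb n).1
    have h5 := (T_pos hV hb (n + 1)).1
    have : 0 ≤ ((Qf b n).1 : ℝ) * T V b (n + 1) := by
      apply mul_nonneg <;> linarith
    linarith
  rwa [abs_of_nonneg h2] at h1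

lemma A_pos (hV : IsV V) (hb : ∀ n, 1 ≤ b n) (n : ℕ) : 0 < |e V b n| := by
  rw [abs_pos]
  intro h
  have := abs_key hV hb n
  rw [h, abs_zero, zero_mul] at this
  exact zero_ne_one this

lemma A_anti (hV : IsV V) (hb : ∀ n, 1 ≤ b n) {m n : ℕ} (h : m ≤ n) : |e V b n| ≤ |e V b m| := by
  have h1 : Antitone fun n => |e V b n| := by
    apply antitone_nat_of_succ_le
    intro n
    rw [e_succ hV hb n, abs_neg, abs_mul]
    have h2 := T_pos hV hb (n + 1)
    rw [abs_of_pos h2.1]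
    have h3 := abs_nonneg (e V b n)
    nlinarith [h2.2]
  exact h1 h

lemma A_le (hV : IsV V) (hb : ∀ n, 1 ≤ b n) (n : ℕ) : |e V b n| * (Qf b (n + 1)).1 ≤ 1 := by
  have h := abs_key hV hb n
  rw [den_eq] at h
  have h4 := (qr_pos hb n).1
  have h5 := (T_pos hV hb (n + 1)).1
  have h6 : 0 ≤ |e V b n| * (((Qf b n).1 : ℝ) * T V b (n + 1)) := by
    apply mul_nonneg (abs_nonneg _)
    apply mul_nonneg <;> linarith
  nlinarith

lemma bet_eq (hb : ∀ n, 1 ≤ b n) (n : ℕ) : bet b n = (Qf b n).2 / (Qf b n).1 := by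
  induction n with
  | zero => simp [bet, Qf]
  | succ n ih =>
    have h := (qr_pos hb n).1
    have h0 : ((Qf b n).1 : ℝ) ≠ 0 := by linarith
    have h1 := (qr_pos hb (n + 1)).1
    simp only [Qf] at h1
    push_cast at h1
    simp only [bet, Qf]
    rw [ih]
    push_cast
    have h2 : (b n : ℝ) + (Qf b n).2 / (Qf b n).1 = (b n * (Qf b n).1 + (Qf b n).2) / (Qf b n).1 := by
      field_simp
    rw [h2, one_div_div]

/-- the square of the norm of a convergent -/
noncomputable def F (V : (ℕ → ℕ) → ℝ) (b : ℕ → ℕ) (t : ℝ) (n : ℕ) : ℝ :=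
  (t * e V b n) ^ 2 + ((Qf b n).1 / t) ^ 2

lemma F_le_two (hV : IsV V) (hb : ∀ n, 1 ≤ b n) {t : ℝ} (ht : 1 ≤ t) : ∃ m, F V b t m ≤ 2 := by
  obtain ⟨m, h1, h2⟩ := exists_between hb ht
  refine ⟨m, ?_⟩
  have h3 := A_le hV hb m
  have h4 : t * |e V b m| ≤ 1 := by
    have := mul_le_mul_of_nonneg_left h2.le (abs_nonneg (e V b m))
    linarith
  have h5 : (t * e V b m) ^ 2 ≤ 1 := by
    rw [mul_pow, ← sq_abs (e V b m), ← mul_pow]
    apply pow_le_one₀ _ h4
    have := abs_nonneg (e V b m)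
    positivity
  have h6 : ((Qf b m).1 / t : ℝ) ^ 2 ≤ 1 := by
    have h7 := (qr_pos hb m).1
    apply pow_le_one₀
    · apply div_nonneg <;> linarith
    · rw [div_le_one (by linarith)]
      exact h1
  unfold F
  linarith

/-- the coordinates with respect to the basis of two successive convergents -/
lemma coords (V : (ℕ → ℕ) → ℝ) (b : ℕ → ℕ) (n : ℕ) (p q : ℤ) : ∃ k l : ℤ,
    q = k * (Qf b n).2 + l * (Qf b n).1 ∧ (p : ℝ) + q * V b = k * e' V b n + l * e V b n := by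
  have hd := det b n
  have hs : ((-1 : ℤ) ^ n) * (-1) ^ n = 1 := by
    rw [← mul_pow]
    norm_num
  refine ⟨-(-1) ^ n * (p * (Qf b n).1 + (Pf b n).1 * q), (-1) ^ n * ((Pf b n).2 * q + p * (Qf b n).2), ?_, ?_⟩
  · have : -(-1) ^ n * (p * (Qf b n).1 + (Pf b n).1 * q) * (Qf b n).2 +
        (-1) ^ n * ((Pf b n).2 * q + p * (Qf b n).2) * (Qf b n).1 =
        (-1) ^ n * ((Pf b n).2 * (Qf b n).1 - (Pf b n).1 * (Qf b n).2) * q := by ring
    rw [this, hd, hs, one_mul]
  · have hd' : ((Pf b n).2 : ℝ) * (Qf b n).1 - (Pf b n).1 * (Qf b n).2 = (-1) ^ n := by exact_mod_cast hd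
    have hs' : ((-1 : ℝ) ^ n) * (-1) ^ n = 1 := by exact_mod_cast hs
    unfold e e'
    push_cast
    have : -(-1 : ℝ) ^ n * (p * (Qf b n).1 + (Pf b n).1 * q) * ((Qf b n).2 * V b - (Pf b n).2) +
        (-1) ^ n * ((Pf b n).2 * q + p * (Qf b n).2) * ((Qf b n).1 * V b - (Pf b n).1) =
        (-1) ^ n * ((Pf b n).2 * (Qf b n).1 - (Pf b n).1 * (Qf b n).2) * (p + q * V b) := by ring
    rw [this, hd', hs', one_mul]

lemma lower_pos (hV : IsV V) (hb : ∀ n, 1 ≤ b n) {t : ℝ} (ht : 0 < t) {p q : ℤ} (hq : 1 ≤ q) :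
    ∃ m, F V b t m ≤ (t * (p + q * V b)) ^ 2 + (q / t) ^ 2 := by
  have hqr : (1 : ℝ) ≤ q := by exact_mod_cast hq
  obtain ⟨m, h1, h2⟩ := exists_between hb hqr
  have h1' : (Qf b m).1 ≤ q := by exact_mod_cast h1
  have h2' : q < (Qf b (m + 1)).1 := by exact_mod_cast h2
  obtain ⟨k, l, h3, h4⟩ := coords V b (m + 1) p q
  have h5 : (Qf b (m + 1)).2 = (Qf b m).1 := rfl
  have h6 : e' V b (m + 1) = e V b m := rfl
  rw [h5] at h3
  rw [h6, e_succ hV hb m] at h4
  have hq0 := (q_pos hb m).1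
  have hq1 := (q_pos hb (m + 1)).1
  have hk : k ≠ 0 := by
    intro h
    rw [h, zero_mul, zero_add] at h3
    rcases lt_trichotomy l 0 with h7 | h7 | h7
    · nlinarith
    · rw [h7] at h3
      omega
    · nlinarith
  have hkl : k * l ≤ 0 := by
    by_contra hc
    push Not at hc
    rcases lt_or_gt_of_ne hk with h7 | h7
    · have h8 : l < 0 := by
        by_contra h9
        push Not at h9
        nlinarith
      nlinarith
    · have h8 : 0 < l := by
        by_contra h9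
        push Not at h9
        nlinarith
      nlinarith
  refine ⟨m, ?_⟩
  have hT := T_pos hV hb (m + 1)
  have h7 : (p : ℝ) + q * V b = (k - l * T V b (m + 1)) * e V b m := by
    rw [h4]
    ring
  have h8 : 1 ≤ ((k : ℝ) - l * T V b (m + 1)) ^ 2 := by
    have h9 : (k : ℝ) * l ≤ 0 := by exact_mod_cast hkl
    have h10 : (1 : ℝ) ≤ (k : ℝ) ^ 2 := by
      have h11 : 1 ≤ k ^ 2 := by
        have := sq_nonneg k
        rcases lt_or_gt_of_ne hk with h | h <;> nlinarith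
      exact_mod_cast h11
    have h12 : 0 ≤ ((l : ℝ) * T V b (m + 1)) ^ 2 := sq_nonneg _
    have h13 : ((k : ℝ) * l) * T V b (m + 1) ≤ 0 := mul_nonpos_of_nonpos_of_nonneg h9 hT.1.le
    nlinarith
  unfold F
  apply add_le_add
  · rw [h7, mul_pow, mul_pow, mul_pow]
    have h9 : 0 ≤ t ^ 2 * e V b m ^ 2 := by positivity
    nlinarith
  · apply pow_le_pow_left₀
    · have := (qr_pos hb m).1
      apply div_nonneg <;> linarith
    · exact div_le_div_of_nonneg_right h1 ht.le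

lemma lower (hV : IsV V) (hb : ∀ n, 1 ≤ b n) {t : ℝ} (ht : 2 ≤ t) {p q : ℤ} (hpq : (p, q) ≠ (0, 0)) :
    ∃ m, F V b t m ≤ (t * (p + q * V b)) ^ 2 + (q / t) ^ 2 := by
  rcases lt_trichotomy q 0 with h | h | h
  · obtain ⟨m, hm⟩ := lower_pos hV hb (show 0 < t by linarith) (p := -p) (q := -q) (by omega)
    refine ⟨m, hm.trans (le_of_eq ?_)⟩
    push_cast
    ring
  · obtain ⟨m, hm⟩ := F_le_two hV hb (show 1 ≤ t by linarith)
    refine ⟨m, hm.trans ?_⟩
    have hp : p ≠ 0 := by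
      rintro rfl
      exact hpq (by rw [h])
    have h1 : (1 : ℝ) ≤ (p : ℝ) ^ 2 := by
      have h11 : 1 ≤ p ^ 2 := by
        rcases lt_or_gt_of_ne hp with h | h <;> nlinarith
      exact_mod_cast h11
    rw [h]
    simp only [Int.cast_zero, zero_mul, add_zero, zero_div]
    rw [mul_pow]
    nlinarith
  · exact lower_pos hV hb (show 0 < t by linarith) h

end LatAux

open LatAux

theorem lat : S_LAT := by
  intro V hV b hb n₀
  refine ⟨max 2 (2 / |e V b n₀|), fun t ht => ?_⟩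
  have ht2 : 2 ≤ t := (le_max_left _ _).trans ht
  have ht0 : 0 < t := by linarith
  have hA0 := A_pos hV hb n₀
  have htA : 2 ≤ t * |e V b n₀| := by
    have := (le_max_right _ _).trans ht
    rwa [div_le_iff₀ hA0] at this
  -- the minimum
  obtain ⟨m, hm⟩ := F_le_two hV hb (show 1 ≤ t by linarith)
  obtain ⟨M, hM⟩ := exists_nat_gt (2 * t)
  have hbig : ∀ j, M ≤ j → 2 < F V b t j := by
    intro j hj
    have h1 : (M : ℝ) ≤ (Qf b j).1 := by
      have h2 : (M : ℤ) ≤ (Qf b j).1 := by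
        have := q_growth hb j
        omega
      exact_mod_cast h2
    have h3 : 2 ≤ ((Qf b j).1 : ℝ) / t := by
      rw [le_div_iff₀ ht0]
      linarith
    have h4 := sq_nonneg (t * e V b j)
    unfold F
    nlinarith
  have hmM : m < M := by
    by_contra h
    push Not at h
    have := hbig m h
    linarith
  obtain ⟨n, hnM, hn⟩ := Finset.exists_min_image (range M) (F V b t) ⟨m, mem_range.2 hmM⟩
  have hmin : ∀ j, F V b t n ≤ F V b t j := by
    intro j
    rcases Nat.lt_or_ge j M with h | h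
    · exact hn j (mem_range.2 h)
    · have h1 := hn m (mem_range.2 hmM)
      have h2 := hbig j h
      linarith
  have hn0 : n₀ ≤ n := by
    by_contra h
    push Not at h
    have h1 := A_anti hV hb h.le
    have h2 : 2 ≤ t * |e V b n| := htA.trans (mul_le_mul_of_nonneg_left h1 ht0.le)
    have h3 : 4 ≤ (t * e V b n) ^ 2 := by
      rw [mul_pow, ← sq_abs (e V b n), ← mul_pow]
      nlinarith
    have h4 := hmin m
    have h5 := sq_nonneg (((Qf b n).1 : ℝ) / t)
    unfold F at h4 hm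
    linarith
  -- the form
  have hq := (qr_pos hb n).1
  have hq0 : ((Qf b n).1 : ℝ) ≠ 0 := by linarith
  have hbet := bet_eq hb n
  have hkey := abs_key hV hb n
  have hAn := A_pos hV hb n
  obtain ⟨A, hA⟩ : ∃ A : ℝ, A = |e V b n| := ⟨_, rfl⟩
  obtain ⟨D, hD⟩ : ∃ D : ℝ, D = alp V b n + bet b n := ⟨_, rfl⟩
  rw [← hA] at hkey hAn
  have hkey2 : A * ((Qf b n).1 * D) = 1 := by
    rw [hD, hbet, mul_add, mul_div_cancel₀ _ hq0]
    exact hkey
  have hD0 : 0 < D := by
    have h1 : 0 < A * (Qf b n).1 := by apply mul_pos hAn; linarith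
    have h2 : (A * (Qf b n).1) * D = 1 := by linarith
    by_contra hc
    push Not at hc
    nlinarith
  refine ⟨n, hn0, t ^ 2 * A ^ 2 * D, by positivity, ?_, ?_⟩
  all_goals
    have hNN : ∀ k l : ℤ, NN (alp V b n) (bet b n) (t ^ 2 * A ^ 2 * D) k l =
        (t * (k * e' V b n + l * e V b n)) ^ 2 + ((k * (Qf b n).2 + l * (Qf b n).1) / t) ^ 2 := by
      intro k l
      have h1 : ((k : ℝ) * (Qf b n).2 + l * (Qf b n).1) = (k * bet b n + l) * (Qf b n).1 := by
        rw [hbet]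
        field_simp
      have h2 : (k : ℝ) * e' V b n + l * e V b n = -((k * alp V b n - l) * e V b n) := by
        rw [e_rel hV hb n]
        ring
      have h3 : e V b n ^ 2 = A ^ 2 := by rw [hA, sq_abs]
      have h4 : ((Qf b n).1 : ℝ) = 1 / (A * D) := by
        have hAD : A * D ≠ 0 := by positivity
        rw [eq_div_iff hAD]
        linarith
      rw [h1, h2, mul_pow t, neg_sq, mul_pow (_ - _), h3, h4]
      unfold NN
      rw [← hD]
      field_simp
  · refine ⟨-(Pf b n).1, (Qf b n).1, ?_, ?_⟩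
    · intro h
      have h1 := congrArg Prod.snd h
      simp only at h1
      have := (q_pos hb n).1
      omega
    · rw [hNN 0 1]
      unfold e
      push_cast
      ring
  · intro k l hkl
    rw [hNN 0 1, hNN k l]
    have h1 : (t * (((0 : ℤ) : ℝ) * e' V b n + ((1 : ℤ) : ℝ) * e V b n)) ^ 2 +
        ((((0 : ℤ) : ℝ) * (Qf b n).2 + ((1 : ℤ) : ℝ) * (Qf b n).1) / t) ^ 2 = F V b t n := by
      unfold F
      push_cast
      ring
    rw [h1]
    have h2 : (k : ℝ) * e' V b n + l * e V b n =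
        ((-(k * (Pf b n).2 + l * (Pf b n).1) : ℤ) : ℝ) +
          ((k * (Qf b n).2 + l * (Qf b n).1 : ℤ) : ℝ) * V b := by
      unfold e e'
      push_cast
      ring
    have h3 : (k : ℝ) * (Qf b n).2 + l * (Qf b n).1 = ((k * (Qf b n).2 + l * (Qf b n).1 : ℤ) : ℝ) := by
      push_cast
      ring
    rw [h2, h3]
    have hne : (-(k * (Pf b n).2 + l * (Pf b n).1), k * (Qf b n).2 + l * (Qf b n).1) ≠ ((0 : ℤ), (0 : ℤ)) := by
      intro h
      have h4 := congrArg Prod.fst h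
      have h5 := congrArg Prod.snd h
      simp only at h4 h5
      have hd := det b n
      have hs : ((-1 : ℤ) ^ n) * (-1) ^ n = 1 := by
        rw [← mul_pow]
        norm_num
      apply hkl
      have h6 : k * ((Pf b n).2 * (Qf b n).1 - (Pf b n).1 * (Qf b n).2) = 0 := by
        have h7 : k * (Pf b n).2 + l * (Pf b n).1 = 0 := by linarith
        calc k * ((Pf b n).2 * (Qf b n).1 - (Pf b n).1 * (Qf b n).2)
            = (k * (Pf b n).2 + l * (Pf b n).1) * (Qf b n).1 -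
              (Pf b n).1 * (k * (Qf b n).2 + l * (Qf b n).1) := by ring
          _ = 0 := by rw [h7, h5]; ring
      have h8 : l * ((Pf b n).2 * (Qf b n).1 - (Pf b n).1 * (Qf b n).2) = 0 := by
        have h7 : k * (Pf b n).2 + l * (Pf b n).1 = 0 := by linarith
        calc l * ((Pf b n).2 * (Qf b n).1 - (Pf b n).1 * (Qf b n).2)
            = (Pf b n).2 * (k * (Qf b n).2 + l * (Qf b n).1) -
              (Qf b n).2 * (k * (Pf b n).2 + l * (Pf b n).1) := by ring
          _ = 0 := by rw [h7, h5]; ring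
      rw [hd] at h6 h8
      have hk : k = 0 := by
        calc k = k * ((-1) ^ n * (-1) ^ n) := by rw [hs, mul_one]
          _ = (k * (-1) ^ n) * (-1) ^ n := by ring
          _ = 0 := by rw [h6, zero_mul]
      have hl : l = 0 := by
        calc l = l * ((-1) ^ n * (-1) ^ n) := by rw [hs, mul_one]
          _ = (l * (-1) ^ n) * (-1) ^ n := by ring
          _ = 0 := by rw [h8, zero_mul]
      rw [hk, hl]
    obtain ⟨j, hj⟩ := lower hV hb ht2 hne
    exact (hmin j).trans hj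

end Pool.Agent.N860.EU
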