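import Pool.Agent.N860.EU.Stm

/-!
# Project EU, part LOW: all words (helper300)
-/

set_option autoImplicit false

namespace Pool.Agent.N860.EU

open Finset

/-- the continuant without the first digit -/
def lowK' : List ℕ → ℕ
  | [] => 0
  | _ :: l => K l

theorem low_K (a : ℕ) (w : List ℕ) : K (a :: w) = a * K w + lowK' w := by
  cases w with
  | nil => simp [K, lowK']
  | cons b l => simp [K, lowK']

theorem low_le (w : List ℕ) (hw : ∀ a ∈ w, 1 ≤ a) : 1 ≤ K w ∧ lowK' w ≤ K w := by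
  induction w with
  | nil => simp [K, lowK']
  | cons a l ih =>
    have h1 := ih fun x hx => hw x (by simp [hx])
    have h2 : 1 ≤ a := hw a (by simp)
    rw [low_K]
    have h3 : K l ≤ a * K l := Nat.le_mul_of_pos_left _ h2
    refine ⟨?_, ?_⟩
    · omega
    · show K l ≤ _
      omega

/-- the length of the interval of the word -/
noncomputable def lowm (w : List ℕ) : ℝ := 1 / ((K w : ℝ) * ((K w : ℝ) + (lowK' w : ℝ)))

theorem lowm_le (w : List ℕ) (hw : ∀ a ∈ w, 1 ≤ a) : lowm w ≤ 1 / (K w : ℝ) ^ 2 := by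
  obtain ⟨h1, -⟩ := low_le w hw
  have h2 : (1 : ℝ) ≤ K w := by exact_mod_cast h1
  have h3 : (0 : ℝ) ≤ lowK' w := Nat.cast_nonneg _
  unfold lowm
  apply one_div_le_one_div_of_le (by positivity)
  nlinarith

/-- telescoping -/
theorem low_tel (Q Q' : ℝ) (hQ : 1 ≤ Q) (hQ' : 0 ≤ Q') (M : ℕ) :
    ∑ a ∈ Icc 1 M, 1 / (((a : ℝ) * Q + Q') * ((a : ℝ) * Q + Q' + Q)) =
      1 / (Q * (Q + Q')) - 1 / (Q * (((M : ℝ) + 1) * Q + Q')) := by
  induction M with
  | zero => simp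
  | succ M ih =>
    rw [Finset.sum_Icc_succ_top (by omega), ih]
    push_cast
    have hM : (0 : ℝ) ≤ M := Nat.cast_nonneg _
    have h1 : Q + Q' ≠ 0 := by positivity
    have h2 : ((M : ℝ) + 1) * Q + Q' ≠ 0 := by positivity
    have h3 : ((M : ℝ) + 1 + 1) * Q + Q' ≠ 0 := by positivity
    have h4 : ((M : ℝ) + 1) * Q + Q' + Q = ((M : ℝ) + 1 + 1) * Q + Q' := by ring
    rw [h4]
    have h5 : Q ≠ 0 := by positivity
    field_simp
    ring

theorem low_step (w : List ℕ) (hw : ∀ a ∈ w, 1 ≤ a) (M : ℕ) :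
    (1 - 2 / ((M : ℝ) + 1)) * lowm w ≤ ∑ a ∈ Icc 1 M, lowm (a :: w) := by
  obtain ⟨h1, h1'⟩ := low_le w hw
  have h2 : (1 : ℝ) ≤ K w := by exact_mod_cast h1
  have h2' : (lowK' w : ℝ) ≤ K w := by exact_mod_cast h1'
  have h3 : (0 : ℝ) ≤ lowK' w := Nat.cast_nonneg _
  have h4 : ∀ a ∈ Icc 1 M, lowm (a :: w) = 1 / (((a : ℝ) * (K w : ℝ) + (lowK' w : ℝ)) *
      ((a : ℝ) * (K w : ℝ) + (lowK' w : ℝ) + (K w : ℝ))) := by
    intro a _
    unfold lowm
    rw [low_K]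
    show 1 / (((a * K w + lowK' w : ℕ) : ℝ) * (((a * K w + lowK' w : ℕ) : ℝ) + (K w : ℝ))) = _
    push_cast
    rfl
  rw [Finset.sum_congr rfl h4, low_tel _ _ h2 h3]
  unfold lowm
  set Q : ℝ := (K w : ℝ)
  set Q' : ℝ := (lowK' w : ℝ)
  have hM : (0 : ℝ) ≤ M := Nat.cast_nonneg _
  have h5 : 1 / (Q * (((M : ℝ) + 1) * Q + Q')) ≤ 2 / ((M : ℝ) + 1) * (1 / (Q * (Q + Q'))) := by
    rw [div_mul_div_comm, div_le_div_iff₀ (by positivity) (by positivity)]
    have h6 : 0 ≤ Q * (((M : ℝ) + 1) * (Q - Q')) :=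
      mul_nonneg (by positivity) (mul_nonneg (by positivity) (by linarith))
    nlinarith [mul_nonneg (by positivity : (0 : ℝ) ≤ Q) h3]
  linarith

theorem low_sum (M : ℕ) (hM : 1 ≤ M) (L : ℕ) :
    (1 - 2 / ((M : ℝ) + 1)) ^ L ≤ ∑ w ∈ words L M, lowm w := by
  induction L with
  | zero => simp [words, lowm, K, lowK']
  | succ L ih =>
    have hM' : (1 : ℝ) ≤ M := by exact_mod_cast hM
    have hx : 0 ≤ 1 - 2 / ((M : ℝ) + 1) := by
      rw [sub_nonneg, div_le_one (by positivity)]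
      linarith
    have h1 : ∑ w ∈ words (L + 1) M, lowm w = ∑ w ∈ words L M, ∑ a ∈ Icc 1 M, lowm (a :: w) := by
      rw [words, Finset.sum_image, Finset.sum_product_right]
      rintro ⟨a, w⟩ _ ⟨a', w'⟩ _ h
      simp only [List.cons.injEq] at h
      exact Prod.ext h.1 h.2
    rw [h1, pow_succ']
    calc (1 - 2 / ((M : ℝ) + 1)) * (1 - 2 / ((M : ℝ) + 1)) ^ L ≤
        (1 - 2 / ((M : ℝ) + 1)) * ∑ w ∈ words L M, lowm w := mul_le_mul_of_nonneg_left ih hx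
      _ = ∑ w ∈ words L M, (1 - 2 / ((M : ℝ) + 1)) * lowm w := Finset.mul_sum _ _ _
      _ ≤ _ := Finset.sum_le_sum fun w hw =>
        low_step w (fun a ha => (((mem_words L M w).1 hw).2 a ha).1) M

/-- LOW: all words -/
theorem low (hK : S_KF) : S_LOW := by
  clear hK
  intro L M hM
  have hM' : (1 : ℝ) ≤ M := by exact_mod_cast hM
  have h1 := low_sum M hM L
  have h2 : ∑ w ∈ words L M, lowm w ≤ ∑ w ∈ words L M, 1 / (K w : ℝ) ^ 2 :=
    Finset.sum_le_sum fun w hw =>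
      lowm_le w fun a ha => (((mem_words L M w).1 hw).2 a ha).1
  have h3 : -2 ≤ -(2 / ((M : ℝ) + 1)) := by
    have : 2 / ((M : ℝ) + 1) ≤ 1 := by
      rw [div_le_one (by positivity)]
      linarith
    linarith
  have h4 := one_add_mul_le_pow h3 L
  have h5 : 1 + (L : ℝ) * -(2 / ((M : ℝ) + 1)) = 1 - 2 * (L : ℝ) / (M + 1) := by ring
  have h6 : 1 + -(2 / ((M : ℝ) + 1)) = 1 - 2 / ((M : ℝ) + 1) := by ring
  rw [h5, h6] at h4
  linarith

end Pool.Agent.N860.EU
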