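import Mathlib
import Pool.Agent.N860.EU.Stm

/-!
# EU/NBA (helper547): unbounded partial quotients, not badly approximable
-/

set_option autoImplicit false

namespace Pool.Agent.N860.EU

namespace Nba

/-- the denominators, `Q 0 = 0`, `Q 1 = 1` -/
def Q (b : ℕ → ℕ) : ℕ → ℤ
  | 0 => 0
  | 1 => 1
  | (n + 2) => b n * Q b (n + 1) + Q b n

/-- the numerators, `P 0 = 1`, `P 1 = 0` -/
def P (b : ℕ → ℕ) : ℕ → ℤ
  | 0 => 1
  | 1 => 0
  | (n + 2) => b n * P b (n + 1) + P b n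

theorem Q_nonneg (b : ℕ → ℕ) (hb : ∀ n, 1 ≤ b n) : ∀ n, 0 ≤ Q b n ∧ 1 ≤ Q b (n + 1)
  | 0 => by simp [Q]
  | (n + 1) => by
    obtain ⟨h1, h2⟩ := Q_nonneg b hb n
    refine ⟨by omega, ?_⟩
    have h3 : (1 : ℤ) ≤ b n := by exact_mod_cast hb n
    have h4 : Q b (n + 1 + 1) = b n * Q b (n + 1) + Q b n := rfl
    rw [h4]
    nlinarith

/-- `t n = [0; b n, b (n + 1), ...]` -/
noncomputable def t (V : (ℕ → ℕ) → ℝ) (b : ℕ → ℕ) (n : ℕ) : ℝ := V (fun m => b (n + m))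

theorem t_pos {V : (ℕ → ℕ) → ℝ} (hV : IsV V) {b : ℕ → ℕ} (hb : ∀ n, 1 ≤ b n) (n : ℕ) :
    0 < t V b n := (hV.pos _ fun m => hb (n + m)).1

theorem t_step {V : (ℕ → ℕ) → ℝ} (hV : IsV V) {b : ℕ → ℕ} (hb : ∀ n, 1 ≤ b n) (n : ℕ) :
    t V b n * (b n + t V b (n + 1)) = 1 := by
  have h1 := hV.step (fun m => b (n + m)) fun m => hb (n + m)
  have h2 : V (fun m => b (n + (m + 1))) = t V b (n + 1) := by
    unfold t
    congr 1
    funext m
    congr 1
    omega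
  have h3 := t_pos hV hb (n + 1)
  have h4 : (0 : ℝ) ≤ b n := Nat.cast_nonneg _
  unfold t at h2 h3 ⊢
  rw [h1]
  simp only [add_zero]
  rw [h2]
  have h5 : (0 : ℝ) < (b n : ℝ) + V (fun m => b (n + 1 + m)) := by linarith
  field_simp

/-- the differences -/
noncomputable def E (V : (ℕ → ℕ) → ℝ) (b : ℕ → ℕ) (n : ℕ) : ℝ := (Q b n : ℝ) * V b - P b n

theorem E_step {V : (ℕ → ℕ) → ℝ} (hV : IsV V) {b : ℕ → ℕ} (hb : ∀ n, 1 ≤ b n) :
    ∀ n, E V b (n + 1) = -(t V b n * E V b n)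
  | 0 => by simp [E, Q, P, t]
  | (n + 1) => by
    have h1 := E_step hV hb n
    have h2 := t_step hV hb n
    have h3 : E V b (n + 1 + 1) = b n * E V b (n + 1) + E V b n := by
      unfold E
      have h4 : Q b (n + 1 + 1) = b n * Q b (n + 1) + Q b n := rfl
      have h5 : P b (n + 1 + 1) = b n * P b (n + 1) + P b n := rfl
      rw [h4, h5]
      push_cast
      ring
    have h4 : E V b n = -(E V b (n + 1) * (b n + t V b (n + 1))) := by
      rw [h1]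
      linear_combination (-(E V b n)) * h2
    rw [h3]
    linear_combination h4

theorem inv {V : (ℕ → ℕ) → ℝ} (hV : IsV V) {b : ℕ → ℕ} (hb : ∀ n, 1 ≤ b n) :
    ∀ n, (Q b (n + 1) : ℝ) * |E V b n| + Q b n * |E V b (n + 1)| = 1
  | 0 => by simp [E, Q, P]
  | (n + 1) => by
    have h0 := inv hV hb n
    have h1 := E_step hV hb n
    have h2 := t_step hV hb n
    have h3 := E_step hV hb (n + 1)
    have h4 := t_pos hV hb n
    have h5 := t_pos hV hb (n + 1)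
    have e1 : |E V b (n + 1)| = t V b n * |E V b n| := by
      rw [h1, abs_neg, abs_mul, abs_of_pos h4]
    have e2 : |E V b (n + 1 + 1)| = t V b (n + 1) * |E V b (n + 1)| := by
      rw [h3, abs_neg, abs_mul, abs_of_pos h5]
    have h6 : Q b (n + 1 + 1) = b n * Q b (n + 1) + Q b n := rfl
    rw [h6, e2]
    push_cast
    rw [← h0, e1]
    linear_combination ((Q b (n + 1) : ℝ) * |E V b n|) * h2

end Nba

/-- NBA: unbounded partial quotients, not badly approximable -/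
theorem nba : S_NBA := by
  intro V hV b hb hub hx
  obtain ⟨c, hc, h⟩ := hx
  obtain ⟨m, hm⟩ := exists_nat_gt (1 / c)
  obtain ⟨n, hn⟩ := hub m
  have h1 := Nba.inv hV hb (n + 1)
  obtain ⟨h2, h3⟩ := Nba.Q_nonneg b hb n
  have h3' : (1 : ℝ) ≤ (Nba.Q b (n + 1) : ℝ) := by exact_mod_cast h3
  have h2' : (0 : ℝ) ≤ (Nba.Q b n : ℝ) := by exact_mod_cast h2
  have h4 := h (Nba.P b (n + 1)) (Nba.Q b (n + 1)) (by omega)
  have h5 : |(Nba.Q b (n + 1) : ℝ) * V b - Nba.P b (n + 1)| = |Nba.E V b (n + 1)| := rfl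
  rw [h5, abs_of_nonneg (by linarith : (0 : ℝ) ≤ (Nba.Q b (n + 1) : ℝ))] at h4
  have h6 : Nba.Q b (n + 1 + 1) = b n * Nba.Q b (n + 1) + Nba.Q b n := rfl
  have h7 := abs_nonneg (Nba.E V b (n + 1))
  have h8 := abs_nonneg (Nba.E V b (n + 1 + 1))
  rw [h6] at h1
  push_cast at h1
  have h9 : 1 < c * b n := by
    rw [div_lt_iff₀ hc] at hm
    have h10 : (m : ℝ) ≤ b n := by exact_mod_cast hn
    nlinarith
  have h10 : (0 : ℝ) ≤ Nba.Q b n * |Nba.E V b (n + 1)| := mul_nonneg h2' h7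
  have h11 : (0 : ℝ) ≤ Nba.Q b (n + 1) * |Nba.E V b (n + 1 + 1)| := mul_nonneg (by linarith) h8
  have h12 : c * b n ≤ |Nba.E V b (n + 1)| * Nba.Q b (n + 1) * b n :=
    mul_le_mul_of_nonneg_right h4 (Nat.cast_nonneg _)
  nlinarith

end Pool.Agent.N860.EU
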