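import Mathlib
import Pool.Agent.N860.EU.Stm

/-!
# Project EU, part SEL: many good words of nearly the same size (helper701)
-/

set_option autoImplicit false

namespace Pool.Agent.N860.EU

open Finset

open scoped Classical in
/-- SEL -/
theorem sel (hK : S_KF) (hG : S_GSUM) : S_SEL := by
  intro s hs0 hs1
  obtain ⟨hK1, -, -, hK4, hK5, hK6, -⟩ := hK
  obtain ⟨L₀, hL₀⟩ := hG
  set ρ : ℝ := (2 : ℝ) ^ (s - 1) with hρ
  have hρ0 : 0 < ρ := Real.rpow_pos_of_pos (by norm_num) _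
  have hρ1 : ρ < 1 := Real.rpow_lt_one_of_one_lt_of_neg (by norm_num) (by linarith)
  have hlim := tendsto_pow_const_mul_const_pow_of_lt_one 4 hρ0.le hρ1
  have hev := hlim.eventually_le_const (u := 1 / (128 * 4800 ^ 2 * 29)) (by positivity)
  obtain ⟨n, hn0, hn1⟩ := (hev.and (Filter.eventually_ge_atTop (L₀ + 1))).exists
  have hn1' : 1 ≤ n := by omega
  set L : ℕ := n + 1 with hL
  set M : ℕ := 16 * L with hM
  have hLr : (1 : ℝ) ≤ (L : ℝ) := by exact_mod_cast (by omega : 1 ≤ L)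
  have hLn : (L : ℝ) ≤ 2 * n := by exact_mod_cast (by omega : L ≤ 2 * n)
  have hnr : (1 : ℝ) ≤ (n : ℝ) := by exact_mod_cast hn1'
  set ε : ℝ := 1 / (200 * (L : ℝ)) with hε
  obtain ⟨r', hr1, hr2⟩ := exists_nat_pow_near (x := 600 * L) (y := 4) (by omega) (by norm_num)
  set r : ℕ := r' + 1 with hr
  have hr3 : 4 ^ r ≤ 2400 * L := by
    rw [hr, pow_succ]
    omega
  have hr4 : 2 ≤ r := by
    by_contra h
    have : r ≤ 1 := by omega
    have h2 : 4 ^ r ≤ 4 ^ 1 := Nat.pow_le_pow_right (by norm_num) this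
    omega
  -- the good words
  set Gs : Finset (List ℕ) := (words L M).filter (Gd ε) with hGs
  have hsum : 1 / 2 ≤ ∑ w ∈ Gs, 1 / (K w : ℝ) ^ 2 := hL₀ L (by omega)
  set H : ℕ := 2 * L * (L + 5) + 1 with hH
  have hw : ∀ w ∈ Gs, w.length = L ∧ (∀ a ∈ w, 1 ≤ a ∧ a ≤ M) := by
    intro w hw
    rw [hGs, mem_filter, mem_words] at hw
    exact hw.1
  have hKpos : ∀ w ∈ Gs, 1 ≤ K w := fun w h => hK1 w fun a ha => ((hw w h).2 a ha).1
  have hlog1 : ∀ w ∈ Gs, 2 ^ (Nat.log 2 (K w ^ 2)) ≤ K w ^ 2 := fun w h =>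
    Nat.pow_log_le_self 2 (by have := hKpos w h; positivity)
  have hlog2 : ∀ w ∈ Gs, K w ^ 2 < 2 ^ (Nat.log 2 (K w ^ 2) + 1) := fun w _ =>
    Nat.lt_pow_succ_log_self (by norm_num) _
  have hmaps : ∀ w ∈ Gs, Nat.log 2 (K w ^ 2) ∈ range H := by
    intro w h
    rw [mem_range]
    have h1 := hK5 w M (hw w h).2
    rw [(hw w h).1] at h1
    have h2 : M + 1 ≤ 2 ^ (L + 5) := by
      have := Nat.lt_two_pow_self (n := L)
      rw [hM, pow_add]
      omega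
    have h3 : K w ^ 2 ≤ 2 ^ (2 * L * (L + 5)) := by
      calc K w ^ 2 ≤ ((M + 1) ^ L) ^ 2 := Nat.pow_le_pow_left h1 2
        _ ≤ ((2 ^ (L + 5)) ^ L) ^ 2 := Nat.pow_le_pow_left (Nat.pow_le_pow_left h2 L) 2
        _ = 2 ^ (2 * L * (L + 5)) := by
            rw [← pow_mul, ← pow_mul]
            congr 1
            ring
    have h4 := (hlog1 w h).trans h3
    have h5 := (Nat.pow_le_pow_iff_right (by norm_num : 1 < 2)).1 h4
    omega
  have hH0 : 0 < H := by omega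
  have hHr : (0 : ℝ) < (H : ℝ) := by exact_mod_cast hH0
  obtain ⟨h, hhH, hh⟩ : ∃ h ∈ range H, 1 / (2 * (H : ℝ)) ≤
      ∑ w ∈ Gs with Nat.log 2 (K w ^ 2) = h, 1 / (K w : ℝ) ^ 2 := by
    apply Finset.exists_le_of_sum_le (nonempty_range_iff.2 hH0.ne')
    rw [sum_fiberwise_of_maps_to hmaps, sum_const, card_range, nsmul_eq_mul]
    refine le_trans (le_of_eq ?_) hsum
    field_simp
  set C : Finset (List ℕ) := Gs.filter (fun w => Nat.log 2 (K w ^ 2) = h) with hC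
  have hCG : ∀ w ∈ C, w ∈ Gs ∧ Nat.log 2 (K w ^ 2) = h := fun w hw => mem_filter.1 hw
  have hne : C.Nonempty := by
    by_contra hcon
    rw [not_nonempty_iff_eq_empty] at hcon
    rw [hcon, sum_empty] at hh
    have : 0 < 1 / (2 * (H : ℝ)) := by positivity
    linarith
  have hnh : n ≤ h := by
    obtain ⟨w, hwC⟩ := hne
    obtain ⟨hwG, hwh⟩ := hCG w hwC
    have h1 := hK4 w fun a ha => ((hw w hwG).2 a ha).1
    rw [(hw w hwG).1, hL, pow_succ] at h1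
    have h2 := hlog2 w hwG
    rw [hwh] at h2
    have h3 : 2 ^ n < 2 ^ (h + 1) := by omega
    have h4 := (Nat.pow_lt_pow_iff_right (by norm_num : 1 < 2)).1 h3
    omega
  have hcard : (2 : ℝ) ^ h / (2 * (H : ℝ)) ≤ (C.card : ℝ) := by
    have h1 : ∑ w ∈ C, 1 / (K w : ℝ) ^ 2 ≤ ∑ _w ∈ C, 1 / (2 : ℝ) ^ h := by
      refine sum_le_sum fun w hwC => ?_
      obtain ⟨hwG, hwh⟩ := hCG w hwC
      have h2 := hlog1 w hwG
      rw [hwh] at h2
      exact one_div_le_one_div_of_le (by positivity) (by exact_mod_cast h2)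
    rw [sum_const, nsmul_eq_mul] at h1
    have h3 := hh.trans h1
    have h2h : (0 : ℝ) < 2 ^ h := by positivity
    calc (2 : ℝ) ^ h / (2 * (H : ℝ)) = 2 ^ h * (1 / (2 * (H : ℝ))) := by ring
      _ ≤ 2 ^ h * ((C.card : ℝ) * (1 / 2 ^ h)) := mul_le_mul_of_nonneg_left h3 h2h.le
      _ = C.card := by field_simp
  -- the main inequality
  have hK2 : (K (List.replicate r 2) : ℝ) ≤ 2400 * L := by
    have h1 := (hK6 r).2
    have h2 : 3 ^ r ≤ 4 ^ r := Nat.pow_le_pow_left (by norm_num) r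
    exact_mod_cast (h1.trans h2).trans hr3
  have hK2' : (1 : ℝ) ≤ (K (List.replicate r 2) : ℝ) := by
    have h1 := (hK6 r).1
    have h2 : 1 ≤ 2 ^ r := Nat.one_le_two_pow
    exact_mod_cast h2.trans h1
  have h2hs : ((2 : ℝ) ^ h) ^ s = 2 ^ h * ρ ^ h := by
    rw [← Real.rpow_pow_comm (by norm_num : (0 : ℝ) ≤ 2), ← mul_pow]
    congr 1
    rw [hρ, Real.rpow_sub (by norm_num), Real.rpow_one]
    ring
  have hρh : ρ ^ h ≤ ρ ^ n := pow_le_pow_of_le_one hρ0.le hρ1.le hnh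
  have hHn : (H : ℝ) ≤ 29 * (n : ℝ) ^ 2 := by
    have h1 : (H : ℝ) = 2 * ((n : ℝ) + 1) * ((n : ℝ) + 1 + 5) + 1 := by
      rw [hH, hL]
      push_cast
      ring
    rw [h1]
    nlinarith
  have hmain : 2 * ((32 * (2400 * (L : ℝ)) ^ 2) * (2 ^ h * ρ ^ h)) ≤ (C.card : ℝ) := by
    refine le_trans ?_ hcard
    rw [le_div_iff₀ (by positivity)]
    have h1 : (2400 * (L : ℝ)) ^ 2 ≤ 4800 ^ 2 * (n : ℝ) ^ 2 := by
      have : 2400 * (L : ℝ) ≤ 4800 * n := by linarith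
      calc (2400 * (L : ℝ)) ^ 2 ≤ (4800 * n) ^ 2 := pow_le_pow_left₀ (by positivity) this 2
        _ = _ := by ring
    have h2 : (2400 * (L : ℝ)) ^ 2 * (H : ℝ) ≤ (4800 ^ 2 * (n : ℝ) ^ 2) * (29 * (n : ℝ) ^ 2) :=
      mul_le_mul h1 hHn hHr.le (by positivity)
    have h3 : 128 * ((2400 * (L : ℝ)) ^ 2 * (H : ℝ)) * ρ ^ h ≤ 1 := by
      calc 128 * ((2400 * (L : ℝ)) ^ 2 * (H : ℝ)) * ρ ^ h
          ≤ 128 * ((4800 ^ 2 * (n : ℝ) ^ 2) * (29 * (n : ℝ) ^ 2)) * ρ ^ n :=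
            mul_le_mul (by linarith) hρh (by positivity) (by positivity)
        _ = (128 * 4800 ^ 2 * 29) * ((n : ℝ) ^ 4 * ρ ^ n) := by ring
        _ ≤ (128 * 4800 ^ 2 * 29) * (1 / (128 * 4800 ^ 2 * 29)) :=
            mul_le_mul_of_nonneg_left hn0 (by positivity)
        _ = 1 := by norm_num
    have h2h : (0 : ℝ) < 2 ^ h := by positivity
    calc 2 * ((32 * (2400 * (L : ℝ)) ^ 2) * (2 ^ h * ρ ^ h)) * (2 * (H : ℝ)) =
        2 ^ h * (128 * ((2400 * (L : ℝ)) ^ 2 * (H : ℝ)) * ρ ^ h) := by ring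
      _ ≤ 2 ^ h * 1 := mul_le_mul_of_nonneg_left h3 h2h.le
      _ = 2 ^ h := mul_one _
  have hbase : (1 : ℝ) ≤ 32 * (2400 * (L : ℝ)) ^ 2 := by
    have : (1 : ℝ) ≤ (2400 * (L : ℝ)) ^ 2 := one_le_pow₀ (by linarith)
    linarith
  have hle : ∀ w ∈ C, 2 * (16 * (K (List.replicate r 2) : ℝ) ^ 2 * (K w : ℝ) ^ 2) ^ s ≤
      (C.card : ℝ) := by
    intro w hwC
    obtain ⟨hwG, hwh⟩ := hCG w hwC
    have h1 := hlog2 w hwG
    rw [hwh] at h1
    have h2 : (K w : ℝ) ^ 2 ≤ 2 ^ (h + 1) := by exact_mod_cast h1.le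
    refine le_trans ?_ hmain
    refine mul_le_mul_of_nonneg_left ?_ (by norm_num)
    have h3 : (K (List.replicate r 2) : ℝ) ^ 2 ≤ (2400 * (L : ℝ)) ^ 2 :=
      pow_le_pow_left₀ (by linarith) hK2 2
    have h4 : 16 * (K (List.replicate r 2) : ℝ) ^ 2 * (K w : ℝ) ^ 2 ≤
        (32 * (2400 * (L : ℝ)) ^ 2) * 2 ^ h := by
      calc 16 * (K (List.replicate r 2) : ℝ) ^ 2 * (K w : ℝ) ^ 2 ≤
          16 * (2400 * (L : ℝ)) ^ 2 * 2 ^ (h + 1) :=
            mul_le_mul (by linarith) h2 (by positivity) (by positivity)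
        _ = _ := by ring
    calc (16 * (K (List.replicate r 2) : ℝ) ^ 2 * (K w : ℝ) ^ 2) ^ s ≤
        ((32 * (2400 * (L : ℝ)) ^ 2) * 2 ^ h) ^ s :=
          Real.rpow_le_rpow (by positivity) h4 hs0.le
      _ = (32 * (2400 * (L : ℝ)) ^ 2) ^ s * (2 ^ h * ρ ^ h) := by
          rw [Real.mul_rpow (by positivity) (by positivity), h2hs]
      _ ≤ (32 * (2400 * (L : ℝ)) ^ 2) * (2 ^ h * ρ ^ h) := by
          refine mul_le_mul_of_nonneg_right ?_ (by positivity)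
          calc (32 * (2400 * (L : ℝ)) ^ 2) ^ s ≤ (32 * (2400 * (L : ℝ)) ^ 2) ^ (1 : ℝ) :=
                Real.rpow_le_rpow_of_exponent_le hbase hs1.le
            _ = _ := Real.rpow_one _
  have hB2 : 2 ≤ C.card := by
    obtain ⟨w, hwC⟩ := hne
    have h1 := hle w hwC
    have h2 : (1 : ℝ) ≤ 16 * (K (List.replicate r 2) : ℝ) ^ 2 * (K w : ℝ) ^ 2 := by
      have h3 : (1 : ℝ) ≤ (K (List.replicate r 2) : ℝ) ^ 2 := one_le_pow₀ hK2'
      have h4 : (1 : ℝ) ≤ (K w : ℝ) ^ 2 :=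
        one_le_pow₀ (by exact_mod_cast hKpos w (hCG w hwC).1)
      have h5 : (1 : ℝ) ≤ 16 * (K (List.replicate r 2) : ℝ) ^ 2 := by linarith
      exact one_le_mul_of_one_le_of_one_le h5 h4
    have h3 := Real.one_le_rpow h2 hs0.le
    have h4 : (2 : ℝ) ≤ (C.card : ℝ) := by linarith
    exact_mod_cast h4
  refine ⟨L, M, r, ε, by omega, by omega, hr4, by positivity, ?_, C.card,
    fun i => (C.equivFin.symm i).1, hB2, ?_, ?_, ?_, ?_⟩
  · rw [hε, div_le_div_iff₀ (by positivity) (by positivity)]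
    have h1 : 600 * L ≤ 4 ^ r := hr2.le
    have h2 : 600 * (L : ℝ) ≤ 4 ^ r := by exact_mod_cast h1
    linarith
  · intro i j hij
    exact C.equivFin.symm.injective (Subtype.ext hij)
  · intro i
    have h1 := (hCG _ (C.equivFin.symm i).2).1
    rw [hGs, mem_filter] at h1
    exact h1.1
  · intro i
    have h1 := (hCG _ (C.equivFin.symm i).2).1
    rw [hGs, mem_filter] at h1
    exact h1.2
  · intro i
    exact hle _ (C.equivFin.symm i).2

end Pool.Agent.N860.EU
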