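import Pool.Agent.N860.EU.Stm

/-! # SEQ (helper36): the structure of the sequence -/

set_option autoImplicit false

namespace Pool.Agent.N860.EU

theorem seq_pk_congr (r : ℕ) (N : ℕ → ℕ) {B : ℕ} (G : Fin B → List ℕ) (c c' : ℕ → Fin B) (k : ℕ)
    (h : ∀ i < k, c i = c' i) : Pk r N G c k = Pk r N G c' k := by
  induction k with
  | zero => rfl
  | succ k ih =>
    show Pk r N G c k ++ blk r N G c k = Pk r N G c' k ++ blk r N G c' k
    rw [ih (fun i hi => h i (by omega))]
    unfold blk
    rw [h k (by omega)]

theorem seq : S_SEQ := by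
  intro r L M N B G hr hL hM hN hN2 hG c
  obtain ⟨P, hP⟩ : ∃ P, P = Pk r N G c := ⟨_, rfl⟩
  obtain ⟨b, hb⟩ : ∃ b, b = sq r N G c := ⟨_, rfl⟩
  have hGl : ∀ i, (G i).length = L := fun i => ((mem_words L M _).1 (hG i)).1
  have hGe : ∀ i, ∀ a ∈ G i, 1 ≤ a ∧ a ≤ M := fun i => ((mem_words L M _).1 (hG i)).2
  have hP0 : P 0 = List.replicate r 2 := by rw [hP]; rfl
  have hPs : ∀ k, P (k + 1) = P k ++ (G (c k) ++ (List.replicate r 2 ++
      (if N k = 0 then [] else N k :: List.replicate r 2))) := fun k => by rw [hP]; rfl
  have hlen0 : (P 0).length = r := by rw [hP0]; simp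
  have hlens : ∀ k, (P (k + 1)).length =
      (P k).length + (L + (r + (if N k = 0 then 0 else 1 + r))) := by
    intro k
    rw [hPs, List.length_append, List.length_append, List.length_append, hGl,
      List.length_replicate]
    by_cases h : N k = 0
    · rw [if_pos h, if_pos h]; rfl
    · rw [if_neg h, if_neg h, List.length_cons, List.length_replicate, Nat.add_comm r 1]
  have hlenk : ∀ k, k + r ≤ (P k).length := by
    intro k
    induction k with
    | zero => rw [hlen0]; omega
    | succ k ih => rw [hlens]; omega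
  have hpre : ∀ k j, P k <+: P (k + j) := by
    intro k j
    induction j with
    | zero => exact List.prefix_rfl
    | succ j ih =>
      refine ih.trans ?_
      rw [← Nat.add_assoc, hPs]
      exact List.prefix_append _ _
  have hbn : ∀ n, b n = (P (n + 1)).getD n 1 := fun n => by rw [hb, hP]; rfl
  have hget : ∀ k n, n < (P k).length → (P k)[n]? = some (b n) := by
    intro k n hn
    have h1 : n < (P (n + 1)).length := by
      have := hlenk (n + 1)
      omega
    have h3 : (P (n + 1))[n]? = some (b n) := by
      rw [hbn, List.getD_eq_getElem?_getD, List.getElem?_eq_getElem h1]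
      rfl
    rcases le_total k (n + 1) with h | h
    · obtain ⟨j, hj⟩ := Nat.exists_eq_add_of_le h
      obtain ⟨t, ht⟩ := hpre k j
      rw [← hj] at ht
      rw [← h3, ← ht, List.getElem?_append_left hn]
    · obtain ⟨j, hj⟩ := Nat.exists_eq_add_of_le h
      obtain ⟨t, ht⟩ := hpre (n + 1) j
      rw [← hj] at ht
      rw [← h3, ← ht, List.getElem?_append_left h1]
  have hblk : ∀ k j x, (G (c k) ++ (List.replicate r 2 ++
      (if N k = 0 then [] else N k :: List.replicate r 2)))[j]? = some x →
      b ((P k).length + j) = x := by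
    intro k j x h
    have h1 : (P (k + 1))[(P k).length + j]? = some x := by
      rw [hPs, List.getElem?_append_right (by omega), Nat.add_sub_cancel_left]
      exact h
    obtain ⟨h2, _⟩ := List.getElem?_eq_some_iff.1 h1
    have h3 := hget (k + 1) _ h2
    rw [h1] at h3
    exact (Option.some.inj h3).symm
  -- the word
  have ha : ∀ k, ∀ i < L, b ((P k).length + i) = (G (c k)).getD i 0 := by
    intro k i hi
    apply hblk
    have h1 : i < (G (c k)).length := by rw [hGl]; exact hi
    rw [List.getElem?_append_left h1, List.getD_eq_getElem?_getD, List.getElem?_eq_getElem h1]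
    rfl
  have hb2 : ∀ k, ∀ i < r, b ((P k).length + L + i) = 2 := by
    intro k i hi
    rw [Nat.add_assoc]
    apply hblk
    rw [List.getElem?_append_right (by rw [hGl]; omega), hGl, Nat.add_sub_cancel_left,
      List.getElem?_append_left (by rw [List.length_replicate]; exact hi),
      List.getElem?_replicate_of_lt hi]
  have hc1 : ∀ k, N k ≠ 0 → b ((P k).length + (L + r)) = N k := by
    intro k h
    apply hblk
    rw [List.getElem?_append_right (by rw [hGl]; omega), hGl, Nat.add_sub_cancel_left,
      List.getElem?_append_right (by rw [List.length_replicate]), List.length_replicate,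
      Nat.sub_self, if_neg h]
    rfl
  have hc2 : ∀ k, N k ≠ 0 → ∀ i < r, b ((P k).length + (L + (r + (i + 1)))) = 2 := by
    intro k h i hi
    apply hblk
    rw [List.getElem?_append_right (by rw [hGl]; omega), hGl, Nat.add_sub_cancel_left,
      List.getElem?_append_right (by rw [List.length_replicate]; omega), List.length_replicate,
      Nat.add_sub_cancel_left, if_neg h, List.getElem?_cons_succ,
      List.getElem?_replicate_of_lt hi]
  have hf : ∀ i < r, b i = 2 := by
    intro i hi
    have h1 := hget 0 i (by rw [hlen0]; exact hi)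
    rw [hP0, List.getElem?_replicate_of_lt hi] at h1
    exact (Option.some.inj h1).symm
  have hd : ∀ k, ∀ i < r, b ((P k).length - 1 - i) = 2 := by
    intro k i hi
    cases k with
    | zero => rw [hlen0]; exact hf _ (by omega)
    | succ k =>
      rw [hlens]
      by_cases h : N k = 0
      · rw [if_pos h]
        have e : (P k).length + (L + (r + 0)) - 1 - i = (P k).length + L + (r - 1 - i) := by omega
        rw [e]
        exact hb2 k _ (by omega)
      · rw [if_neg h]
        have e : (P k).length + (L + (r + (1 + r))) - 1 - i =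
          (P k).length + (L + (r + ((r - 1 - i) + 1))) := by omega
        rw [e]
        exact hc2 k h _ (by omega)
  -- the covering
  have hcov : ∀ n, n < r ∨ ∃ k, (∃ i < L, n = (P k).length + i) ∨
      (∃ i < r, n = (P k).length + L + i) ∨ (N k ≠ 0 ∧ n = (P k).length + (L + r)) ∨
      (N k ≠ 0 ∧ ∃ i < r, n = (P k).length + (L + (r + (i + 1)))) := by
    intro n
    by_cases hn : n < r
    · exact Or.inl hn
    right
    have hex : ∃ k, n < (P (k + 1)).length := ⟨n, by have := hlenk (n + 1); omega⟩
    classical
    have h1 := Nat.find_spec hex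
    have h2 : (P (Nat.find hex)).length ≤ n := by
      by_contra hcon
      rw [not_le] at hcon
      rcases Nat.eq_zero_or_pos (Nat.find hex) with h0 | h0
      · rw [h0, hlen0] at hcon
        exact hn hcon
      · have h3 := Nat.find_min hex (m := Nat.find hex - 1) (by omega)
        rw [Nat.sub_add_cancel h0] at h3
        exact h3 hcon
    refine ⟨Nat.find hex, ?_⟩
    generalize Nat.find hex = k at h1 h2
    rw [hlens] at h1
    by_cases c1 : n < (P k).length + L
    · exact Or.inl ⟨n - (P k).length, by omega, by omega⟩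
    by_cases c2 : n < (P k).length + L + r
    · exact Or.inr (Or.inl ⟨n - ((P k).length + L), by omega, by omega⟩)
    by_cases h : N k = 0
    · rw [if_pos h] at h1
      omega
    rw [if_neg h] at h1
    by_cases c3 : n = (P k).length + (L + r)
    · exact Or.inr (Or.inr (Or.inl ⟨h, c3⟩))
    · exact Or.inr (Or.inr (Or.inr ⟨h, n - ((P k).length + (L + (r + 1))), by omega, by omega⟩))
  have hword : ∀ k, ∀ i < L, 1 ≤ (G (c k)).getD i 0 ∧ (G (c k)).getD i 0 ≤ M := by
    intro k i hi
    have h1 : i < (G (c k)).length := by rw [hGl]; exact hi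
    rw [List.getD_eq_getElem?_getD, List.getElem?_eq_getElem h1]
    exact hGe _ _ (List.getElem_mem h1)
  have hpos : ∀ n, 1 ≤ b n := by
    intro n
    rcases hcov n with h | ⟨k, ⟨i, hi, rfl⟩ | ⟨i, hi, rfl⟩ | ⟨h, rfl⟩ | ⟨h, i, hi, rfl⟩⟩
    · rw [hf n h]; omega
    · rw [ha k i hi]; exact (hword k i hi).1
    · rw [hb2 k i hi]; omega
    · rw [hc1 k h]; omega
    · rw [hc2 k h i hi]; omega
  rw [← hb, ← hP]
  refine ⟨hpos, ?_, ?_, ?_, ?_, ?_, ?_⟩
  · intro n hn
    rcases hcov n with h | ⟨k, ⟨i, hi, rfl⟩ | ⟨i, hi, rfl⟩ | ⟨h, rfl⟩ | ⟨h, i, hi, rfl⟩⟩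
    · left; rw [hf n h]; exact hM
    · left; rw [ha k i hi]; exact (hword k i hi).2
    · left; rw [hb2 k i hi]; exact hM
    · right
      refine ⟨?_, ?_, ?_, ?_, ?_⟩
      · rw [hc1 k h]
        exact (hN k).resolve_left h
      · have e : (P k).length + (L + r) - 2 = (P k).length + L + (r - 2) := by omega
        rw [e]; exact hb2 k _ (by omega)
      · have e : (P k).length + (L + r) - 1 = (P k).length + L + (r - 1) := by omega
        rw [e]; exact hb2 k _ (by omega)
      · have e : (P k).length + (L + r) + 1 = (P k).length + (L + (r + (0 + 1))) := by omega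
        rw [e]; exact hc2 k h _ (by omega)
      · have e : (P k).length + (L + r) + 2 = (P k).length + (L + (r + (1 + 1))) := by omega
        rw [e]; exact hc2 k h _ (by omega)
    · left; rw [hc2 k h i hi]; exact hM
  · intro n hn
    rcases hcov n with h | ⟨k, ⟨i, hi, rfl⟩ | ⟨i, hi, rfl⟩ | ⟨h, rfl⟩ | ⟨h, i, hi, rfl⟩⟩
    · rw [hf n h] at hn; omega
    · refine ⟨k, (P k).length, by omega, by omega, ?_, hd k, ha k, hb2 k⟩
      have := hlenk k
      omega
    · rw [hb2 k i hi] at hn; omega
    · rw [hc1 k h] at hn
      have := (hN k).resolve_left h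
      omega
    · rw [hc2 k h i hi] at hn; omega
  · intro m
    obtain ⟨k, hk⟩ := hN2 (m + 1)
    exact ⟨_, by rw [hc1 k (by omega)]; omega⟩
  · intro k
    refine ⟨?_, ha k, hb2 k⟩
    intro i hi
    rw [List.getD_eq_getElem?_getD, hget k i hi]
    rfl
  · intro c' k h
    rw [hP]
    exact seq_pk_congr r N G c c' k h
  · intro k a hmem
    obtain ⟨i, hi, rfl⟩ := List.mem_iff_getElem.1 hmem
    have h1 := hget k i hi
    rw [List.getElem?_eq_getElem hi] at h1
    rw [Option.some.inj h1]
    exact hpos i

end Pool.Agent.N860.EU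

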