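import Pool.Agent.N860.EU.Stm

/-!
# Project EU: STAB (good words stay good)
-/

set_option autoImplicit false

namespace Pool.Agent.N860.EU

open Finset

theorem stab_ph_nil (t : ℝ) : ph [] t = t := rfl

theorem stab_ph_cons (a : ℕ) (l : List ℕ) (t : ℝ) : ph (a :: l) t = 1 / ((a : ℝ) + ph l t) := rfl

theorem stab_ph_append (p q : List ℕ) (t : ℝ) : ph (p ++ q) t = ph p (ph q t) := by
  simp [ph, List.foldr_append]

theorem stab_ph_mem (l : List ℕ) (t : ℝ) (hl : ∀ a ∈ l, 1 ≤ a) (h0 : 0 ≤ t) (h1 : t ≤ 1) :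
    0 ≤ ph l t ∧ ph l t ≤ 1 := by
  induction l with
  | nil => exact ⟨h0, h1⟩
  | cons a l ih =>
    have ih' := ih (fun x hx => hl x (by simp [hx]))
    have ha : (1 : ℝ) ≤ (a : ℝ) := by exact_mod_cast hl a (by simp)
    rw [stab_ph_cons]
    have hpos : (0 : ℝ) < (a : ℝ) + ph l t := by linarith [ih'.1]
    refine ⟨by positivity, ?_⟩
    rw [div_le_one hpos]
    linarith [ih'.1]

theorem stab_th_mem : 0 ≤ th ∧ th ≤ 1 := by
  have h1 : (1 : ℝ) ≤ Real.sqrt 2 := by
    rw [Real.one_le_sqrt]; norm_num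
  have h2 : Real.sqrt 2 ≤ 2 := by
    rw [Real.sqrt_le_left (by norm_num)]; norm_num
  unfold th
  constructor <;> linarith

theorem stab_th_fix : 1 / ((2 : ℝ) + th) = th := by
  have h0 : (0 : ℝ) < 2 + th := by linarith [stab_th_mem.1]
  rw [div_eq_iff (ne_of_gt h0)]
  unfold th
  have h : Real.sqrt 2 * Real.sqrt 2 = 2 := Real.mul_self_sqrt (by norm_num)
  nlinarith

theorem stab_th_rep (r : ℕ) : ph (List.replicate r 2) th = th := by
  induction r with
  | zero => rfl
  | succ r ih =>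
    rw [List.replicate_succ, stab_ph_cons, ih]
    exact_mod_cast stab_th_fix

theorem stab_fwd (V : (ℕ → ℕ) → ℝ) (hV : IsV V) (l : List ℕ) : ∀ (b : ℕ → ℕ), (∀ n, 1 ≤ b n) →
    (∀ i < l.length, b i = l.getD i 0) → V b = ph l (V (fun n => b (l.length + n))) := by
  induction l with
  | nil =>
    intro b _ _
    rw [stab_ph_nil]
    simp
  | cons a l ih =>
    intro b hb hl
    rw [stab_ph_cons, hV.step b hb]
    have h0 : b 0 = a := by
      have := hl 0 (by simp)
      simpa using this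
    have hi := ih (fun n => b (n + 1)) (fun n => hb (n + 1)) (by
      intro i hi
      have := hl (i + 1) (by simpa using hi)
      simpa using this)
    have he : (fun n => b (l.length + n + 1)) = (fun n => b ((a :: l).length + n)) := by
      funext n
      congr 1
      simp only [List.length_cons]
      omega
    rw [h0, hi]
    simp only [he]

theorem stab_bwd (b : ℕ → ℕ) (l : List ℕ) : ∀ s : ℕ, (∀ i < l.length, b (s + i) = l.getD i 0) →
    bet b (s + l.length) = ph l.reverse (bet b s) := by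
  induction l with
  | nil => intro s _; rfl
  | cons a l ih =>
    intro s hl
    have h0 : b s = a := by
      have := hl 0 (by simp)
      simpa using this
    have hi := ih (s + 1) (by
      intro i hi
      have := hl (i + 1) (by simpa using hi)
      have he : s + 1 + i = s + (i + 1) := by omega
      rw [he]
      simpa using this)
    have he : s + (a :: l).length = s + 1 + l.length := by
      simp only [List.length_cons]; omega
    rw [he, hi, List.reverse_cons, stab_ph_append]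
    congr 1
    show 1 / ((b s : ℝ) + bet b s) = ph [a] (bet b s)
    rw [stab_ph_cons, stab_ph_nil, h0]

theorem stab_bet_mem (b : ℕ → ℕ) (hb : ∀ n, 1 ≤ b n) (n : ℕ) : 0 ≤ bet b n ∧ bet b n ≤ 1 := by
  induction n with
  | zero => exact ⟨le_refl _, zero_le_one⟩
  | succ n ih =>
    have ha : (1 : ℝ) ≤ (b n : ℝ) := by exact_mod_cast hb n
    show 0 ≤ 1 / ((b n : ℝ) + bet b n) ∧ 1 / ((b n : ℝ) + bet b n) ≤ 1
    have hpos : (0 : ℝ) < (b n : ℝ) + bet b n := by linarith [ih.1]
    refine ⟨by positivity, ?_⟩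
    rw [div_le_one hpos]
    linarith [ih.1]

/-- distance after `l ++ 2, 2, ..., 2` -/
theorem stab_close (hK : S_KF) (l : List ℕ) (hl : ∀ a ∈ l, 1 ≤ a) (r : ℕ) (z : ℝ) (h0 : 0 ≤ z) (h1 : z ≤ 1) :
    |ph l (ph (List.replicate r 2) z) - ph l th| ≤ 1 / 4 ^ r := by
  obtain ⟨k1, -, -, -, -, k6, k7⟩ := hK
  have hrep : ∀ a ∈ List.replicate r 2, 1 ≤ a := by
    intro a ha
    rw [List.eq_of_mem_replicate ha]
    norm_num
  have e1 := (k7 (List.replicate r 2) z th hrep h0 h1 stab_th_mem.1 stab_th_mem.2).2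
  rw [stab_th_rep] at e1
  have hm := stab_ph_mem (List.replicate r 2) z hrep h0 h1
  have e2 := (k7 l (ph (List.replicate r 2) z) th hl hm.1 hm.2 stab_th_mem.1 stab_th_mem.2).2
  have hK1 : (1 : ℝ) ≤ (K l : ℝ) ^ 2 := by
    have : (1 : ℝ) ≤ (K l : ℝ) := by exact_mod_cast k1 l hl
    nlinarith
  have hK2 : (4 : ℝ) ^ r ≤ (K (List.replicate r 2) : ℝ) ^ 2 := by
    have h : (2 : ℝ) ^ r ≤ (K (List.replicate r 2) : ℝ) := by exact_mod_cast (k6 r).1
    have h' : (0 : ℝ) ≤ 2 ^ r := by positivity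
    calc (4 : ℝ) ^ r = (2 ^ r) ^ 2 := by rw [← pow_mul, mul_comm, pow_mul]; norm_num
      _ ≤ _ := by gcongr
  have hz : |z - th| ≤ 1 := by
    rw [abs_le]
    constructor <;> linarith [stab_th_mem.1, stab_th_mem.2]
  calc |ph l (ph (List.replicate r 2) z) - ph l th|
      ≤ |ph (List.replicate r 2) z - th| / (K l : ℝ) ^ 2 := e2
    _ ≤ |ph (List.replicate r 2) z - th| := div_le_self (abs_nonneg _) hK1
    _ ≤ |z - th| / (K (List.replicate r 2) : ℝ) ^ 2 := e1
    _ ≤ 1 / 4 ^ r := by
      apply div_le_div₀ zero_le_one hz (by positivity) hK2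

theorem stab_final (X Y X₀ Y₀ δ ε : ℝ) (hY0 : 0 ≤ Y) (hY1 : Y ≤ 1) (hX0 : 0 ≤ X₀) (hX1 : X₀ ≤ 1)
    (hX : |X - X₀| ≤ δ) (hY : |Y - Y₀| ≤ δ) (hδ : 3 * δ ≤ ε)
    (hG : 2 * ε ≤ |(X₀ + 1 / 2) * (Y₀ + 1 / 2) - 3 / 4|) :
    ε ≤ |(X + 1 / 2) * (Y + 1 / 2) - 3 / 4| := by
  have hd : 0 ≤ δ := le_trans (abs_nonneg _) hX
  have hdiff : |((X₀ + 1 / 2) * (Y₀ + 1 / 2) - 3 / 4) - ((X + 1 / 2) * (Y + 1 / 2) - 3 / 4)| ≤ 3 * δ := by
    have e : ((X₀ + 1 / 2) * (Y₀ + 1 / 2) - 3 / 4) - ((X + 1 / 2) * (Y + 1 / 2) - 3 / 4) =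
        -((X - X₀) * (Y + 1 / 2)) + (-((X₀ + 1 / 2) * (Y - Y₀))) := by ring
    rw [e]
    refine le_trans (abs_add_le _ _) ?_
    rw [abs_neg, abs_neg, abs_mul, abs_mul, abs_of_nonneg (show (0 : ℝ) ≤ Y + 1 / 2 by linarith),
      abs_of_nonneg (show (0 : ℝ) ≤ X₀ + 1 / 2 by linarith)]
    have h1 : |X - X₀| * (Y + 1 / 2) ≤ δ * (3 / 2) := by
      apply mul_le_mul hX (by linarith) (by linarith) hd
    have h2 : (X₀ + 1 / 2) * |Y - Y₀| ≤ (3 / 2) * δ := by
      apply mul_le_mul (by linarith) hY (abs_nonneg _) (by norm_num)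
    linarith
  have h3 := abs_sub_abs_le_abs_sub ((X₀ + 1 / 2) * (Y₀ + 1 / 2) - 3 / 4) ((X + 1 / 2) * (Y + 1 / 2) - 3 / 4)
  linarith

theorem stab (hK : S_KF) : S_STAB := by
  intro V hV ε r L w hε hr hlen hw hG b m hb hrm h1 h2 h3 n hmn hnL hbn
  obtain ⟨i, rfl⟩ : ∃ i, n = m + i := ⟨n - m, by omega⟩
  have hiL : i < L := by omega
  have hiw : i < w.length := by omega
  have hwi : w[i] = 1 := by
    have h := h2 i hiL
    rw [hbn, List.getD_eq_getElem _ _ hiw] at h
    exact h.symm
  have hsplit : w = w.take i ++ 1 :: w.drop (i + 1) := by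
    conv_lhs => rw [← List.take_append_drop i w]
    rw [List.drop_eq_getElem_cons hiw, hwi]
  have hg := hG _ _ hsplit
  have hv : ∀ a ∈ w.drop (i + 1), 1 ≤ a := fun a ha => hw a (List.mem_of_mem_drop ha)
  have hp : ∀ a ∈ (w.take i).reverse, 1 ≤ a := fun a ha =>
    hw a (List.mem_of_mem_take (List.mem_reverse.1 ha))
  -- the forward part
  have hf1 : V (fun k => b (m + i + 1 + k)) = ph (w.drop (i + 1)) (V (fun k => b (m + L + k))) := by
    have hlen' : (w.drop (i + 1)).length = L - (i + 1) := by rw [List.length_drop, hlen]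
    have h := stab_fwd V hV (w.drop (i + 1)) (fun k => b (m + i + 1 + k)) (fun k => hb _) (by
      intro j hj
      rw [hlen'] at hj
      have h := h2 (i + 1 + j) (by omega)
      have he : m + i + 1 + j = m + (i + 1 + j) := by omega
      simp only [he]
      rw [h]
      rw [List.getD_eq_getElem _ _ (by omega), List.getD_eq_getElem _ _ (by rw [hlen']; omega),
        List.getElem_drop])
    rw [h]
    congr 2
    funext k
    congr 1
    rw [hlen']
    omega
  have hf2 : V (fun k => b (m + L + k)) =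
      ph (List.replicate r 2) (V (fun k => b (m + L + (r + k)))) := by
    have h := stab_fwd V hV (List.replicate r 2) (fun k => b (m + L + k)) (fun k => hb _) (by
      intro j hj
      rw [List.length_replicate] at hj
      rw [h3 j hj, List.getD_eq_getElem _ _ (by simpa using hj), List.getElem_replicate])
    rw [h]
    simp only [List.length_replicate]
  -- the backward part
  have hb1 : bet b (m + i) = ph (w.take i).reverse (bet b m) := by
    have hlen' : (w.take i).length = i := by rw [List.length_take]; omega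
    have h := stab_bwd b (w.take i) m (by
      intro j hj
      rw [hlen'] at hj
      rw [h2 j (by omega), List.getD_eq_getElem _ _ (by omega),
        List.getD_eq_getElem _ _ (by rw [hlen']; exact hj), List.getElem_take])
    rw [hlen'] at h
    exact h
  have hb2 : bet b m = ph (List.replicate r 2) (bet b (m - r)) := by
    have h := stab_bwd b (List.replicate r 2) (m - r) (by
      intro j hj
      rw [List.length_replicate] at hj
      have h := h1 (r - 1 - j) (by omega)
      have he : m - 1 - (r - 1 - j) = m - r + j := by omega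
      rw [he] at h
      rw [h, List.getD_eq_getElem _ _ (by simpa using hj), List.getElem_replicate])
    rw [List.length_replicate, List.reverse_replicate, Nat.sub_add_cancel hrm] at h
    exact h
  have hz1 := hV.pos (fun k => b (m + L + (r + k))) (fun k => hb _)
  have hz2 := stab_bet_mem b hb (m - r)
  have hX : |V (fun k => b (m + i + 1 + k)) - ph (w.drop (i + 1)) th| ≤ 1 / 4 ^ r := by
    rw [hf1, hf2]
    exact stab_close hK _ hv r _ hz1.1.le hz1.2.le
  have hY : |bet b (m + i) - ph (w.take i).reverse th| ≤ 1 / 4 ^ r := by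
    rw [hb1, hb2]
    exact stab_close hK _ hp r _ hz2.1 hz2.2
  have hYm := stab_bet_mem b hb (m + i)
  have hXm := stab_ph_mem (w.drop (i + 1)) th hv stab_th_mem.1 stab_th_mem.2
  have hδ : 3 * (1 / (4 : ℝ) ^ r) ≤ ε := by
    have : 3 * (1 / (4 : ℝ) ^ r) = 3 / 4 ^ r := by ring
    rw [this]; exact hr
  have hfin := stab_final _ _ _ _ _ _ hYm.1 hYm.2 hXm.1 hXm.2 hX hY hδ hg
  have ha : alp V b (m + i) - 1 / 2 = V (fun k => b (m + i + 1 + k)) + 1 / 2 := by
    unfold alp
    rw [hbn]
    push_cast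
    ring
  rw [ha]
  exact hfin

end Pool.Agent.N860.EU
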