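import Pool.Agent.N860.EU.Stm

/-!
# Project EU, part VEX: existence of infinite continued fractions
-/

set_option autoImplicit false

namespace Pool.Agent.N860.EU

open Filter Topology

namespace Vex_

/-- the sequence without its first term -/
def sh (b : ℕ → ℕ) : ℕ → ℕ := fun n => b (n + 1)

/-- finite continued fractions -/
noncomputable def xx : ℕ → (ℕ → ℕ) → ℝ
  | 0, _ => 0
  | n + 1, b => 1 / ((b 0 : ℝ) + xx n (sh b))

theorem sh_pos {b : ℕ → ℕ} (hb : ∀ n, 1 ≤ b n) : ∀ n, 1 ≤ sh b n := fun n => hb (n + 1)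

theorem xx_mem (n : ℕ) : ∀ b : ℕ → ℕ, (∀ n, 1 ≤ b n) → 0 ≤ xx n b ∧ xx n b ≤ 1 := by
  induction n with
  | zero => exact fun b _ => ⟨le_rfl, zero_le_one⟩
  | succ n ih =>
    intro b hb
    obtain ⟨h1, h2⟩ := ih (sh b) (sh_pos hb)
    have h3 : (1 : ℝ) ≤ b 0 := by exact_mod_cast hb 0
    have h4 : (1 : ℝ) ≤ (b 0 : ℝ) + xx n (sh b) := by linarith
    constructor
    · exact div_nonneg zero_le_one (by linarith)
    · exact (div_le_one (by linarith)).2 h4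

theorem contr {a b s t : ℝ} (ha : 1 ≤ a) (hb : 1 ≤ b) (hs : 0 ≤ s) (ht : 0 ≤ t) :
    |1 / (a + 1 / (b + s)) - 1 / (a + 1 / (b + t))| ≤ |s - t| / 4 := by
  have h1 : 0 < b + s := by linarith
  have h2 : 0 < b + t := by linarith
  have h3 : 2 ≤ a * (b + s) + 1 := by nlinarith
  have h4 : 2 ≤ a * (b + t) + 1 := by nlinarith
  have e1 : 1 / (a + 1 / (b + s)) = (b + s) / (a * (b + s) + 1) := by
    have : a + 1 / (b + s) = (a * (b + s) + 1) / (b + s) := by field_simp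
    rw [this, one_div_div]
  have e2 : 1 / (a + 1 / (b + t)) = (b + t) / (a * (b + t) + 1) := by
    have : a + 1 / (b + t) = (a * (b + t) + 1) / (b + t) := by field_simp
    rw [this, one_div_div]
  have e : 1 / (a + 1 / (b + s)) - 1 / (a + 1 / (b + t)) =
      (s - t) / ((a * (b + s) + 1) * (a * (b + t) + 1)) := by
    rw [e1, e2, div_sub_div _ _ (by linarith) (by linarith)]
    congr 1
    ring
  rw [e, abs_div]
  apply div_le_div_of_nonneg_left (abs_nonneg _) (by norm_num)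
  rw [abs_of_pos (by positivity)]
  nlinarith

theorem cauchy_aux (N : ℕ) : ∀ (n m : ℕ) (b : ℕ → ℕ), 2 * N ≤ n → 2 * N ≤ m → (∀ n, 1 ≤ b n) →
    |xx n b - xx m b| ≤ (1 / 4) ^ N := by
  induction N with
  | zero =>
    intro n m b _ _ hb
    obtain ⟨h1, h2⟩ := xx_mem n b hb
    obtain ⟨h3, h4⟩ := xx_mem m b hb
    rw [pow_zero, abs_le]
    constructor <;> linarith
  | succ N ih =>
    intro n m b hn hm hb
    obtain ⟨n', rfl⟩ : ∃ n', n = n' + 2 := ⟨n - 2, by omega⟩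
    obtain ⟨m', rfl⟩ : ∃ m', m = m' + 2 := ⟨m - 2, by omega⟩
    have h1 := ih n' m' (sh (sh b)) (by omega) (by omega) (sh_pos (sh_pos hb))
    have h2 : (1 : ℝ) ≤ b 0 := by exact_mod_cast hb 0
    have h3 : (1 : ℝ) ≤ sh b 0 := by exact_mod_cast sh_pos hb 0
    have h4 := contr h2 h3 (xx_mem n' _ (sh_pos (sh_pos hb))).1 (xx_mem m' _ (sh_pos (sh_pos hb))).1
    have e1 : xx (n' + 2) b = 1 / ((b 0 : ℝ) + 1 / ((sh b 0 : ℝ) + xx n' (sh (sh b)))) := rfl
    have e2 : xx (m' + 2) b = 1 / ((b 0 : ℝ) + 1 / ((sh b 0 : ℝ) + xx m' (sh (sh b)))) := rfl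
    rw [e1, e2, pow_succ]
    linarith

theorem exists_lim {b : ℕ → ℕ} (hb : ∀ n, 1 ≤ b n) : ∃ l, Tendsto (fun n => xx n b) atTop (𝓝 l) := by
  apply cauchySeq_tendsto_of_complete
  rw [Metric.cauchySeq_iff']
  intro ε hε
  obtain ⟨N, hN⟩ := exists_pow_lt_of_lt_one hε (show (1 / 4 : ℝ) < 1 by norm_num)
  exact ⟨2 * N, fun n hn => by
    rw [Real.dist_eq]
    exact (cauchy_aux N n (2 * N) b hn le_rfl hb).trans_lt hN⟩

open Classical in
/-- infinite continued fractions -/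
noncomputable def VV (b : ℕ → ℕ) : ℝ :=
  if h : ∃ l, Tendsto (fun n => xx n b) atTop (𝓝 l) then h.choose else 0

theorem VV_spec {b : ℕ → ℕ} (hb : ∀ n, 1 ≤ b n) : Tendsto (fun n => xx n b) atTop (𝓝 (VV b)) := by
  unfold VV
  rw [dif_pos (exists_lim hb)]
  exact (exists_lim hb).choose_spec

theorem VV_mem {b : ℕ → ℕ} (hb : ∀ n, 1 ≤ b n) : 0 ≤ VV b ∧ VV b ≤ 1 :=
  ⟨ge_of_tendsto' (VV_spec hb) fun n => (xx_mem n b hb).1,
    le_of_tendsto' (VV_spec hb) fun n => (xx_mem n b hb).2⟩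

theorem VV_step {b : ℕ → ℕ} (hb : ∀ n, 1 ≤ b n) : VV b = 1 / ((b 0 : ℝ) + VV (sh b)) := by
  have h1 : (1 : ℝ) ≤ b 0 := by exact_mod_cast hb 0
  have h2 := (VV_mem (sh_pos hb)).1
  have h3 : Tendsto (fun n => xx (n + 1) b) atTop (𝓝 (VV b)) :=
    (VV_spec hb).comp (tendsto_add_atTop_nat 1)
  have h4 : Tendsto (fun n => 1 / ((b 0 : ℝ) + xx n (sh b))) atTop
      (𝓝 (1 / ((b 0 : ℝ) + VV (sh b)))) :=
    tendsto_const_nhds.div (tendsto_const_nhds.add (VV_spec (sh_pos hb))) (by linarith)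
  exact tendsto_nhds_unique h3 h4

theorem VV_pos {b : ℕ → ℕ} (hb : ∀ n, 1 ≤ b n) : 0 < VV b := by
  have h1 : (1 : ℝ) ≤ b 0 := by exact_mod_cast hb 0
  have h2 := (VV_mem (sh_pos hb)).1
  rw [VV_step hb]
  exact div_pos one_pos (by linarith)

end Vex_

open Vex_

theorem vex : S_VEX := by
  refine ⟨VV, ⟨fun b hb => ⟨VV_pos hb, ?_⟩, fun b hb => VV_step hb⟩⟩
  have h1 : (1 : ℝ) ≤ b 0 := by exact_mod_cast hb 0
  have h2 := VV_pos (sh_pos hb)
  rw [VV_step hb, div_lt_one (by linarith)]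
  linarith

end Pool.Agent.N860.EU
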